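import Mathlib

/-!
3-neighbour bootstrap percolation on the square grid: basic facts.
-/

namespace H500B

/-- the grid `[n]^2` -/
noncomputable def box (n : ℕ) : Finset (ℤ × ℤ) := Finset.Icc 1 (n : ℤ) ×ˢ Finset.Icc 1 (n : ℤ)

/-- the points of `ℤ²` which differ from `v` by `1` in exactly one coordinate -/
def nbr (v : ℤ × ℤ) : Finset (ℤ × ℤ) :=
  {(v.1 + 1, v.2), (v.1 - 1, v.2), (v.1, v.2 + 1), (v.1, v.2 - 1)}

/-- one step of `3`-neighbour bootstrap percolation on `[n]^2` -/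
noncomputable def step (n : ℕ) (A : Finset (ℤ × ℤ)) : Finset (ℤ × ℤ) :=
  A ∪ (box n).filter (fun v => 3 ≤ (nbr v ∩ A).card)

/-- the infected set at time `t` -/
noncomputable def inf (n : ℕ) (A : Finset (ℤ × ℤ)) (t : ℕ) : Finset (ℤ × ℤ) := (step n)^[t] A

lemma inf_zero (n A) : inf n A 0 = A := rfl

lemma inf_succ (n A t) : inf n A (t + 1) = step n (inf n A t) := by
  unfold inf; rw [Function.iterate_succ_apply']

lemma inf_mono (n A) {s t : ℕ} (h : s ≤ t) : inf n A s ⊆ inf n A t := by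
  induction t, h using Nat.le_induction with
  | base => exact subset_rfl
  | succ t _ ih =>
    rw [inf_succ]
    exact ih.trans Finset.subset_union_left

lemma inf_sub {n A} (hA : A ⊆ box n) (t : ℕ) : inf n A t ⊆ box n := by
  induction t with
  | zero => exact hA
  | succ t ih =>
    rw [inf_succ]
    exact Finset.union_subset ih (Finset.filter_subset _ _)

lemma mem_step {n : ℕ} {A : Finset (ℤ × ℤ)} {v : ℤ × ℤ} :
    v ∈ step n A ↔ v ∈ A ∨ (v ∈ box n ∧ 3 ≤ (nbr v ∩ A).card) := by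
  unfold step; rw [Finset.mem_union, Finset.mem_filter]

lemma mem_nbr {u v : ℤ × ℤ} : u ∈ nbr v ↔
    u = (v.1 + 1, v.2) ∨ u = (v.1 - 1, v.2) ∨ u = (v.1, v.2 + 1) ∨ u = (v.1, v.2 - 1) := by
  unfold nbr
  simp only [Finset.mem_insert, Finset.mem_singleton]

lemma nbr_symm {u v : ℤ × ℤ} (h : u ∈ nbr v) : v ∈ nbr u := by
  obtain ⟨a, b⟩ := v
  obtain ⟨c, d⟩ := u
  rw [mem_nbr] at h ⊢
  simp only [Prod.mk.injEq] at h ⊢
  omega

lemma nbr_card (v : ℤ × ℤ) : (nbr v).card = 4 := by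
  obtain ⟨a, b⟩ := v
  unfold nbr
  rw [Finset.card_insert_of_notMem, Finset.card_insert_of_notMem, Finset.card_insert_of_notMem,
    Finset.card_singleton]
  all_goals
    simp only [Finset.mem_insert, Finset.mem_singleton, Prod.mk.injEq, not_or, not_and]
    omega

lemma box_card (n : ℕ) : (box n).card = n * n := by
  unfold box
  rw [Finset.card_product, Int.card_Icc]
  simp

lemma mem_box {n : ℕ} {v : ℤ × ℤ} : v ∈ box n ↔ (1 ≤ v.1 ∧ v.1 ≤ n) ∧ 1 ≤ v.2 ∧ v.2 ≤ n := by
  unfold box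
  rw [Finset.mem_product, Finset.mem_Icc, Finset.mem_Icc]

/-- a set with a rank function -/
theorem of_rank {n : ℕ} {P : Finset (ℤ × ℤ)} (hP : P ⊆ box n) (ρ : ℤ × ℤ → ℤ)
    (h1 : ∀ v ∈ P, 1 ≤ ρ v)
    (h2 : ∀ v ∈ P, 3 ≤ ((nbr v).filter (fun u => u ∈ box n ∧ (u ∈ P → ρ u < ρ v))).card)
    (h3 : ∀ v ∈ P, 2 ≤ ρ v →
      ((nbr v).filter (fun u => u ∈ box n ∧ (u ∈ P → ρ u + 1 < ρ v))).card ≤ 2) :
    (∃ s, inf n (box n \ P) s = box n) ∧
      ∀ v ∈ P, ∀ t : ℕ, (t : ℤ) < ρ v → v ∉ inf n (box n \ P) t := by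
  have hsub : box n \ P ⊆ box n := Finset.sdiff_subset
  have hslow : ∀ t : ℕ, ∀ v ∈ P, (t : ℤ) < ρ v → v ∉ inf n (box n \ P) t := by
    intro t
    induction t with
    | zero =>
      intro v hv _ hmem
      rw [inf_zero, Finset.mem_sdiff] at hmem
      exact hmem.2 hv
    | succ t ih =>
      intro v hv ht hmem
      push_cast at ht
      rw [inf_succ, mem_step] at hmem
      rcases hmem with hmem | ⟨_, hmem⟩
      · exact ih v hv (by omega) hmem
      · have h4 := h3 v hv (by omega)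
        have h5 : nbr v ∩ inf n (box n \ P) t ⊆
            (nbr v).filter (fun u => u ∈ box n ∧ (u ∈ P → ρ u + 1 < ρ v)) := by
          intro u hu
          rw [Finset.mem_inter] at hu
          rw [Finset.mem_filter]
          refine ⟨hu.1, inf_sub hsub t hu.2, fun huP => ?_⟩
          by_contra hcon
          exact ih u huP (by omega) hu.2
        have := Finset.card_le_card h5
        omega
  have hfast : ∀ k : ℕ, ∀ v ∈ P, ρ v ≤ k → v ∈ inf n (box n \ P) k := by
    intro k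
    induction k with
    | zero =>
      intro v hv hk
      have := h1 v hv
      push_cast at hk
      omega
    | succ k ih =>
      intro v hv hk
      push_cast at hk
      rw [inf_succ, mem_step]
      right
      refine ⟨hP hv, (h2 v hv).trans (Finset.card_le_card ?_)⟩
      intro u hu
      rw [Finset.mem_filter] at hu
      rw [Finset.mem_inter]
      refine ⟨hu.1, ?_⟩
      by_cases huP : u ∈ P
      · exact ih u huP (by have := hu.2.2 huP; omega)
      · exact inf_mono n _ (Nat.zero_le k) (by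
          rw [inf_zero, Finset.mem_sdiff]
          exact ⟨hu.2.1, huP⟩)
  refine ⟨?_, fun v hv t ht => hslow t v hv ht⟩
  obtain ⟨s, hs⟩ : ∃ s : ℕ, ∀ v ∈ P, ρ v ≤ s := by
    refine ⟨∑ v ∈ P, (ρ v).toNat, fun v hv => ?_⟩
    have := Finset.single_le_sum (f := fun v => (ρ v).toNat) (fun _ _ => Nat.zero_le _) hv
    skip
    omega
  refine ⟨s, Finset.Subset.antisymm (inf_sub hsub s) fun v hv => ?_⟩
  by_cases hvP : v ∈ P
  · exact hfast s v hvP (hs v hvP)
  · exact inf_mono n _ (Nat.zero_le s) (by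
      rw [inf_zero, Finset.mem_sdiff]
      exact ⟨hv, hvP⟩)

/-- three good directions -/
lemma card3 (v : ℤ × ℤ) (g : ℤ × ℤ → Prop) [DecidablePred g] (e : ℤ × ℤ)
    (h : ∀ u ∈ nbr v, u ≠ e → g u) : 3 ≤ ((nbr v).filter g).card := by
  have h1 : (nbr v).erase e ⊆ (nbr v).filter g := by
    intro u hu
    rw [Finset.mem_erase] at hu
    rw [Finset.mem_filter]
    exact ⟨hu.2, h u hu.2 hu.1⟩
  have h2 := Finset.card_le_card h1
  have h3 := Finset.pred_card_le_card_erase (s := nbr v) (a := e)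
  have h4 := nbr_card v
  omega

/-- two bad directions -/
lemma card2 (v : ℤ × ℤ) (g : ℤ × ℤ → Prop) [DecidablePred g] {a b : ℤ × ℤ}
    (ha : a ∈ nbr v) (hb : b ∈ nbr v) (hab : a ≠ b) (h1 : ¬ g a) (h2 : ¬ g b) :
    ((nbr v).filter g).card ≤ 2 := by
  have h3 : (nbr v).filter g ⊆ ((nbr v).erase a).erase b := by
    intro u hu
    rw [Finset.mem_filter] at hu
    rw [Finset.mem_erase, Finset.mem_erase]
    refine ⟨?_, ?_, hu.1⟩
    · rintro rfl; exact h2 hu.2
    · rintro rfl; exact h1 hu.2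
  have h4 := Finset.card_le_card h3
  rw [Finset.card_erase_of_mem (Finset.mem_erase.mpr ⟨hab.symm, hb⟩),
    Finset.card_erase_of_mem ha, nbr_card] at h4
  omega

end H500B
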