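import Pool.Agent.H500R3.Boot.Plane

/-!
Slow percolation for `r = 2d - 3` in `[n]^d`, `d ≥ 3`.
-/

namespace H500G

variable {d : ℕ}

section
variable {n : ℕ} {L : ℤ} {Q : (Fin d → ℤ) → Prop} {q : (Fin d → ℤ) → ℤ}

lemma Rd.rev (H : Rd d n L Q q) : Rd d n L Q (fun w => L + 1 - q w) where
  bx := H.bx
  lo := fun v hv => by have := H.lo v hv; constructor <;> omega
  fst := by obtain ⟨v, h1, h2⟩ := H.lst; exact ⟨v, h1, by omega⟩
  lst := by obtain ⟨v, h1, h2⟩ := H.fst; exact ⟨v, h1, by omega⟩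
  key := by
    intro w hw
    obtain ⟨a, b, ⟨h1, h2⟩, ⟨h3, h4⟩, h5, h6⟩ := H.key w hw
    refine ⟨b, a, ⟨h3, ?_⟩, ⟨h1, ?_⟩, h5.symm, fun u hu hu' => (h6 u hu hu').symm⟩
    · rcases h4 with ⟨g1, g2⟩ | ⟨g1, g2, g3⟩
      · exact Or.inl ⟨by omega, g2⟩
      · exact Or.inr ⟨by omega, g2, by omega⟩
    · rcases h2 with ⟨g1, g2⟩ | ⟨g1, g2, g3⟩
      · exact Or.inl ⟨by omega, g2⟩
      · exact Or.inr ⟨by omega, g2, by omega⟩

theorem cube (hL : 2 ≤ L) (H : Rd d n L Q q) (hn : 4 ≤ n) :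
    ∃ t ∈ times (d + 1 + 1) (2 * d + 1) n,
      (((n - 1) / 2 : ℕ) : ℤ) * ((((n - 2) / 2 : ℕ) : ℤ) * (L + 1) + 1) ≤ (t : ℤ) := by
  obtain ⟨J, hJ⟩ : ∃ J : ℤ, J = (((n - 2) / 2 : ℕ) : ℤ) := ⟨_, rfl⟩
  obtain ⟨m, hm⟩ : ∃ m : ℤ, m = (((n - 1) / 2 : ℕ) : ℤ) := ⟨_, rfl⟩
  have hJ1 : 1 ≤ J := by omega
  have hJn : 2 * J + 2 ≤ n := by omega
  have F := plane (hh := fun y => y - 1) hL H hJ1 (ε := 1) (c := -1) (Or.inl rfl)
    (fun y => by ring) (fun y h1 h2 => by constructor <;> omega) ⟨2 * J + 1, by ring⟩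
  obtain ⟨q', R', hq'⟩ : ∃ q', Rd d n L Q q' ∧ ∀ j w, sg L q' (J + 1 - j) w =
      L + 1 - sg L q j w := by
    by_cases h : J % 2 = 1
    · refine ⟨_, H.rev, fun j w => ?_⟩
      unfold sg
      beta_reduce
      split_ifs <;> omega
    · refine ⟨q, H, fun j w => ?_⟩
      unfold sg
      split_ifs <;> omega
  have G := plane (hh := fun y => 2 * J + 2 - y) hL R' hJ1 (ε := -1) (c := 2 * J + 2)
    (Or.inr rfl) (fun y => by ring) (fun y h1 h2 => by constructor <;> omega) ⟨2, by ring⟩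
  have e1 : PW (d := d) J Q (fun y => 2 * J + 2 - y) = PW J Q (fun y => y - 1) := by
    funext v
    unfold PW
    beta_reduce
    apply propext
    constructor
    · rintro ⟨h1, h2, h3⟩
      exact ⟨h1, by omega, by omega⟩
    · rintro ⟨h1, h2, h3⟩
      exact ⟨h1, by omega, by omega⟩
  have e2 : Pf (d := d) L q' (fun y => 2 * J + 2 - y) =
      fun v => J * (L + 1) + 1 - Pf L q (fun y => y - 1) v := by
    funext v
    unfold Pf
    simp only
    obtain ⟨y, hy⟩ : ∃ y, y = v (Fin.last d) := ⟨_, rfl⟩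
    rw [← hy]
    have e3 : (2 * J + 2 - y + 1) / 2 = J + 1 - (y - 1 + 1) / 2 := by omega
    rw [e3, hq']
    have e4 : (J + 1 - (y - 1 + 1) / 2 - 1) * (L + 1) + ((y - 1 + 1) / 2 - 1) * (L + 1) +
        (L + 1) = J * (L + 1) := by ring
    rcases Int.emod_two_eq_zero_or_one y with h | h
    · rw [if_neg (show ¬ (2 * J + 2 - y) % 2 = 1 by omega), if_pos (show (y - 1) % 2 = 1 by omega)]
      omega
    · rw [if_pos (show (2 * J + 2 - y) % 2 = 1 by omega), if_neg (show ¬ (y - 1) % 2 = 1 by omega)]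
      omega
  rw [e1, e2] at G
  have hT : 2 ≤ J * (L + 1) := by nlinarith
  have := stack (z0 := (n : ℤ) - 2 * m) (m := m) hT F G (by omega) (by omega) (by ring)
  rw [hJ, hm] at this
  exact this

end

/-- the line -/
theorem line {n : ℕ} (hn : 1 ≤ n) : Rd 1 n (n : ℤ) (fun v => v ∈ box 1 n) (fun v => v 0) where
  bx := fun v hv => hv
  lo := fun v hv => mem_box.mp hv 0
  fst := ⟨fun _ => 1, mem_box.mpr fun _ => ⟨le_rfl, by exact_mod_cast hn⟩, rfl⟩
  lst := ⟨fun _ => n, mem_box.mpr fun _ => ⟨by exact_mod_cast hn, le_rfl⟩, rfl⟩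
  key := by
    intro w hw
    have hw0 := mem_box.mp hw 0
    have hb : ∀ u : Fin 1 → ℤ, u ∈ box 1 n ↔ 1 ≤ u 0 ∧ u 0 ≤ n := by
      intro u
      rw [mem_box]
      exact ⟨fun h => h 0, fun h i => by rw [Subsingleton.elim i 0]; exact h⟩
    have ha : ∀ u : Fin 1 → ℤ, adj u w ↔ |u 0 - w 0| = 1 := by
      intro u
      constructor
      · rintro ⟨i, h1, -⟩
        rw [Subsingleton.elim i 0] at h1
        exact h1
      · intro h
        exact ⟨0, h, fun j hj => absurd (Subsingleton.elim j 0) hj⟩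
    refine ⟨fun _ => w 0 + 1, fun _ => w 0 - 1, ⟨(ha _).mpr (by simp), ?_⟩,
      ⟨(ha _).mpr (by simp), ?_⟩, ?_, ?_⟩
    · rw [hb]
      beta_reduce
      have e0 : (w 0 = (n : ℤ)) ∨ (w 0 < n) := by omega
      rcases e0 with h | h
      · exact Or.inl ⟨h, by omega⟩
      · refine Or.inr ⟨h, ?_, rfl⟩
        constructor <;> omega
    · rw [hb]
      beta_reduce
      have e0 : (w 0 = 1) ∨ (1 < w 0) := by omega
      rcases e0 with h | h
      · exact Or.inl ⟨h, by omega⟩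
      · refine Or.inr ⟨h, ?_, rfl⟩
        constructor <;> omega
    · intro h
      have := congrFun h 0
      beta_reduce at this
      omega
    · intro u hu _
      rw [ha, abs_eq (by norm_num)] at hu
      rcases hu with h | h
      · left
        funext i
        rw [Subsingleton.elim i 0]
        change u 0 = w 0 + 1
        omega
      · right
        funext i
        rw [Subsingleton.elim i 0]
        change u 0 = w 0 - 1
        omega

/-- `d = 3`, `r = 3` -/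
theorem bounds33 (n : ℕ) (hn : 4 ≤ n) :
    ((n - 1) / 2) * (((n - 2) / 2) * (n + 1) + 1) ≤ M 3 3 n := by
  obtain ⟨t, ht, h⟩ := cube (L := (n : ℤ)) (by omega) (line (n := n) (by omega)) hn
  exact le_trans (by exact_mod_cast h) (le_csSup (times_bdd' (r := 3) (by norm_num) 3 n) ht)

/-- a long road in dimension `d + 2` -/
theorem roads {n : ℕ} (hn : 5 ≤ n) (d : ℕ) : ∃ Q q,
    Rd (d + 2) n (2 * (2 * (((n - 1) / 4 : ℕ) : ℤ)) ^ (d + 2) + 1) Q q := by
  obtain ⟨K, hK⟩ : ∃ K : ℤ, K = 2 * (((n - 1) / 4 : ℕ) : ℤ) - 1 := ⟨_, rfl⟩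
  have hK0 : 0 ≤ K := by omega
  have hKo : K % 2 = 1 := by omega
  have hKN : 2 * K + 2 ≤ (n : ℤ) - 1 := by omega
  obtain ⟨P, ρ, H, h2, h3⟩ := snakes' hK0 hKN hKo (d + 1)
  have h1 : (1 : ℤ) ≤ (K + 1) ^ (d + 1) := one_le_pow₀ (by omega)
  obtain ⟨P', ρ', H', g1, g2, g3, g4⟩ := step_up' (by omega) H hK0 hKN hKo h2 h3
  have e : (K + 1) * (2 * (K + 1) ^ (d + 1) - 1 + 1) - 1 = 2 * (K + 1) ^ (d + 2) - 1 := by ring
  rw [e] at H' g4
  have h4 : (2 : ℤ) ≤ (K + 1) ^ (d + 2) := by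
    calc (2 : ℤ) ≤ K + 1 := by omega
      _ = (K + 1) ^ 1 := (pow_one _).symm
      _ ≤ (K + 1) ^ (d + 2) := pow_le_pow_right₀ (by omega) (by omega)
  obtain ⟨Q, q, R⟩ := road (n := n) (i := Fin.last (d + 1)) (j := (0 : Fin (d + 1)).castSucc)
    (by omega) (by omega) H' g1 g2 g3 g4 (Fin.castSucc_lt_last _).ne' (by rw [Fin.snoc_last])
    (by rw [Fin.snoc_castSucc]) (by
      rintro ⟨l, -, hl⟩
      by_cases h : l = Fin.last (d + 1)
      · have h5 := hl (0 : Fin (d + 1)).castSucc (by rw [h]; exact (Fin.castSucc_lt_last _).ne)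
        rw [Function.update_of_ne (Fin.castSucc_lt_last _).ne, Function.update_self,
          Fin.snoc_castSucc] at h5
        omega
      · have h5 := hl (Fin.last (d + 1)) (Ne.symm h)
        rw [Function.update_self, Function.update_of_ne (Fin.castSucc_lt_last _).ne',
          Fin.snoc_last] at h5
        omega)
  refine ⟨Q, q, ?_⟩
  have h6 : 2 * (((n - 1) / 4 : ℕ) : ℤ) = K + 1 := by omega
  have h7 : 2 * (K + 1) ^ (d + 2) - 1 + 2 = 2 * (K + 1) ^ (d + 2) + 1 := by ring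
  rw [h6, ← h7]
  exact R

/-- `r = 2d - 3`, `d ≥ 4` -/
theorem bounds3 {d : ℕ} (hd : 4 ≤ d) (n : ℕ) (hn : 5 ≤ n) :
    ((n - 1) / 2) * (((n - 2) / 2) * (2 * (2 * ((n - 1) / 4)) ^ (d - 2) + 2) + 1) ≤
      M d (2 * d - 3) n := by
  obtain ⟨e, rfl⟩ : ∃ e, d = e + 2 + 1 + 1 := ⟨d - 4, by omega⟩
  obtain ⟨Q, q, R⟩ := roads hn e
  have h4 : (1 : ℤ) ≤ (2 * (((n - 1) / 4 : ℕ) : ℤ)) ^ (e + 2) := one_le_pow₀ (by omega)
  obtain ⟨t, ht, h1⟩ := cube (by omega) R (by omega)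
  have e1 : 2 * (e + 2 + 1 + 1) - 3 = 2 * (e + 2) + 1 := by omega
  have e2 : e + 2 + 1 + 1 - 2 = e + 2 := by omega
  rw [e1, e2]
  refine le_trans ?_ (le_csSup (times_bdd' (by omega) _ n) ht)
  have h5 : ((((n - 1) / 2) * (((n - 2) / 2) * (2 * (2 * ((n - 1) / 4)) ^ (e + 2) + 2) + 1) :
      ℕ) : ℤ) ≤ t := by
    refine le_trans (le_of_eq ?_) h1
    push_cast
    ring
  exact_mod_cast h5

end H500G
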