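import Pool.Agent.H500R3.Boot.Road

/-!
The edge count bound `r M ≤ d n^d` and the two-sided bound for `r = 2d - 2`.
-/

namespace H500G

variable {d : ℕ}

/-- twice the number of edges inside `S` -/
def E2 (S : Finset (Fin d → ℤ)) : ℕ := ∑ u ∈ S, (nbr u ∩ S).card

lemma E2_union {r : ℕ} (S N : Finset (Fin d → ℤ)) (hd : Disjoint S N)
    (hN : ∀ v ∈ N, r ≤ (nbr v ∩ S).card) : E2 S + 2 * (r * N.card) ≤ E2 (S ∪ N) := by
  classical
  have h1 : ∀ u : Fin d → ℤ, (nbr u ∩ (S ∪ N)).card = (nbr u ∩ S).card + (nbr u ∩ N).card := by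
    intro u
    rw [Finset.inter_union_distrib_left, Finset.card_union_of_disjoint]
    exact hd.mono Finset.inter_subset_right Finset.inter_subset_right
  have h2 : ∑ u ∈ S, (nbr u ∩ N).card = ∑ v ∈ N, (nbr v ∩ S).card := by
    have h3 := Finset.sum_card_bipartiteAbove_eq_sum_card_bipartiteBelow
      (s := S) (t := N) (fun u w => w ∈ nbr u)
    unfold Finset.bipartiteAbove Finset.bipartiteBelow at h3
    have e1 : ∀ u : Fin d → ℤ, (nbr u ∩ N) = N.filter (fun w => w ∈ nbr u) := by
      intro u; ext w; rw [Finset.mem_inter, Finset.mem_filter]; exact and_comm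
    have e2 : ∀ v : Fin d → ℤ, (nbr v ∩ S) = S.filter (fun u => v ∈ nbr u) := by
      intro v; ext w; rw [Finset.mem_inter, Finset.mem_filter]
      exact ⟨fun h => ⟨h.2, nbr_symm h.1⟩, fun h => ⟨nbr_symm h.2, h.1⟩⟩
    calc ∑ u ∈ S, (nbr u ∩ N).card = ∑ u ∈ S, (N.filter (fun w => w ∈ nbr u)).card :=
          Finset.sum_congr rfl (fun u _ => by rw [e1 u])
      _ = ∑ v ∈ N, (S.filter (fun u => v ∈ nbr u)).card := h3
      _ = ∑ v ∈ N, (nbr v ∩ S).card := Finset.sum_congr rfl (fun v _ => by rw [e2 v])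
  have h4 : r * N.card ≤ ∑ v ∈ N, (nbr v ∩ S).card := by
    have := Finset.card_nsmul_le_sum N (fun v => (nbr v ∩ S).card) r hN
    rw [smul_eq_mul, mul_comm] at this
    exact this
  unfold E2
  rw [Finset.sum_union hd]
  simp only [h1, Finset.sum_add_distrib]
  rw [h2]
  omega

theorem edge_bound {r n t : ℕ} (h : t ∈ times d r n) : r * t ≤ d * n ^ d := by
  classical
  obtain ⟨A, hA, hT, hmin⟩ := h
  have hstep : ∀ s, s ≤ t → 2 * (r * s) ≤ E2 (inf r n A s) := by
    intro s
    induction s with
    | zero => intro _; simp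
    | succ s ih =>
      intro hs
      have h1 := ih (by omega)
      have hne : inf r n A (s + 1) ≠ inf r n A s := by
        intro he
        have hst : ∀ k, inf r n A (s + k) = inf r n A s := by
          intro k
          induction k with
          | zero => rfl
          | succ k ihk =>
            have e : s + (k + 1) = (s + k) + 1 := by ring
            rw [e, inf_succ, ihk, ← inf_succ, he]
        apply hmin s (by omega)
        rw [← hT, ← hst (t - s)]
        congr 1
        omega
      have hsub := inf_mono r n A (Nat.le_succ s)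
      set N := inf r n A (s + 1) \ inf r n A s with hN
      have hNe : 1 ≤ N.card := by
        rw [Nat.one_le_iff_ne_zero, Finset.card_ne_zero]
        rw [hN, Finset.sdiff_nonempty]
        intro h3
        exact hne (Finset.Subset.antisymm h3 hsub)
      have hu : inf r n A s ∪ N = inf r n A (s + 1) := by
        rw [hN, Finset.union_sdiff_of_subset hsub]
      have h2 := E2_union (r := r) (inf r n A s) N Finset.disjoint_sdiff (by
        intro v hv
        rw [hN, Finset.mem_sdiff, inf_succ, mem_step] at hv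
        rcases hv with ⟨h5 | h5, h6⟩
        · exact absurd h5 h6
        · exact h5.2)
      rw [hu] at h2
      have h3 : r * 1 ≤ r * N.card := Nat.mul_le_mul_left r hNe
      have h4 : r * (s + 1) = r * s + r * 1 := by ring
      omega
  have h1 := hstep t le_rfl
  rw [hT] at h1
  have h2 : E2 (box d n) ≤ (box d n).card * (2 * d) := by
    unfold E2
    have := Finset.sum_le_card_nsmul (box d n) (fun u => (nbr u ∩ box d n).card) (2 * d)
      (fun u _ => (Finset.card_le_card Finset.inter_subset_left).trans (nbr_card u).le)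
    rwa [smul_eq_mul] at this
  rw [box_card] at h2
  nlinarith

lemma times_bdd' {r : ℕ} (hr : 1 ≤ r) (d n : ℕ) : BddAbove (times d r n) :=
  ⟨d * n ^ d, fun t ht => by
    have h1 := edge_bound ht
    have h2 : 1 * t ≤ r * t := Nat.mul_le_mul_right t hr
    omega⟩

/-- every threshold: the edge count bound -/
theorem upper_all {r : ℕ} (hr : 1 ≤ r) (d n : ℕ) : r * M d r n ≤ d * n ^ d :=
  edge_bound (Nat.sSup_mem (times_ne d r n) (times_bdd' hr d n))

/-- `r = 2d - 2`, `d ≥ 3` -/
theorem bounds2 {d : ℕ} (hd : 3 ≤ d) (n : ℕ) (hn : 5 ≤ n) :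
    ((n - 1) / 2) * (2 * (2 * ((n - 1) / 4)) ^ (d - 1) + 2) ≤ M d (2 * d - 2) n := by
  obtain ⟨e, rfl⟩ : ∃ e, d = e + 2 + 1 := ⟨d - 3, by omega⟩
  obtain ⟨t, ht, h1⟩ := lower2 hn e
  have e1 : 2 * (e + 2 + 1) - 2 = 2 * (e + 2) := by omega
  have e2 : e + 2 + 1 - 1 = e + 2 := by omega
  rw [e1, e2]
  exact h1.trans (le_csSup (times_bdd' (by omega) _ n) ht)

end H500G
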