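import Pool.Agent.H500R3.Boot.Basic

/-!
The upper bound for the percolation time.
-/

namespace H500B

theorem chain {n : ℕ} {A : Finset (ℤ × ℤ)} : ∀ t : ℕ, 1 ≤ t → ∀ v, v ∈ inf n A t →
    v ∉ inf n A (t - 1) → ∃ f : ℕ → ℤ × ℤ, f t = v ∧
      (∀ i, 1 ≤ i → i ≤ t → f i ∈ inf n A i ∧ f i ∉ inf n A (i - 1)) ∧
      (∀ i, 1 ≤ i → i < t → f (i + 1) ∈ nbr (f i)) := by
  intro t ht
  induction t, ht using Nat.le_induction with
  | base =>
    intro v h1 h2
    refine ⟨fun _ => v, rfl, fun i hi hi' => ?_, fun i hi hi' => by omega⟩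
    have : i = 1 := by omega
    subst this
    exact ⟨h1, h2⟩
  | succ t ht ih =>
    intro v h1 h2
    rw [Nat.add_sub_cancel] at h2
    rw [inf_succ, mem_step] at h1
    rcases h1 with h1 | ⟨hb, h1⟩
    · exact absurd h1 h2
    · obtain ⟨u, hu1, hu2, hu3⟩ : ∃ u, u ∈ nbr v ∧ u ∈ inf n A t ∧ u ∉ inf n A (t - 1) := by
        by_contra hcon
        push Not at hcon
        apply h2
        have e : t = (t - 1) + 1 := by omega
        rw [e, inf_succ, mem_step]
        right
        refine ⟨hb, h1.trans (Finset.card_le_card ?_)⟩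
        intro u hu
        rw [Finset.mem_inter] at hu ⊢
        exact ⟨hu.1, hcon u hu.1 hu.2⟩
      obtain ⟨f, hf0, hf1, hf2⟩ := ih u hu2 hu3
      refine ⟨fun i => if i = t + 1 then v else f i, by simp, fun i hi hi' => ?_,
        fun i hi hi' => ?_⟩
      · by_cases hit : i = t + 1
        · subst hit
          simp only [if_true]
          rw [inf_succ, mem_step, Nat.add_sub_cancel]
          exact ⟨Or.inr ⟨hb, h1⟩, h2⟩
        · simp only [if_neg hit]
          exact hf1 i hi (by omega)
      · have h3 : ¬ i = t + 1 := by omega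
        simp only [if_neg h3]
        by_cases hit : i + 1 = t + 1
        · rw [if_pos hit]
          have : i = t := by omega
          rw [this, hf0]
          exact nbr_symm hu1
        · rw [if_neg hit]
          exact hf2 i hi (by omega)

theorem upper {n : ℕ} {A : Finset (ℤ × ℤ)} (hA : A ⊆ box n) {T : ℕ}
    (hT : inf n A T = box n) (hmin : ∀ t < T, inf n A t ≠ box n) : 3 * T ≤ 2 * (n * n) + 1 := by
  classical
  rcases Nat.eq_zero_or_pos T with h0 | h0
  · omega
  obtain ⟨v, hv1, hv2⟩ : ∃ v, v ∈ inf n A T ∧ v ∉ inf n A (T - 1) := by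
    by_contra hcon
    push Not at hcon
    apply hmin (T - 1) (by omega)
    refine Finset.Subset.antisymm (inf_sub hA _) ?_
    rw [← hT]
    exact hcon
  obtain ⟨f, -, hf1, hf2⟩ := chain T h0 v hv1 hv2
  have hK : ∀ i, 1 ≤ i → i < T → ∀ w ∈ nbr (f i), w ≠ f (i + 1) → w ∈ inf n A (i - 1) := by
    intro i hi hiT w hw hwne
    by_contra hcon
    have h1 := (hf1 i hi hiT.le).1
    have h2 := (hf1 i hi hiT.le).2
    have e : i = (i - 1) + 1 := by omega
    rw [e, inf_succ, mem_step, ← e] at h1
    rcases h1 with h1 | ⟨-, h1⟩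
    · exact h2 h1
    · have h3 : f (i + 1) ∉ inf n A (i - 1) := fun h =>
        (hf1 (i + 1) (by omega) (by omega)).2 (inf_mono n A (by omega) h)
      have h4 := card2 (f i) (fun u => u ∈ inf n A (i - 1)) hw (hf2 i hi hiT) hwne hcon h3
      rw [Finset.filter_mem_eq_inter] at h4
      omega
  have hinj : Set.InjOn f (Finset.Icc 1 T : Finset ℕ) := by
    have key : ∀ i j, 1 ≤ i → i < j → j ≤ T → f i ≠ f j := by
      intro i j hi hij hj h
      have h1 := (hf1 i hi (by omega)).1
      have h2 := (hf1 j (by omega) hj).2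
      rw [← h] at h2
      exact h2 (inf_mono n A (by omega) h1)
    intro i hi j hj hij
    simp only [Finset.coe_Icc, Set.mem_Icc] at hi hj
    rcases lt_trichotomy i j with h | h | h
    · exact absurd hij (key i j hi.1 h hj.2)
    · exact h
    · exact absurd hij.symm (key j i hj.1 h hi.2)
  set C := (Finset.Icc 1 T).image f with hC
  have hCcard : C.card = T := by
    rw [hC, Finset.card_image_of_injOn hinj, Nat.card_Icc]; omega
  have hCbox : C ⊆ box n := by
    intro w hw
    rw [hC, Finset.mem_image] at hw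
    obtain ⟨i, hi, rfl⟩ := hw
    rw [Finset.mem_Icc] at hi
    exact inf_sub hA _ (hf1 i hi.1 hi.2).1
  set B := box n \ C with hB
  have hBcard : B.card = n * n - T := by
    rw [hB, Finset.card_sdiff_of_subset hCbox, box_card, hCcard]
  have hTn : T ≤ n * n := by
    rw [← hCcard, ← box_card]
    exact Finset.card_le_card hCbox
  have hlow : ∀ i ∈ Finset.Icc 1 (T - 1), 2 ≤ (B.filter (fun w => w ∈ nbr (f i))).card := by
    intro i hi
    rw [Finset.mem_Icc] at hi
    have h1 : ((nbr (f i)).erase (f (i + 1))).erase (f (i - 1)) ⊆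
        B.filter (fun w => w ∈ nbr (f i)) := by
      intro w hw
      rw [Finset.mem_erase, Finset.mem_erase] at hw
      obtain ⟨w1, w2, w3⟩ := hw
      have h2 := hK i hi.1 (by omega) w w3 w2
      rw [Finset.mem_filter, hB, Finset.mem_sdiff]
      refine ⟨⟨inf_sub hA _ h2, fun hwC => ?_⟩, w3⟩
      rw [hC, Finset.mem_image] at hwC
      obtain ⟨j, hj, hjw⟩ := hwC
      rw [Finset.mem_Icc] at hj
      have h3 : j < i := by
        by_contra hcon
        refine (hf1 j hj.1 hj.2).2 ?_
        rw [hjw]
        exact inf_mono n A (by omega) h2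
      have h4 : j ≠ i - 1 := by
        rintro rfl
        exact w1 hjw.symm
      have h5 : f i ∈ nbr (f j) := by
        rw [hjw]; exact nbr_symm w3
      have h6 : f i ≠ f (j + 1) := by
        intro h
        have h7 := (hf1 (j + 1) (by omega) (by omega)).1
        rw [← h] at h7
        exact (hf1 i hi.1 (by omega)).2 (inf_mono n A (by omega) h7)
      have h8 := hK j hj.1 (by omega) _ h5 h6
      exact (hf1 i hi.1 (by omega)).2 (inf_mono n A (by omega) h8)
    have h2 := Finset.card_le_card h1
    have h3 := Finset.pred_card_le_card_erase (s := nbr (f i)) (a := f (i + 1))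
    have h4 := Finset.pred_card_le_card_erase (s := (nbr (f i)).erase (f (i + 1)))
      (a := f (i - 1))
    have h5 := nbr_card (f i)
    omega
  have hup : ∀ w ∈ B, ((Finset.Icc 1 (T - 1)).filter (fun i => w ∈ nbr (f i))).card ≤ 4 := by
    intro w _
    rw [← nbr_card w]
    refine Finset.card_le_card_of_injOn f ?_ ?_
    · intro i hi
      rw [Finset.coe_filter] at hi
      exact nbr_symm hi.2
    · refine hinj.mono ?_
      intro i hi
      rw [Finset.coe_filter] at hi
      have := hi.1
      rw [Finset.mem_Icc] at this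
      rw [Finset.coe_Icc, Set.mem_Icc]
      omega
  have hdc := Finset.sum_card_bipartiteAbove_eq_sum_card_bipartiteBelow
    (s := Finset.Icc 1 (T - 1)) (t := B) (fun i w => w ∈ nbr (f i))
  unfold Finset.bipartiteAbove Finset.bipartiteBelow at hdc
  have h1 : (T - 1) * 2 ≤ ∑ i ∈ Finset.Icc 1 (T - 1), (B.filter (fun w => w ∈ nbr (f i))).card := by
    have := Finset.card_nsmul_le_sum (Finset.Icc 1 (T - 1)) _ 2 hlow
    rw [Nat.card_Icc, smul_eq_mul] at this
    simpa using this
  have h2 : ∑ w ∈ B, ((Finset.Icc 1 (T - 1)).filter (fun i => w ∈ nbr (f i))).card ≤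
      B.card * 4 := by
    have := Finset.sum_le_card_nsmul B _ 4 hup
    rwa [smul_eq_mul] at this
  have h3 : (T - 1) * 2 ≤ B.card * 4 := h1.trans (hdc.le.trans h2)
  rw [hBcard] at h3
  omega

end H500B
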