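import Pool.Agent.H500R3.Boot.Lower
import Pool.Agent.H500R3.Boot.Upper

/-!
The maximum percolation time of 3-neighbour bootstrap percolation on `[n]^2`.
-/

namespace H500B

/-- the percolation times of the percolating sets of `[n]^2` -/
def times (n : ℕ) : Set ℕ :=
  {t | ∃ A, A ⊆ box n ∧ inf n A t = box n ∧ ∀ s < t, inf n A s ≠ box n}

lemma times_le {n t : ℕ} (h : t ∈ times n) : 3 * t ≤ 2 * (n * n) + 1 := by
  obtain ⟨A, h1, h2, h3⟩ := h
  exact upper h1 h2 h3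

lemma times_bdd (n : ℕ) : BddAbove (times n) :=
  ⟨2 * (n * n) + 1, fun t ht => by have := times_le ht; omega⟩

lemma times_ne (n : ℕ) : (times n).Nonempty :=
  ⟨0, box n, subset_rfl, rfl, fun s hs => by omega⟩

lemma sSup_mem (n : ℕ) : sSup (times n) ∈ times n := Nat.sSup_mem (times_ne n) (times_bdd n)

lemma exists_time {n : ℕ} {S : ℕ} (hS : S % 2 = 0) (hn : 3 * S + 6 ≤ n) :
    ∃ t ∈ times n, 6 * (S + 1) ^ 2 + 2 ≤ t := by
  classical
  obtain ⟨h1, h2⟩ := snake_time (n := n) (S := S) (by omega) (by omega) (by omega)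
  refine ⟨Nat.find h1, ⟨_, Finset.sdiff_subset, Nat.find_spec h1,
    fun s hs => Nat.find_min h1 hs⟩, ?_⟩
  by_contra hcon
  push Not at hcon
  refine h2 _ ?_ (Nat.find_spec h1)
  exact_mod_cast hcon

/-- the maximum percolation time -/
noncomputable def M (n : ℕ) : ℕ := sSup (times n)

/-- the two-sided bound -/
theorem bounds (n : ℕ) : 3 * M n ≤ 2 * (n * n) + 1 ∧
    2 * ((n : ℤ) * n) ≤ 3 * M n + 36 * n := by
  unfold M
  refine ⟨times_le (sSup_mem n), ?_⟩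
  rcases Nat.lt_or_ge n 18 with hn | hn
  · have : (n : ℤ) * n ≤ 18 * n := by nlinarith
    have h0 : (0 : ℤ) ≤ sSup (times n) := by positivity
    linarith
  · obtain ⟨S, hS⟩ : ∃ S, S = 2 * ((n - 6) / 6) := ⟨_, rfl⟩
    obtain ⟨t, ht, h1⟩ := exists_time (n := n) (S := S) (by omega) (by omega)
    have h2 : t ≤ sSup (times n) := le_csSup (times_bdd n) ht
    have h3 : n ≤ 3 * (S + 1) + 8 := by omega
    have h4 : (0 : ℤ) ≤ (n : ℤ) - 8 := by omega
    have h5 : ((n : ℤ) - 8) ≤ 3 * (S + 1) := by omega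
    have h6 : ((n : ℤ) - 8) ^ 2 ≤ (3 * (S + 1)) ^ 2 := pow_le_pow_left₀ h4 h5 2
    have h7 : (6 * ((S : ℤ) + 1) ^ 2 + 2) ≤ sSup (times n) := by
      have : 6 * (S + 1) ^ 2 + 2 ≤ sSup (times n) := h1.trans h2
      exact_mod_cast this
    nlinarith

open Filter Topology in
theorem limit : Tendsto (fun n : ℕ => (M n : ℝ) / (n : ℝ) ^ 2) atTop (𝓝 (2 / 3)) := by
  have h1 : Tendsto (fun n : ℕ => (2 / 3 : ℝ) - 12 * (n : ℝ)⁻¹) atTop (𝓝 (2 / 3)) := by
    have := (tendsto_inv_atTop_nhds_zero_nat (𝕜 := ℝ)).const_mul 12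
    simpa using this.const_sub (2 / 3 : ℝ)
  have h2 : Tendsto (fun n : ℕ => (2 / 3 : ℝ) + (n : ℝ)⁻¹) atTop (𝓝 (2 / 3)) := by
    have := (tendsto_inv_atTop_nhds_zero_nat (𝕜 := ℝ))
    simpa using this.const_add (2 / 3 : ℝ)
  refine tendsto_of_tendsto_of_tendsto_of_le_of_le' h1 h2 ?_ ?_
  · filter_upwards [eventually_ge_atTop 1] with n hn
    have hn' : (1 : ℝ) ≤ n := by exact_mod_cast hn
    obtain ⟨-, h⟩ := bounds n
    have h' : 2 * ((n : ℝ) * n) ≤ 3 * (M n : ℝ) + 36 * n := by exact_mod_cast h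
    rw [le_div_iff₀ (by positivity)]
    have e : (2 / 3 - 12 * (n : ℝ)⁻¹) * (n : ℝ) ^ 2 = 2 / 3 * (n : ℝ) ^ 2 - 12 * n := by
      field_simp
    rw [e]
    nlinarith
  · filter_upwards [eventually_ge_atTop 1] with n hn
    have hn' : (1 : ℝ) ≤ n := by exact_mod_cast hn
    obtain ⟨h, -⟩ := bounds n
    have h' : 3 * (M n : ℝ) ≤ 2 * ((n : ℝ) * n) + 1 := by exact_mod_cast h
    rw [div_le_iff₀ (by positivity)]
    have e : (2 / 3 + (n : ℝ)⁻¹) * (n : ℝ) ^ 2 = 2 / 3 * (n : ℝ) ^ 2 + n := by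
      field_simp
    rw [e]
    nlinarith

end H500B
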