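import Mathlib

/-!
`r`-neighbour bootstrap percolation on the grid `[n]^d`: basic facts and the upper bound for
`r = 2d - 1`.
-/

namespace H500G

variable {d : ℕ}

/-- the grid `[n]^d` -/
noncomputable def box (d n : ℕ) : Finset (Fin d → ℤ) :=
  Fintype.piFinset (fun _ => Finset.Icc 1 (n : ℤ))

/-- the `2d` points of `ℤ^d` which differ from `v` by `1` in exactly one coordinate -/
def nbr (v : Fin d → ℤ) : Finset (Fin d → ℤ) :=
  Finset.univ.image (fun p : Fin d × Bool =>
    Function.update v p.1 (v p.1 + (if p.2 then 1 else -1)))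

/-- one step of `r`-neighbour bootstrap percolation on `[n]^d` -/
noncomputable def step (r n : ℕ) (A : Finset (Fin d → ℤ)) : Finset (Fin d → ℤ) :=
  A ∪ (box d n).filter (fun v => r ≤ (nbr v ∩ A).card)

/-- the infected set at time `t` -/
noncomputable def inf (r n : ℕ) (A : Finset (Fin d → ℤ)) (t : ℕ) : Finset (Fin d → ℤ) :=
  (step r n)^[t] A

/-- the percolation times of the percolating sets of `[n]^d` -/
def times (d r n : ℕ) : Set ℕ :=
  {t | ∃ A, A ⊆ box d n ∧ inf r n A t = box d n ∧ ∀ s < t, inf r n A s ≠ box d n}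

/-- the maximum percolation time -/
noncomputable def M (d r n : ℕ) : ℕ := sSup (times d r n)

lemma inf_zero (r n) (A : Finset (Fin d → ℤ)) : inf r n A 0 = A := rfl

lemma inf_succ (r n) (A : Finset (Fin d → ℤ)) (t) : inf r n A (t + 1) = step r n (inf r n A t) := by
  unfold inf; rw [Function.iterate_succ_apply']

lemma inf_mono (r n) (A : Finset (Fin d → ℤ)) {s t : ℕ} (h : s ≤ t) :
    inf r n A s ⊆ inf r n A t := by
  induction t, h using Nat.le_induction with
  | base => exact subset_rfl
  | succ t _ ih =>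
    rw [inf_succ]
    exact ih.trans Finset.subset_union_left

lemma inf_sub {r n} {A : Finset (Fin d → ℤ)} (hA : A ⊆ box d n) (t : ℕ) :
    inf r n A t ⊆ box d n := by
  induction t with
  | zero => exact hA
  | succ t ih =>
    rw [inf_succ]
    exact Finset.union_subset ih (Finset.filter_subset _ _)

lemma mem_step {r n : ℕ} {A : Finset (Fin d → ℤ)} {v : Fin d → ℤ} :
    v ∈ step r n A ↔ v ∈ A ∨ (v ∈ box d n ∧ r ≤ (nbr v ∩ A).card) := by
  unfold step; rw [Finset.mem_union, Finset.mem_filter]

/-- adjacency -/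
def adj (u v : Fin d → ℤ) : Prop := ∃ i, |u i - v i| = 1 ∧ ∀ j, j ≠ i → u j = v j

lemma mem_nbr {u v : Fin d → ℤ} : u ∈ nbr v ↔ adj u v := by
  unfold nbr adj
  rw [Finset.mem_image]
  constructor
  · rintro ⟨⟨i, b⟩, -, rfl⟩
    refine ⟨i, ?_, fun j hj => by simp [hj]⟩
    cases b <;> simp
  · rintro ⟨i, h1, h2⟩
    rcases (abs_eq (by norm_num : (0 : ℤ) ≤ 1)).mp h1 with h | h
    · refine ⟨(i, true), Finset.mem_univ _, ?_⟩
      funext j
      by_cases hj : j = i
      · subst hj; simp; omega
      · simp [hj, h2 j hj]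
    · refine ⟨(i, false), Finset.mem_univ _, ?_⟩
      funext j
      by_cases hj : j = i
      · subst hj; simp; omega
      · simp [hj, h2 j hj]

lemma adj_symm {u v : Fin d → ℤ} (h : adj u v) : adj v u := by
  obtain ⟨i, h1, h2⟩ := h
  exact ⟨i, by rw [abs_sub_comm]; exact h1, fun j hj => (h2 j hj).symm⟩

lemma nbr_symm {u v : Fin d → ℤ} (h : u ∈ nbr v) : v ∈ nbr u := by
  rw [mem_nbr] at h ⊢
  exact adj_symm h

lemma nbr_card (v : Fin d → ℤ) : (nbr v).card = 2 * d := by
  unfold nbr
  rw [Finset.card_image_of_injective, Finset.card_univ, Fintype.card_prod, Fintype.card_fin,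
    Fintype.card_bool, mul_comm]
  rintro ⟨i, b⟩ ⟨j, c⟩ h
  have hij : i = j := by
    by_contra hne
    have h1 := congrFun h i
    simp only [Function.update_self, Function.update_of_ne hne] at h1
    cases b <;> simp at h1
  subst hij
  have h1 := congrFun h i
  simp only [Function.update_self] at h1
  cases b <;> cases c <;> simp at h1 ⊢

lemma box_card (d n : ℕ) : (box d n).card = n ^ d := by
  unfold box
  rw [Fintype.card_piFinset]
  simp

lemma mem_box {n : ℕ} {v : Fin d → ℤ} : v ∈ box d n ↔ ∀ i, 1 ≤ v i ∧ v i ≤ n := by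
  unfold box
  rw [Fintype.mem_piFinset]
  simp only [Finset.mem_Icc]

/-- the number of bad directions -/
lemma card_bad (v : Fin d → ℤ) (g : (Fin d → ℤ) → Prop) [DecidablePred g] :
    ((nbr v).filter g).card + ((nbr v).filter (fun u => ¬ g u)).card = 2 * d := by
  rw [← nbr_card v]
  exact Finset.card_filter_add_card_filter_not _

theorem chain {r n : ℕ} {A : Finset (Fin d → ℤ)} : ∀ t : ℕ, 1 ≤ t → ∀ v, v ∈ inf r n A t →
    v ∉ inf r n A (t - 1) → ∃ f : ℕ → Fin d → ℤ, f t = v ∧
      (∀ i, 1 ≤ i → i ≤ t → f i ∈ inf r n A i ∧ f i ∉ inf r n A (i - 1)) ∧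
      (∀ i, 1 ≤ i → i < t → f (i + 1) ∈ nbr (f i)) := by
  intro t ht
  induction t, ht using Nat.le_induction with
  | base =>
    intro v h1 h2
    refine ⟨fun _ => v, rfl, fun i hi hi' => ?_, fun i hi hi' => by omega⟩
    have : i = 1 := by omega
    subst this
    exact ⟨h1, h2⟩
  | succ t ht ih =>
    intro v h1 h2
    rw [Nat.add_sub_cancel] at h2
    rw [inf_succ, mem_step] at h1
    rcases h1 with h1 | ⟨hb, h1⟩
    · exact absurd h1 h2
    · obtain ⟨u, hu1, hu2, hu3⟩ : ∃ u, u ∈ nbr v ∧ u ∈ inf r n A t ∧ u ∉ inf r n A (t - 1) := by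
        by_contra hcon
        push Not at hcon
        apply h2
        have e : t = (t - 1) + 1 := by omega
        rw [e, inf_succ, mem_step]
        right
        refine ⟨hb, h1.trans (Finset.card_le_card ?_)⟩
        intro u hu
        rw [Finset.mem_inter] at hu ⊢
        exact ⟨hu.1, hcon u hu.1 hu.2⟩
      obtain ⟨f, hf0, hf1, hf2⟩ := ih u hu2 hu3
      refine ⟨fun i => if i = t + 1 then v else f i, by simp, fun i hi hi' => ?_,
        fun i hi hi' => ?_⟩
      · by_cases hit : i = t + 1
        · subst hit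
          simp only [if_true]
          rw [inf_succ, mem_step, Nat.add_sub_cancel]
          exact ⟨Or.inr ⟨hb, h1⟩, h2⟩
        · simp only [if_neg hit]
          exact hf1 i hi (by omega)
      · have h3 : ¬ i = t + 1 := by omega
        simp only [if_neg h3]
        by_cases hit : i + 1 = t + 1
        · rw [if_pos hit]
          have : i = t := by omega
          rw [this, hf0]
          exact nbr_symm hu1
        · rw [if_neg hit]
          exact hf2 i hi (by omega)

theorem upper {n : ℕ} (hd : 1 ≤ d) {A : Finset (Fin d → ℤ)} (hA : A ⊆ box d n) {T : ℕ}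
    (hT : inf (2 * d - 1) n A T = box d n) (hmin : ∀ t < T, inf (2 * d - 1) n A t ≠ box d n) :
    (2 * d - 1) * T ≤ d * n ^ d + (d - 1) := by
  classical
  set r := 2 * d - 1 with hr
  rcases Nat.eq_zero_or_pos T with h0 | h0
  · rw [h0]; simp
  obtain ⟨v, hv1, hv2⟩ : ∃ v, v ∈ inf r n A T ∧ v ∉ inf r n A (T - 1) := by
    by_contra hcon
    push Not at hcon
    apply hmin (T - 1) (by omega)
    refine Finset.Subset.antisymm (inf_sub hA _) ?_
    rw [← hT]
    exact hcon
  obtain ⟨f, -, hf1, hf2⟩ := chain T h0 v hv1 hv2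
  have hK : ∀ i, 1 ≤ i → i < T → ∀ w ∈ nbr (f i), w ≠ f (i + 1) → w ∈ inf r n A (i - 1) := by
    intro i hi hiT w hw hwne
    by_contra hcon
    have h1 := (hf1 i hi hiT.le).1
    have h2 := (hf1 i hi hiT.le).2
    have e : i = (i - 1) + 1 := by omega
    rw [e, inf_succ, mem_step, ← e] at h1
    rcases h1 with h1 | ⟨-, h1⟩
    · exact h2 h1
    · have h3 : f (i + 1) ∉ inf r n A (i - 1) := fun h =>
        (hf1 (i + 1) (by omega) (by omega)).2 (inf_mono r n A (by omega) h)
      have h4 : nbr (f i) ∩ inf r n A (i - 1) ⊆ ((nbr (f i)).erase w).erase (f (i + 1)) := by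
        intro u hu
        rw [Finset.mem_inter] at hu
        rw [Finset.mem_erase, Finset.mem_erase]
        refine ⟨?_, ?_, hu.1⟩
        · rintro rfl; exact h3 hu.2
        · rintro rfl; exact hcon hu.2
      have h5 := Finset.card_le_card h4
      rw [Finset.card_erase_of_mem (Finset.mem_erase.mpr ⟨hwne.symm, hf2 i hi hiT⟩),
        Finset.card_erase_of_mem hw, nbr_card] at h5
      omega
  have hinj : Set.InjOn f (Finset.Icc 1 T : Finset ℕ) := by
    have key : ∀ i j, 1 ≤ i → i < j → j ≤ T → f i ≠ f j := by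
      intro i j hi hij hj h
      have h1 := (hf1 i hi (by omega)).1
      have h2 := (hf1 j (by omega) hj).2
      rw [← h] at h2
      exact h2 (inf_mono r n A (by omega) h1)
    intro i hi j hj hij
    simp only [Finset.coe_Icc, Set.mem_Icc] at hi hj
    rcases lt_trichotomy i j with h | h | h
    · exact absurd hij (key i j hi.1 h hj.2)
    · exact h
    · exact absurd hij.symm (key j i hj.1 h hi.2)
  set C := (Finset.Icc 1 T).image f with hC
  have hCcard : C.card = T := by
    rw [hC, Finset.card_image_of_injOn hinj, Nat.card_Icc]; omega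
  have hCbox : C ⊆ box d n := by
    intro w hw
    rw [hC, Finset.mem_image] at hw
    obtain ⟨i, hi, rfl⟩ := hw
    rw [Finset.mem_Icc] at hi
    exact inf_sub hA _ (hf1 i hi.1 hi.2).1
  set B := box d n \ C with hB
  have hBcard : B.card = n ^ d - T := by
    rw [hB, Finset.card_sdiff_of_subset hCbox, box_card, hCcard]
  have hTn : T ≤ n ^ d := by
    rw [← hCcard, ← box_card]
    exact Finset.card_le_card hCbox
  have hlow : ∀ i ∈ Finset.Icc 1 (T - 1), 2 * d - 2 ≤ (B.filter (fun w => w ∈ nbr (f i))).card := by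
    intro i hi
    rw [Finset.mem_Icc] at hi
    have h1 : ((nbr (f i)).erase (f (i + 1))).erase (f (i - 1)) ⊆
        B.filter (fun w => w ∈ nbr (f i)) := by
      intro w hw
      rw [Finset.mem_erase, Finset.mem_erase] at hw
      obtain ⟨w1, w2, w3⟩ := hw
      have h2 := hK i hi.1 (by omega) w w3 w2
      rw [Finset.mem_filter, hB, Finset.mem_sdiff]
      refine ⟨⟨inf_sub hA _ h2, fun hwC => ?_⟩, w3⟩
      rw [hC, Finset.mem_image] at hwC
      obtain ⟨j, hj, hjw⟩ := hwC
      rw [Finset.mem_Icc] at hj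
      have h3 : j < i := by
        by_contra hcon
        refine (hf1 j hj.1 hj.2).2 ?_
        rw [hjw]
        exact inf_mono r n A (by omega) h2
      have h4 : j ≠ i - 1 := by
        rintro rfl
        exact w1 hjw.symm
      have h5 : f i ∈ nbr (f j) := by
        rw [hjw]; exact nbr_symm w3
      have h6 : f i ≠ f (j + 1) := by
        intro h
        have h7 := (hf1 (j + 1) (by omega) (by omega)).1
        rw [← h] at h7
        exact (hf1 i hi.1 (by omega)).2 (inf_mono r n A (by omega) h7)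
      have h8 := hK j hj.1 (by omega) _ h5 h6
      exact (hf1 i hi.1 (by omega)).2 (inf_mono r n A (by omega) h8)
    have h2 := Finset.card_le_card h1
    have h3 := Finset.pred_card_le_card_erase (s := nbr (f i)) (a := f (i + 1))
    have h4 := Finset.pred_card_le_card_erase (s := (nbr (f i)).erase (f (i + 1)))
      (a := f (i - 1))
    have h5 := nbr_card (f i)
    omega
  have hup : ∀ w ∈ B, ((Finset.Icc 1 (T - 1)).filter (fun i => w ∈ nbr (f i))).card ≤ 2 * d := by
    intro w _
    rw [← nbr_card w]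
    refine Finset.card_le_card_of_injOn f ?_ ?_
    · intro i hi
      rw [Finset.coe_filter] at hi
      exact nbr_symm hi.2
    · refine hinj.mono ?_
      intro i hi
      rw [Finset.coe_filter] at hi
      have := hi.1
      rw [Finset.mem_Icc] at this
      rw [Finset.coe_Icc, Set.mem_Icc]
      omega
  have hdc := Finset.sum_card_bipartiteAbove_eq_sum_card_bipartiteBelow
    (s := Finset.Icc 1 (T - 1)) (t := B) (fun i w => w ∈ nbr (f i))
  unfold Finset.bipartiteAbove Finset.bipartiteBelow at hdc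
  have h1 : (T - 1) * (2 * d - 2) ≤
      ∑ i ∈ Finset.Icc 1 (T - 1), (B.filter (fun w => w ∈ nbr (f i))).card := by
    have := Finset.card_nsmul_le_sum (Finset.Icc 1 (T - 1)) _ (2 * d - 2) hlow
    rw [Nat.card_Icc, smul_eq_mul] at this
    simpa using this
  have h2 : ∑ w ∈ B, ((Finset.Icc 1 (T - 1)).filter (fun i => w ∈ nbr (f i))).card ≤
      B.card * (2 * d) := by
    have := Finset.sum_le_card_nsmul B _ (2 * d) hup
    rwa [smul_eq_mul] at this
  have h3 : (T - 1) * (2 * d - 2) ≤ B.card * (2 * d) := h1.trans (hdc.le.trans h2)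
  rw [hBcard] at h3
  obtain ⟨T', rfl⟩ : ∃ T', T = T' + 1 := ⟨T - 1, by omega⟩
  obtain ⟨e, rfl⟩ : ∃ e, d = e + 1 := ⟨d - 1, by omega⟩
  obtain ⟨m, hm⟩ : ∃ m, n ^ (e + 1) = T' + 1 + m := ⟨n ^ (e + 1) - (T' + 1), by omega⟩
  rw [hm] at h3 ⊢
  have e1 : T' + 1 - 1 = T' := rfl
  have e2 : 2 * (e + 1) - 2 = 2 * e := by omega
  have e3 : T' + 1 + m - (T' + 1) = m := by omega
  have e4 : 2 * (e + 1) - 1 = 2 * e + 1 := by omega
  rw [e1, e2, e3] at h3
  rw [hr, e4, Nat.add_sub_cancel]
  nlinarith

end H500G
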