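import Pool.Agent.H500R3.Boot.Gen

/-!
Long induced paths in the grid `[n]^d` and the lower bound for `r = 2d - 1`.
-/

namespace H500G

variable {d : ℕ}

lemma adj_irrefl (v : Fin d → ℤ) : ¬ adj v v := by
  rintro ⟨i, h, -⟩
  simp at h

/-- a set with a rank function -/
theorem of_rank {r n : ℕ} {P : Finset (Fin d → ℤ)} (hP : P ⊆ box d n) (ρ : (Fin d → ℤ) → ℤ)
    (h1 : ∀ v ∈ P, 1 ≤ ρ v)
    (h2 : ∀ v ∈ P, r ≤ ((nbr v).filter (fun u => u ∈ box d n ∧ (u ∈ P → ρ u < ρ v))).card)
    (h3 : ∀ v ∈ P, 2 ≤ ρ v →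
      ((nbr v).filter (fun u => u ∈ box d n ∧ (u ∈ P → ρ u + 1 < ρ v))).card < r) :
    (∃ s, inf r n (box d n \ P) s = box d n) ∧
      ∀ v ∈ P, ∀ t : ℕ, (t : ℤ) < ρ v → v ∉ inf r n (box d n \ P) t := by
  have hsub : box d n \ P ⊆ box d n := Finset.sdiff_subset
  have hslow : ∀ t : ℕ, ∀ v ∈ P, (t : ℤ) < ρ v → v ∉ inf r n (box d n \ P) t := by
    intro t
    induction t with
    | zero =>
      intro v hv _ hmem
      rw [inf_zero, Finset.mem_sdiff] at hmem
      exact hmem.2 hv
    | succ t ih =>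
      intro v hv ht hmem
      push_cast at ht
      rw [inf_succ, mem_step] at hmem
      rcases hmem with hmem | ⟨_, hmem⟩
      · exact ih v hv (by omega) hmem
      · have h4 := h3 v hv (by omega)
        have h5 : nbr v ∩ inf r n (box d n \ P) t ⊆
            (nbr v).filter (fun u => u ∈ box d n ∧ (u ∈ P → ρ u + 1 < ρ v)) := by
          intro u hu
          rw [Finset.mem_inter] at hu
          rw [Finset.mem_filter]
          refine ⟨hu.1, inf_sub hsub t hu.2, fun huP => ?_⟩
          by_contra hcon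
          exact ih u huP (by omega) hu.2
        have := Finset.card_le_card h5
        omega
  have hfast : ∀ k : ℕ, ∀ v ∈ P, ρ v ≤ k → v ∈ inf r n (box d n \ P) k := by
    intro k
    induction k with
    | zero =>
      intro v hv hk
      have := h1 v hv
      push_cast at hk
      omega
    | succ k ih =>
      intro v hv hk
      push_cast at hk
      rw [inf_succ, mem_step]
      right
      refine ⟨hP hv, (h2 v hv).trans (Finset.card_le_card ?_)⟩
      intro u hu
      rw [Finset.mem_filter] at hu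
      rw [Finset.mem_inter]
      refine ⟨hu.1, ?_⟩
      by_cases huP : u ∈ P
      · exact ih u huP (by have := hu.2.2 huP; omega)
      · exact inf_mono r n _ (Nat.zero_le k) (by
          rw [inf_zero, Finset.mem_sdiff]
          exact ⟨hu.2.1, huP⟩)
  refine ⟨?_, fun v hv t ht => hslow t v hv ht⟩
  obtain ⟨s, hs⟩ : ∃ s : ℕ, ∀ v ∈ P, ρ v ≤ s := by
    refine ⟨∑ v ∈ P, (ρ v).toNat, fun v hv => ?_⟩
    have := Finset.single_le_sum (f := fun v => (ρ v).toNat) (fun _ _ => Nat.zero_le _) hv
    omega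
  refine ⟨s, Finset.Subset.antisymm (inf_sub hsub s) fun v hv => ?_⟩
  by_cases hvP : v ∈ P
  · exact hfast s v hvP (hs v hvP)
  · exact inf_mono r n _ (Nat.zero_le s) (by
      rw [inf_zero, Finset.mem_sdiff]
      exact ⟨hv, hvP⟩)

/-- an induced path with `L` vertices in `[2, N]^d` -/
structure Sn (d : ℕ) (N L : ℤ) (P : (Fin d → ℤ) → Prop) (ρ : (Fin d → ℤ) → ℤ) : Prop where
  rng : ∀ v, P v → ∀ i, 2 ≤ v i ∧ v i ≤ N
  lo : ∀ v, P v → 1 ≤ ρ v ∧ ρ v ≤ L
  inj : ∀ u v, P u → P v → ρ u = ρ v → u = v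
  ad : ∀ u v, P u → P v → (adj u v ↔ |ρ u - ρ v| = 1)
  sur : ∀ k, 1 ≤ k → k ≤ L → ∃ v, P v ∧ ρ v = k

lemma nbr_box {n : ℕ} {N : ℤ} (hN : N + 1 ≤ n) {u v : Fin d → ℤ}
    (hv : ∀ i, 2 ≤ v i ∧ v i ≤ N) (h : adj u v) : u ∈ box d n := by
  rw [mem_box]
  obtain ⟨i, h1, h2⟩ := h
  intro j
  have h3 := hv j
  by_cases hj : j = i
  · subst hj
    rcases (abs_eq (by norm_num : (0 : ℤ) ≤ 1)).mp h1 with h | h <;> omega
  · rw [h2 j hj]; omega

theorem of_path {n : ℕ} {N L : ℤ} {P : (Fin d → ℤ) → Prop} {ρ : (Fin d → ℤ) → ℤ} (hd : 1 ≤ d)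
    (hL : 1 ≤ L) (hN : N + 1 ≤ n) (H : Sn d N L P ρ) {b : Fin d → ℤ} (hb : b ∈ box d n)
    (hbP : ¬ P b) (hb1 : ∀ v, P v → (adj b v ↔ ρ v = 1))
    (hb2 : ∃ c, adj c b ∧ c ∉ box d n ∧ ∀ u, adj u b → u ∉ box d n → u = c) :
    ∃ t ∈ times d (2 * d - 1) n, L + 1 ≤ (t : ℤ) := by
  classical
  set Pf := (box d n).filter (fun v => P v ∨ v = b) with hPf
  set ρf : (Fin d → ℤ) → ℤ := fun v => if v = b then L + 1 else L + 1 - ρ v with hρf
  have hPbox : ∀ v, P v → v ∈ box d n := by
    intro v hv
    rw [mem_box]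
    intro i
    have := H.rng v hv i
    omega
  have hmem : ∀ v, v ∈ Pf ↔ P v ∨ v = b := by
    intro v
    rw [hPf, Finset.mem_filter]
    refine ⟨fun h => h.2, fun h => ⟨?_, h⟩⟩
    rcases h with h | h
    · exact hPbox v h
    · rw [h]; exact hb
  have hne : ∀ v, P v → v ≠ b := by
    rintro v hv rfl; exact hbP hv
  have r1 : ρf b = L + 1 := by rw [hρf]; simp
  have r2 : ∀ v, P v → ρf v = L + 1 - ρ v := by
    intro v hv; rw [hρf]; simp [hne v hv]
  have main := of_rank (r := 2 * d - 1) (n := n) (P := Pf) (Finset.filter_subset _ _) ρf ?_ ?_ ?_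
  · obtain ⟨h1, h2⟩ := main
    refine ⟨Nat.find h1, ⟨_, Finset.sdiff_subset, Nat.find_spec h1,
      fun s hs => Nat.find_min h1 hs⟩, ?_⟩
    by_contra hcon
    push Not at hcon
    refine h2 b ((hmem b).mpr (Or.inr rfl)) (Nat.find h1) (by rw [r1]; exact hcon) ?_
    rw [Nat.find_spec h1]
    exact hb
  · intro v hv
    rw [hmem] at hv
    rcases hv with hv | rfl
    · rw [r2 v hv]; have := H.lo v hv; omega
    · rw [r1]; omega
  · intro v hv
    rw [hmem] at hv
    have hc := card_bad v (fun u => u ∈ box d n ∧ (u ∈ Pf → ρf u < ρf v))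
    have hone : ((nbr v).filter (fun u => ¬ (u ∈ box d n ∧ (u ∈ Pf → ρf u < ρf v)))).card ≤ 1 := by
      rw [Finset.card_le_one]
      rcases hv with hv | rfl
      · have key : ∀ u, u ∈ (nbr v).filter
            (fun u => ¬ (u ∈ box d n ∧ (u ∈ Pf → ρf u < ρf v))) →
            (u = b ∧ ρ v = 1) ∨ (P u ∧ ρ u = ρ v - 1) := by
          intro u hu
          rw [Finset.mem_filter, mem_nbr] at hu
          obtain ⟨hu1, hu2⟩ := hu
          have hub := nbr_box hN (H.rng v hv) hu1
          have hu3 : u ∈ Pf ∧ ρf v ≤ ρf u := by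
            by_contra hcon
            apply hu2
            refine ⟨hub, fun h => ?_⟩
            by_contra h'
            exact hcon ⟨h, by omega⟩
          rcases (hmem u).mp hu3.1 with h | h
          · right
            refine ⟨h, ?_⟩
            have h5 := (H.ad u v h hv).mp hu1
            have h6 := hu3.2
            rw [r2 u h, r2 v hv] at h6
            rcases (abs_eq (by norm_num : (0 : ℤ) ≤ 1)).mp h5 with h7 | h7 <;> omega
          · left
            refine ⟨h, ?_⟩
            rw [h] at hu1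
            exact (hb1 v hv).mp hu1
        intro u hu w hw
        rcases key u hu with ⟨a1, a2⟩ | ⟨a1, a2⟩ <;> rcases key w hw with ⟨c1, c2⟩ | ⟨c1, c2⟩
        · rw [a1, c1]
        · have := H.lo w c1; omega
        · have := H.lo u a1; omega
        · exact H.inj u w a1 c1 (by omega)
      · obtain ⟨c, hc1, hc2, hc3⟩ := hb2
        have key : ∀ u, u ∈ (nbr v).filter
            (fun u => ¬ (u ∈ box d n ∧ (u ∈ Pf → ρf u < ρf v))) → u = c := by
          intro u hu
          rw [Finset.mem_filter, mem_nbr] at hu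
          obtain ⟨hu1, hu2⟩ := hu
          apply hc3 u hu1
          intro hub
          apply hu2
          refine ⟨hub, fun h => ?_⟩
          rcases (hmem u).mp h with h | h
          · have := H.lo u h
            rw [r2 u h, r1]; omega
          · rw [h] at hu1
            exact absurd hu1 (adj_irrefl _)
        intro u hu w hw
        rw [key u hu, key w hw]
    omega
  · intro v hv hrk
    rw [hmem] at hv
    have hc := card_bad v (fun u => u ∈ box d n ∧ (u ∈ Pf → ρf u + 1 < ρf v))
    have htwo : 1 < ((nbr v).filter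
        (fun u => ¬ (u ∈ box d n ∧ (u ∈ Pf → ρf u + 1 < ρf v)))).card := by
      rw [Finset.one_lt_card]
      rcases hv with hv | rfl
      · rw [r2 v hv] at hrk
        obtain ⟨u, hu1, hu2⟩ := H.sur (ρ v + 1) (by have := H.lo v hv; omega) (by omega)
        have hau : adj u v := (H.ad u v hu1 hv).mpr (by rw [hu2]; simp)
        have hbu : u ∈ (nbr v).filter
            (fun u => ¬ (u ∈ box d n ∧ (u ∈ Pf → ρf u + 1 < ρf v))) := by
          rw [Finset.mem_filter, mem_nbr]
          refine ⟨hau, fun h => ?_⟩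
          have := h.2 ((hmem u).mpr (Or.inl hu1))
          rw [r2 u hu1, r2 v hv] at this
          omega
        by_cases h1 : ρ v = 1
        · refine ⟨u, hbu, b, ?_, hne u hu1⟩
          rw [Finset.mem_filter, mem_nbr]
          refine ⟨(hb1 v hv).mpr h1, fun h => ?_⟩
          have := h.2 ((hmem b).mpr (Or.inr rfl))
          rw [r1, r2 v hv] at this
          omega
        · obtain ⟨w, hw1, hw2⟩ := H.sur (ρ v - 1) (by have := H.lo v hv; omega)
            (by have := H.lo v hv; omega)
          have haw : adj w v := (H.ad w v hw1 hv).mpr (by rw [hw2]; simp)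
          refine ⟨u, hbu, w, ?_, ?_⟩
          · rw [Finset.mem_filter, mem_nbr]
            refine ⟨haw, fun h => ?_⟩
            have := h.2 ((hmem w).mpr (Or.inl hw1))
            rw [r2 w hw1, r2 v hv] at this
            omega
          · rintro rfl
            omega
      · obtain ⟨c, hc1, hc2, hc3⟩ := hb2
        obtain ⟨u, hu1, hu2⟩ := H.sur 1 le_rfl hL
        refine ⟨c, ?_, u, ?_, ?_⟩
        · rw [Finset.mem_filter, mem_nbr]
          exact ⟨hc1, fun h => hc2 h.1⟩
        · rw [Finset.mem_filter, mem_nbr]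
          refine ⟨adj_symm ((hb1 u hu1).mpr hu2), fun h => ?_⟩
          have := h.2 ((hmem u).mpr (Or.inl hu1))
          rw [r2 u hu1, r1] at this
          omega
        · rintro rfl
          exact hc2 (hPbox _ hu1)
    omega

/-- adjacency, last coordinate separated -/
lemma adj_split {u v : Fin (d + 1) → ℤ} : adj u v ↔
    (adj (Fin.init u) (Fin.init v) ∧ u (Fin.last d) = v (Fin.last d)) ∨
    (Fin.init u = Fin.init v ∧ |u (Fin.last d) - v (Fin.last d)| = 1) := by
  constructor
  · rintro ⟨i, h1, h2⟩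
    induction i using Fin.lastCases with
    | last =>
      right
      refine ⟨?_, h1⟩
      funext j
      exact h2 j.castSucc (Fin.castSucc_lt_last j).ne
    | cast i =>
      left
      refine ⟨⟨i, h1, fun j hj => ?_⟩, h2 _ (Fin.castSucc_lt_last i).ne'⟩
      exact h2 j.castSucc (fun h => hj (Fin.castSucc_injective d h))
  · rintro (⟨⟨i, h1, h2⟩, h3⟩ | ⟨h1, h2⟩)
    · refine ⟨i.castSucc, h1, fun j hj => ?_⟩
      induction j using Fin.lastCases with
      | last => exact h3
      | cast j => exact h2 j (fun h => hj (by rw [h]))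
    · refine ⟨Fin.last d, h2, fun j hj => ?_⟩
      induction j using Fin.lastCases with
      | last => exact absurd rfl hj
      | cast j => exact congrFun h1 j

lemma ext_split {u v : Fin (d + 1) → ℤ} (h1 : Fin.init u = Fin.init v)
    (h2 : u (Fin.last d) = v (Fin.last d)) : u = v := by
  funext j
  induction j using Fin.lastCases with
  | last => exact h2
  | cast j => exact congrFun h1 j

theorem base (N : ℤ) : Sn 0 N 1 (fun _ => True) (fun _ => 1) where
  rng := fun _ _ i => i.elim0
  lo := fun _ _ => ⟨le_rfl, le_rfl⟩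
  inj := fun u v _ _ _ => Subsingleton.elim u v
  ad := fun u v _ _ => ⟨fun ⟨i, _⟩ => i.elim0, fun h => by simp at h⟩
  sur := fun k h1 h2 => ⟨fun i => i.elim0, trivial, by omega⟩

theorem step_up {N L : ℤ} {P : (Fin d → ℤ) → Prop} {ρ : (Fin d → ℤ) → ℤ} (hL : 1 ≤ L)
    (H : Sn d N L P ρ) {K : ℤ} (hK : 0 ≤ K) (hKN : 2 * K + 2 ≤ N) :
    ∃ P' ρ', Sn (d + 1) N ((K + 1) * (L + 1) - 1) P' ρ' ∧
      ∃ s, P' s ∧ ρ' s = 1 ∧ s (Fin.last d) = 2 := by
  obtain ⟨s, hs1, hs2⟩ := H.sur 1 le_rfl hL
  obtain ⟨e, he1, he2⟩ := H.sur L hL le_rfl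
  set c : ℤ → (Fin d → ℤ) := fun k => if k % 2 = 0 then e else s with hc
  set σ : ℤ → (Fin d → ℤ) → ℤ := fun k w => if k % 2 = 0 then ρ w else L + 1 - ρ w with hσ
  set P' : (Fin (d + 1) → ℤ) → Prop := fun v => ∃ k, 0 ≤ k ∧
    ((k ≤ K ∧ v (Fin.last d) = 2 * k + 2 ∧ P (Fin.init v)) ∨
     (k < K ∧ v (Fin.last d) = 2 * k + 3 ∧ Fin.init v = c k)) with hP'
  set ρ' : (Fin (d + 1) → ℤ) → ℤ := fun v =>
    if v (Fin.last d) % 2 = 0 then
      ((v (Fin.last d) - 2) / 2) * (L + 1) + σ ((v (Fin.last d) - 2) / 2) (Fin.init v)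
    else ((v (Fin.last d) - 3) / 2 + 1) * (L + 1) with hρ'
  have hcP : ∀ k, P (c k) := by
    intro k; rw [hc]; simp only; split_ifs
    · exact he1
    · exact hs1
  have hσr : ∀ k w, P w → 1 ≤ σ k w ∧ σ k w ≤ L := by
    intro k w hw
    have := H.lo w hw
    rw [hσ]; simp only; split_ifs <;> omega
  have hσi : ∀ k w w', P w → P w' → σ k w = σ k w' → w = w' := by
    intro k w w' hw hw' h
    apply H.inj w w' hw hw'
    rw [hσ] at h
    simp only at h
    split_ifs at h <;> omega
  have hσa : ∀ k w w', P w → P w' → (adj w w' ↔ |σ k w - σ k w'| = 1) := by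
    intro k w w' hw hw'
    rw [H.ad w w' hw hw', hσ]
    simp only
    split_ifs
    · rfl
    · have : L + 1 - ρ w - (L + 1 - ρ w') = -(ρ w - ρ w') := by ring
      rw [this, abs_neg]
  have hσL : ∀ k w, P w → (w = c k ↔ σ k w = L) := by
    intro k w hw
    rw [hc, hσ]
    simp only
    split_ifs
    · exact ⟨fun h => by rw [h, he2], fun h => H.inj _ _ hw he1 (by omega)⟩
    · exact ⟨fun h => by rw [h, hs2]; omega, fun h => H.inj _ _ hw hs1 (by omega)⟩
  have hσ1 : ∀ k w, P w → (w = c k ↔ σ (k + 1) w = 1) := by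
    intro k w hw
    rw [hc, hσ]
    simp only
    rcases Int.emod_two_eq_zero_or_one k with h0 | h0
    · have h1 : ¬ (k + 1) % 2 = 0 := by omega
      rw [if_pos h0, if_neg h1]
      exact ⟨fun h => by rw [h, he2]; omega, fun h => H.inj _ _ hw he1 (by omega)⟩
    · have h1 : (k + 1) % 2 = 0 := by omega
      have h2 : ¬ k % 2 = 0 := by omega
      rw [if_neg h2, if_pos h1]
      exact ⟨fun h => by rw [h, hs2], fun h => H.inj _ _ hw hs1 (by omega)⟩
  have re : ∀ v k, v (Fin.last d) = 2 * k + 2 → ρ' v = k * (L + 1) + σ k (Fin.init v) := by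
    intro v k hv
    rw [hρ']
    simp only
    rw [if_pos (by omega)]
    have : (v (Fin.last d) - 2) / 2 = k := by omega
    rw [this]
  have ro : ∀ v k, v (Fin.last d) = 2 * k + 3 → ρ' v = k * (L + 1) + (L + 1) := by
    intro v k hv
    rw [hρ']
    simp only
    rw [if_neg (by omega)]
    have : (v (Fin.last d) - 3) / 2 = k := by omega
    rw [this]
    ring
  have mul_lt : ∀ k k' : ℤ, k < k' → k * (L + 1) + (L + 1) ≤ k' * (L + 1) := by
    intro k k' h
    nlinarith
  have mul_lt2 : ∀ k k' : ℤ, k + 1 < k' → k * (L + 1) + 2 * (L + 1) ≤ k' * (L + 1) := by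
    intro k k' h
    nlinarith
  have abs1 : ∀ x : ℤ, |x| = 1 ↔ x = 1 ∨ x = -1 := fun x => abs_eq (by norm_num)
  refine ⟨P', ρ', ⟨?_, ?_, ?_, ?_, ?_⟩, ?_⟩
  · -- range
    rintro v ⟨k, hk, h⟩ i
    induction i using Fin.lastCases with
    | last => rcases h with ⟨h1, h2, -⟩ | ⟨h1, h2, -⟩ <;> omega
    | cast i =>
      rcases h with ⟨-, -, h3⟩ | ⟨-, -, h3⟩
      · exact H.rng _ h3 i
      · have := H.rng _ (hcP k) i
        rw [← h3] at this
        exact this
  · -- values
    rintro v ⟨k, hk, ⟨h1, h2, h3⟩ | ⟨h1, h2, h3⟩⟩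
    · rw [re v k h2]
      have h4 := hσr k _ h3
      have h5 : 0 ≤ k * (L + 1) := by positivity
      have h6 : k * (L + 1) ≤ K * (L + 1) := mul_le_mul_of_nonneg_right h1 (by omega)
      have h7 : (K + 1) * (L + 1) = K * (L + 1) + (L + 1) := by ring
      omega
    · rw [ro v k h2]
      have h5 : 0 ≤ k * (L + 1) := by positivity
      have h6 := mul_lt k K h1
      have h7 : (K + 1) * (L + 1) = K * (L + 1) + (L + 1) := by ring
      omega
  · -- injectivity
    rintro u v ⟨k, hk, ⟨h1, h2, h3⟩ | ⟨h1, h2, h3⟩⟩ ⟨k', hk', ⟨g1, g2, g3⟩ | ⟨g1, g2, g3⟩⟩ he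
    · rw [re u k h2, re v k' g2] at he
      have a1 := hσr k _ h3
      have a2 := hσr k' _ g3
      rcases lt_trichotomy k k' with h | h | h
      · have := mul_lt k k' h; omega
      · subst h
        exact ext_split (hσi k _ _ h3 g3 (by omega)) (by omega)
      · have := mul_lt k' k h; omega
    · rw [re u k h2, ro v k' g2] at he
      have a1 := hσr k _ h3
      rcases lt_trichotomy k k' with h | h | h
      · have := mul_lt k k' h; omega
      · subst h; omega
      · have := mul_lt k' k h; omega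
    · rw [ro u k h2, re v k' g2] at he
      have a1 := hσr k' _ g3
      rcases lt_trichotomy k k' with h | h | h
      · have := mul_lt k k' h; omega
      · subst h; omega
      · have := mul_lt k' k h; omega
    · rw [ro u k h2, ro v k' g2] at he
      rcases lt_trichotomy k k' with h | h | h
      · have := mul_lt k k' h; omega
      · subst h
        exact ext_split (by rw [h3, g3]) (by omega)
      · have := mul_lt k' k h; omega
  · -- adjacency
    have mixed : ∀ u v k k', 0 ≤ k → 0 ≤ k' → k ≤ K → u (Fin.last d) = 2 * k + 2 →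
        P (Fin.init u) → v (Fin.last d) = 2 * k' + 3 → Fin.init v = c k' →
        (adj u v ↔ |ρ' u - ρ' v| = 1) := by
      intro u v k k' hk hk' h1 h2 h3 g2 g3
      rw [adj_split, re u k h2, ro v k' g2]
      have a1 := hσr k _ h3
      constructor
      · rintro (⟨-, q⟩ | ⟨q1, q2⟩)
        · omega
        · rw [abs1] at q2 ⊢
          rw [g3] at q1
          rcases q2 with q2 | q2
          · have : k = k' + 1 := by omega
            subst this
            have := (hσ1 k' _ h3).mp q1
            rw [this]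
            have e7 : (k' + 1) * (L + 1) = k' * (L + 1) + (L + 1) := by ring
            omega
          · have : k = k' := by omega
            subst this
            have := (hσL k _ h3).mp q1
            omega
      · intro q
        rw [abs1] at q
        right
        rcases lt_trichotomy k k' with h | h | h
        · have := mul_lt k k' h; omega
        · subst h
          have q1 := (hσL k _ h3).mpr (by omega)
          exact ⟨by rw [q1, g3], by rw [abs1]; omega⟩
        · rcases lt_or_eq_of_le (show k' + 1 ≤ k by omega) with h' | h'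
          · have := mul_lt2 k' k h'; omega
          · subst h'
            have e7 : (k' + 1) * (L + 1) = k' * (L + 1) + (L + 1) := by ring
            have q1 := (hσ1 k' _ h3).mpr (by omega)
            exact ⟨by rw [q1, g3], by rw [abs1]; omega⟩
    rintro u v ⟨k, hk, ⟨h1, h2, h3⟩ | ⟨h1, h2, h3⟩⟩ ⟨k', hk', ⟨g1, g2, g3⟩ | ⟨g1, g2, g3⟩⟩
    · rw [adj_split, re u k h2, re v k' g2]
      have a1 := hσr k _ h3
      have a2 := hσr k' _ g3
      constructor
      · rintro (⟨q1, q2⟩ | ⟨q1, q2⟩)
        · have : k = k' := by omega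
          subst this
          have := (hσa k _ _ h3 g3).mp q1
          have e7 : k * (L + 1) + σ k (Fin.init u) - (k * (L + 1) + σ k (Fin.init v)) =
            σ k (Fin.init u) - σ k (Fin.init v) := by ring
          rw [e7]; exact this
        · rw [abs1] at q2; omega
      · intro q
        left
        rcases lt_trichotomy k k' with h | h | h
        · have := mul_lt k k' h
          rw [abs1] at q; omega
        · subst h
          refine ⟨(hσa k _ _ h3 g3).mpr ?_, by omega⟩
          have e7 : k * (L + 1) + σ k (Fin.init u) - (k * (L + 1) + σ k (Fin.init v)) =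
            σ k (Fin.init u) - σ k (Fin.init v) := by ring
          rwa [e7] at q
        · have := mul_lt k' k h
          rw [abs1] at q; omega
    · exact mixed u v k k' hk hk' h1 h2 h3 g2 g3
    · have := mixed v u k' k hk' hk g1 g2 g3 h2 h3
      rw [abs_sub_comm, ← this]
      exact ⟨adj_symm, adj_symm⟩
    · rw [adj_split, ro u k h2, ro v k' g2]
      constructor
      · rintro (⟨q1, q2⟩ | ⟨q1, q2⟩)
        · have : k = k' := by omega
          subst this
          rw [h3, g3] at q1
          exact absurd q1 (adj_irrefl _)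
        · rw [abs1] at q2; omega
      · intro q
        rw [abs1] at q
        exfalso
        rcases lt_trichotomy k k' with h | h | h
        · have := mul_lt k k' h; omega
        · subst h; omega
        · have := mul_lt k' k h; omega
  · -- surjectivity
    intro j hj1 hj2
    obtain ⟨k, hk⟩ : ∃ k, k = j / (L + 1) := ⟨_, rfl⟩
    obtain ⟨m, hm⟩ : ∃ m, m = j % (L + 1) := ⟨_, rfl⟩
    have hM : (0 : ℤ) < L + 1 := by omega
    have e1 : j = k * (L + 1) + m := by
      rw [hk, hm, mul_comm]; exact (Int.mul_ediv_add_emod j (L + 1)).symm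
    have e2 : 0 ≤ m := by rw [hm]; exact Int.emod_nonneg _ hM.ne'
    have e3 : m < L + 1 := by rw [hm]; exact Int.emod_lt_of_pos _ hM
    have e4 : 0 ≤ k := by rw [hk]; exact Int.ediv_nonneg (by omega) hM.le
    have e5 : k ≤ K := by
      by_contra hcon
      have := mul_lt K k (by omega)
      have h7 : (K + 1) * (L + 1) = K * (L + 1) + (L + 1) := by ring
      omega
    rcases eq_or_lt_of_le e2 with h | h
    · have hk1 : 1 ≤ k := by
        by_contra hcon
        have : k = 0 := by omega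
        rw [this, ← h] at e1
        omega
      refine ⟨Fin.snoc (α := fun _ => ℤ) (c (k - 1)) (2 * (k - 1) + 3), ⟨k - 1, by omega,
        Or.inr ⟨by omega, by rw [Fin.snoc_last], by rw [Fin.init_snoc]⟩⟩, ?_⟩
      rw [ro _ (k - 1) (by rw [Fin.snoc_last]), e1, ← h]
      ring
    · obtain ⟨w, hw1, hw2⟩ : ∃ w, P w ∧ σ k w = m := by
        rw [hσ]
        simp only
        split_ifs
        · exact H.sur m (by omega) (by omega)
        · obtain ⟨w, hw1, hw2⟩ := H.sur (L + 1 - m) (by omega) (by omega)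
          exact ⟨w, hw1, by omega⟩
      refine ⟨Fin.snoc (α := fun _ => ℤ) w (2 * k + 2), ⟨k, e4,
        Or.inl ⟨e5, by rw [Fin.snoc_last], by rw [Fin.init_snoc]; exact hw1⟩⟩, ?_⟩
      rw [re _ k (by rw [Fin.snoc_last]), Fin.init_snoc, hw2, e1]
  · refine ⟨Fin.snoc (α := fun _ => ℤ) s 2, ⟨0, le_rfl,
      Or.inl ⟨hK, by rw [Fin.snoc_last]; norm_num, by rw [Fin.init_snoc]; exact hs1⟩⟩, ?_,
      by rw [Fin.snoc_last]⟩
    rw [re _ 0 (by rw [Fin.snoc_last]; norm_num), Fin.init_snoc, hσ]
    simp [hs2]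

theorem snakes {N K : ℤ} (hK : 0 ≤ K) (hKN : 2 * K + 2 ≤ N) : ∀ d : ℕ,
    ∃ P ρ, Sn d N (2 * (K + 1) ^ d - 1) P ρ := by
  intro d
  induction d with
  | zero =>
    refine ⟨fun _ => True, fun _ => 1, ?_⟩
    have e : (2 * (K + 1) ^ 0 - 1 : ℤ) = 1 := by norm_num
    rw [e]
    exact base N
  | succ d ih =>
    obtain ⟨P, ρ, H⟩ := ih
    have h1 : (1 : ℤ) ≤ (K + 1) ^ d := one_le_pow₀ (by omega)
    obtain ⟨P', ρ', H', -⟩ := step_up (by omega) H hK hKN
    refine ⟨P', ρ', ?_⟩
    have e : (K + 1) * (2 * (K + 1) ^ d - 1 + 1) - 1 = 2 * (K + 1) ^ (d + 1) - 1 := by ring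
    rwa [e] at H'

theorem lower {n : ℕ} (hn : 3 ≤ n) (d : ℕ) : ∃ t ∈ times (d + 1) (2 * (d + 1) - 1) n,
    2 * ((n - 1) / 2) ^ (d + 1) ≤ t := by
  obtain ⟨K, hK⟩ : ∃ K : ℤ, K = (((n - 1) / 2 : ℕ) : ℤ) - 1 := ⟨_, rfl⟩
  have hK0 : 0 ≤ K := by omega
  have hKN : 2 * K + 2 ≤ (n : ℤ) - 1 := by omega
  obtain ⟨P, ρ, H⟩ := snakes hK0 hKN d
  have h1 : (1 : ℤ) ≤ (K + 1) ^ d := one_le_pow₀ (by omega)
  obtain ⟨P', ρ', H', s, hs1, hs2, hs3⟩ := step_up (by omega) H hK0 hKN
  have e : (K + 1) * (2 * (K + 1) ^ d - 1 + 1) - 1 = 2 * (K + 1) ^ (d + 1) - 1 := by ring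
  rw [e] at H'
  have h2 : (1 : ℤ) ≤ (K + 1) ^ (d + 1) := one_le_pow₀ (by omega)
  have hsr := H'.rng s hs1
  have g1 : (Fin.snoc (α := fun _ => ℤ) (Fin.init s) 1 : Fin (d + 1) → ℤ) ∈ box (d + 1) n := by
    rw [mem_box]
    intro i
    induction i using Fin.lastCases with
    | last => rw [Fin.snoc_last]; omega
    | cast i =>
      rw [Fin.snoc_castSucc]
      have := hsr i.castSucc
      change 1 ≤ s i.castSucc ∧ s i.castSucc ≤ n
      omega
  have g2 : ¬ P' (Fin.snoc (α := fun _ => ℤ) (Fin.init s) 1) := by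
    intro h
    have := (H'.rng _ h (Fin.last d)).1
    rw [Fin.snoc_last] at this
    omega
  have g3 : ∀ v, P' v → (adj (Fin.snoc (α := fun _ => ℤ) (Fin.init s) 1) v ↔ ρ' v = 1) := by
    intro v hv
    rw [adj_split, Fin.init_snoc, Fin.snoc_last]
    have hv2 := (H'.rng _ hv (Fin.last d)).1
    constructor
    · rintro (⟨-, q⟩ | ⟨q1, q2⟩)
      · omega
      · rw [abs_eq (by norm_num)] at q2
        have : v = s := ext_split q1.symm (by omega)
        rw [this, hs2]
    · intro h
      have : v = s := H'.inj v s hv hs1 (by omega)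
      right
      rw [this, hs3]
      exact ⟨rfl, by norm_num⟩
  have g4 : ∃ c, adj c (Fin.snoc (α := fun _ => ℤ) (Fin.init s) 1 : Fin (d + 1) → ℤ) ∧
      c ∉ box (d + 1) n ∧ ∀ u, adj u (Fin.snoc (α := fun _ => ℤ) (Fin.init s) 1) →
        u ∉ box (d + 1) n → u = c := by
    refine ⟨Fin.snoc (α := fun _ => ℤ) (Fin.init s) 0, ?_, ?_, ?_⟩
    · rw [adj_split]
      right
      rw [Fin.init_snoc, Fin.init_snoc, Fin.snoc_last, Fin.snoc_last]
      exact ⟨rfl, by norm_num⟩
    · intro h
      rw [mem_box] at h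
      have := (h (Fin.last d)).1
      rw [Fin.snoc_last] at this
      omega
    · intro u hu hub
      rw [adj_split, Fin.init_snoc, Fin.snoc_last] at hu
      rcases hu with ⟨q1, q2⟩ | ⟨q1, q2⟩
      · exfalso
        apply hub
        rw [mem_box]
        intro i
        induction i using Fin.lastCases with
        | last => omega
        | cast i =>
          have h5 := nbr_box (n := n) (N := (n : ℤ) - 1) (by omega)
            (fun i => hsr i.castSucc) q1
          rw [mem_box] at h5
          exact h5 i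
      · rw [abs_eq (by norm_num)] at q2
        rcases q2 with q2 | q2
        · exfalso
          apply hub
          rw [mem_box]
          intro i
          induction i using Fin.lastCases with
          | last => omega
          | cast i =>
            have h5 := hsr i.castSucc
            have h6 := congrFun q1 i
            change u i.castSucc = s i.castSucc at h6
            rw [h6]
            omega
        · refine ext_split ?_ ?_
          · rw [Fin.init_snoc]; exact q1
          · rw [Fin.snoc_last]; omega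
  obtain ⟨t, ht, h3⟩ := of_path (n := n) (by omega) (by omega) (by omega) H' g1 g2 g3 g4
  refine ⟨t, ht, ?_⟩
  have h4 : (K + 1) = (((n - 1) / 2 : ℕ) : ℤ) := by omega
  rw [h4] at h3
  have h5 : (2 * (((n - 1) / 2 : ℕ) : ℤ) ^ (d + 1)) ≤ t := by omega
  exact_mod_cast h5

lemma times_le {d n t : ℕ} (hd : 1 ≤ d) (h : t ∈ times d (2 * d - 1) n) :
    (2 * d - 1) * t ≤ d * n ^ d + (d - 1) := by
  obtain ⟨A, h1, h2, h3⟩ := h
  exact upper hd h1 h2 h3

lemma times_bdd {d : ℕ} (hd : 1 ≤ d) (n : ℕ) : BddAbove (times d (2 * d - 1) n) :=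
  ⟨d * n ^ d + (d - 1), fun t ht => by
    have h1 := times_le hd ht
    have h2 : 1 * t ≤ (2 * d - 1) * t := Nat.mul_le_mul_right t (by omega)
    omega⟩

lemma times_ne (d r n : ℕ) : (times d r n).Nonempty :=
  ⟨0, box d n, subset_rfl, rfl, fun s hs => by omega⟩

/-- the two-sided bound for `r = 2d - 1` -/
theorem bounds {d : ℕ} (hd : 1 ≤ d) (n : ℕ) (hn : 3 ≤ n) :
    2 * ((n - 1) / 2) ^ d ≤ M d (2 * d - 1) n ∧
    (2 * d - 1) * M d (2 * d - 1) n ≤ d * n ^ d + (d - 1) := by
  obtain ⟨e, rfl⟩ : ∃ e, d = e + 1 := ⟨d - 1, by omega⟩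
  refine ⟨?_, times_le hd (Nat.sSup_mem (times_ne _ _ _) (times_bdd hd n))⟩
  obtain ⟨t, ht, h1⟩ := lower hn e
  exact h1.trans (le_csSup (times_bdd hd n) ht)

end H500G
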