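import Mathlib

/-!
The snake: local structure in the coordinates `D = x - y`, `p = x + y`.
-/

namespace H500B

/-- index of the staircase -/
def sf (D : ℤ) : ℤ := (D - 1) / 3

/-- the lower half of the snake -/
def Q (S D p : ℤ) : Prop :=
  1 ≤ D ∧ sf D ≤ S ∧ (p - D) % 2 = 0 ∧
    ((sf D % 2 = 0 ∧ ((D = 3 * sf D + 3 ∧ p = 3 * sf D + 5) ∨
        (D ≤ 3 * sf D + 2 ∧ 3 * sf D + 6 ≤ p ∧ p ≤ 6 * S + 7 - 3 * sf D))) ∨
     (sf D % 2 = 1 ∧ ((D = 3 * sf D + 3 ∧ p = 6 * S + 5 - 3 * sf D) ∨
        (D ≤ 3 * sf D + 2 ∧ 3 * sf D + 3 ≤ p ∧ p ≤ 6 * S + 4 - 3 * sf D))))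

/-- the position on the snake -/
def R (S D p : ℤ) : ℤ :=
  3 * (S - sf D) ^ 2 + (if sf D % 2 = 0 then p - 3 * sf D - 4 else 6 * S + 6 - 3 * sf D - p)

/-- a step -/
def pm (a : ℤ) : Prop := a = 1 ∨ a = -1

/-- local structure: `(a, b)` leads to the successor, `(a', b')` to the predecessor -/
def Loc (S D p a b a' b' : ℤ) : Prop :=
  pm a ∧ pm b ∧ pm a' ∧ pm b' ∧ ¬ (a = a' ∧ b = b') ∧
  ((Q S (D + a) (p + b) ∧ R S (D + a) (p + b) = R S D p + 1) ∨
    (D + a = 0 ∧ p + b = 6 * S + 8 ∧ R S D p = 3 * (S + 1) ^ 2)) ∧
  ((Q S (D + a') (p + b') ∧ R S (D + a') (p + b') = R S D p - 1) ∨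
    (D + a' = 3 * S + 4 ∧ p + b' = 3 * S + 4 ∧ R S D p = 1)) ∧
  (∀ c d : ℤ, pm c → pm d → ¬ (c = a ∧ d = b) → ¬ (c = a' ∧ d = b') →
    ¬ Q S (D + c) (p + d) ∧ ¬ (D + c = 0 ∧ p + d = 6 * S + 8) ∧
      ¬ (D + c = 3 * S + 4 ∧ p + d = 3 * S + 4))

lemma same_R {S D D' p p' e : ℤ} (h : sf D' = sf D)
    (h1 : sf D % 2 = 0 → p' - p = e) (h2 : sf D % 2 ≠ 0 → p - p' = e) :
    R S D' p' = R S D p + e := by
  unfold R
  rw [h]
  split_ifs with h0
  · have := h1 h0
    linarith
  · have := h2 h0
    linarith

lemma up_R {S D D' p p' e : ℤ} (h : sf D' = sf D - 1)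
    (h1 : sf D % 2 = 0 → 6 * (S - sf D) + 3 + (6 * S + 6 - 3 * (sf D - 1) - p') =
      p - 3 * sf D - 4 + e)
    (h2 : sf D % 2 = 1 → 6 * (S - sf D) + 3 + (p' - 3 * (sf D - 1) - 4) =
      6 * S + 6 - 3 * sf D - p + e) :
    R S D' p' = R S D p + e := by
  unfold R
  rw [h]
  have e1 : (S - (sf D - 1)) ^ 2 = (S - sf D) ^ 2 + 2 * (S - sf D) + 1 := by ring
  rw [e1]
  rcases Int.emod_two_eq_zero_or_one (sf D) with h0 | h0
  · have h3 : ¬ (sf D - 1) % 2 = 0 := by omega
    rw [if_neg h3, if_pos h0]
    have := h1 h0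
    linarith
  · have h3 : (sf D - 1) % 2 = 0 := by omega
    have h4 : ¬ sf D % 2 = 0 := by omega
    rw [if_pos h3, if_neg h4]
    have := h2 h0
    linarith

lemma pm1 : pm 1 := Or.inl rfl
lemma pm2 : pm (-1) := Or.inr rfl

theorem loc {S D p : ℤ} (hS : S % 2 = 0) (h0 : 0 ≤ S) (h : Q S D p) :
    ∃ a b a' b', Loc S D p a b a' b' := by
  obtain ⟨s, hs⟩ : ∃ s, s = sf D := ⟨_, rfl⟩
  have hsD : 3 * s + 1 ≤ D ∧ D ≤ 3 * s + 3 := by rw [hs]; unfold sf; omega
  have hs0 : 0 ≤ s := by
    have := h.1
    rw [hs]; unfold sf; omega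
  have e1 : ∀ c, pm c → sf (D + c) = (D + c - 1) / 3 := fun _ _ => rfl
  unfold Q at h
  rw [← hs] at h
  obtain ⟨k1, k2, k3, k4⟩ := h
  rcases k4 with ⟨ev, k4⟩ | ⟨od, k4⟩
  · rcases k4 with ⟨k5, k6⟩ | ⟨k5, k6, k7⟩
    · -- connector
      rcases eq_or_lt_of_le k2 with hlt | hlt
      · refine ⟨-1, 1, 1, -1, pm2, pm1, pm1, pm2, by omega, Or.inl ⟨?_, ?_⟩,
          Or.inr ⟨by omega, by omega, ?_⟩, ?_⟩
        · unfold Q sf; omega
        · refine same_R (by rw [← hs]; unfold sf; omega) (fun _ => by omega) (fun h => ?_)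
          rw [← hs] at h; omega
        · unfold R
          rw [← hs, if_pos ev, hlt]
          simp; omega
        · intro c d hc hd n1 n2
          unfold pm at hc hd
          refine ⟨?_, by omega, by omega⟩
          unfold Q sf
          omega
      · refine ⟨-1, 1, 1, 1, pm2, pm1, pm1, pm1, by omega, Or.inl ⟨?_, ?_⟩,
          Or.inl ⟨?_, ?_⟩, ?_⟩
        · unfold Q sf; omega
        · refine same_R (by rw [← hs]; unfold sf; omega) (fun _ => by omega) (fun h => ?_)
          rw [← hs] at h; omega
        · unfold Q sf; omega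
        · have e2 : sf (D + 1) = s + 1 := by unfold sf; omega
          have e3 := up_R (S := S) (D := D + 1) (D' := D) (p := p + 1) (p' := p) (e := 1)
            (by rw [e2, ← hs]; ring) (fun h => by rw [e2] at h; omega)
            (fun h => by rw [e2]; omega)
          linarith
        · intro c d hc hd n1 n2
          unfold pm at hc hd
          refine ⟨?_, by omega, by omega⟩
          unfold Q sf
          omega
    · have k8 : D = 3 * s + 1 ∨ D = 3 * s + 2 := by omega
      rcases k8 with k8 | k8
      · by_cases kp : p = 6 * S + 7 - 3 * s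
        · -- top end
          refine ⟨-1, 1, 1, -1, pm2, pm1, pm1, pm2, by omega, ?_, Or.inl ⟨?_, ?_⟩, ?_⟩
          · rcases eq_or_lt_of_le hs0 with hz | hz
            · right
              refine ⟨by omega, by omega, ?_⟩
              unfold R
              rw [← hs, if_pos ev, ← hz]
              have : p = 6 * S + 7 := by omega
              rw [this]; ring
            · left
              refine ⟨by unfold Q sf; omega, ?_⟩
              have e2 : sf (D + -1) = s - 1 := by unfold sf; omega
              refine up_R (by rw [e2, ← hs]) (fun h => by rw [← hs]; omega)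
                (fun h => by rw [← hs] at h; omega)
          · unfold Q sf; omega
          · refine same_R (by rw [← hs]; unfold sf; omega) (fun _ => by omega) (fun h => ?_)
            rw [← hs] at h; omega
          · intro c d hc hd n1 n2
            unfold pm at hc hd
            refine ⟨?_, by omega, by omega⟩
            unfold Q sf
            omega
        · refine ⟨1, 1, 1, -1, pm1, pm1, pm1, pm2, by omega, Or.inl ⟨?_, ?_⟩,
            Or.inl ⟨?_, ?_⟩, ?_⟩
          · unfold Q sf; omega
          · refine same_R (by rw [← hs]; unfold sf; omega) (fun _ => by omega) (fun h => ?_)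
            rw [← hs] at h; omega
          · unfold Q sf; omega
          · refine same_R (by rw [← hs]; unfold sf; omega) (fun _ => by omega) (fun h => ?_)
            rw [← hs] at h; omega
          · intro c d hc hd n1 n2
            unfold pm at hc hd
            refine ⟨?_, by omega, by omega⟩
            unfold Q sf
            omega
      · by_cases kp : p = 3 * s + 6
        · refine ⟨-1, 1, 1, -1, pm2, pm1, pm1, pm2, by omega, Or.inl ⟨?_, ?_⟩,
            Or.inl ⟨?_, ?_⟩, ?_⟩
          · unfold Q sf; omega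
          · refine same_R (by rw [← hs]; unfold sf; omega) (fun _ => by omega) (fun h => ?_)
            rw [← hs] at h; omega
          · unfold Q sf; omega
          · refine same_R (by rw [← hs]; unfold sf; omega) (fun _ => by omega) (fun h => ?_)
            rw [← hs] at h; omega
          · intro c d hc hd n1 n2
            unfold pm at hc hd
            refine ⟨?_, by omega, by omega⟩
            unfold Q sf
            omega
        · refine ⟨-1, 1, -1, -1, pm2, pm1, pm2, pm2, by omega, Or.inl ⟨?_, ?_⟩,
            Or.inl ⟨?_, ?_⟩, ?_⟩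
          · unfold Q sf; omega
          · refine same_R (by rw [← hs]; unfold sf; omega) (fun _ => by omega) (fun h => ?_)
            rw [← hs] at h; omega
          · unfold Q sf; omega
          · refine same_R (by rw [← hs]; unfold sf; omega) (fun _ => by omega) (fun h => ?_)
            rw [← hs] at h; omega
          · intro c d hc hd n1 n2
            unfold pm at hc hd
            refine ⟨?_, by omega, by omega⟩
            unfold Q sf
            omega
  · rcases k4 with ⟨k5, k6⟩ | ⟨k5, k6, k7⟩
    · -- connector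
      refine ⟨-1, -1, 1, -1, pm2, pm2, pm1, pm2, by omega, Or.inl ⟨?_, ?_⟩,
        Or.inl ⟨?_, ?_⟩, ?_⟩
      · unfold Q sf; omega
      · refine same_R (by rw [← hs]; unfold sf; omega) (fun h => ?_) (fun _ => by omega)
        rw [← hs] at h; omega
      · unfold Q sf; omega
      · have e2 : sf (D + 1) = s + 1 := by unfold sf; omega
        have e3 := up_R (S := S) (D := D + 1) (D' := D) (p := p + -1) (p' := p) (e := 1)
          (by rw [e2, ← hs]; ring) (fun h => by rw [e2]; omega)
          (fun h => by rw [e2] at h; omega)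
        linarith
      · intro c d hc hd n1 n2
        unfold pm at hc hd
        refine ⟨?_, by omega, by omega⟩
        unfold Q sf
        omega
    · have k8 : D = 3 * s + 1 ∨ D = 3 * s + 2 := by omega
      rcases k8 with k8 | k8
      · by_cases kp : p = 3 * s + 3
        · refine ⟨-1, -1, 1, 1, pm2, pm2, pm1, pm1, by omega, Or.inl ⟨?_, ?_⟩,
            Or.inl ⟨?_, ?_⟩, ?_⟩
          · unfold Q sf; omega
          · have e2 : sf (D + -1) = s - 1 := by unfold sf; omega
            refine up_R (by rw [e2, ← hs]) (fun h => by rw [← hs] at h; omega)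
              (fun h => by rw [← hs]; omega)
          · unfold Q sf; omega
          · refine same_R (by rw [← hs]; unfold sf; omega) (fun h => ?_) (fun _ => by omega)
            rw [← hs] at h; omega
          · intro c d hc hd n1 n2
            unfold pm at hc hd
            refine ⟨?_, by omega, by omega⟩
            unfold Q sf
            omega
        · refine ⟨1, -1, 1, 1, pm1, pm2, pm1, pm1, by omega, Or.inl ⟨?_, ?_⟩,
            Or.inl ⟨?_, ?_⟩, ?_⟩
          · unfold Q sf; omega
          · refine same_R (by rw [← hs]; unfold sf; omega) (fun h => ?_) (fun _ => by omega)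
            rw [← hs] at h; omega
          · unfold Q sf; omega
          · refine same_R (by rw [← hs]; unfold sf; omega) (fun h => ?_) (fun _ => by omega)
            rw [← hs] at h; omega
          · intro c d hc hd n1 n2
            unfold pm at hc hd
            refine ⟨?_, by omega, by omega⟩
            unfold Q sf
            omega
      · by_cases kp : p = 6 * S + 4 - 3 * s
        · refine ⟨-1, -1, 1, 1, pm2, pm2, pm1, pm1, by omega, Or.inl ⟨?_, ?_⟩,
            Or.inl ⟨?_, ?_⟩, ?_⟩
          · unfold Q sf; omega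
          · refine same_R (by rw [← hs]; unfold sf; omega) (fun h => ?_) (fun _ => by omega)
            rw [← hs] at h; omega
          · unfold Q sf; omega
          · refine same_R (by rw [← hs]; unfold sf; omega) (fun h => ?_) (fun _ => by omega)
            rw [← hs] at h; omega
          · intro c d hc hd n1 n2
            unfold pm at hc hd
            refine ⟨?_, by omega, by omega⟩
            unfold Q sf
            omega
        · refine ⟨-1, -1, -1, 1, pm2, pm2, pm2, pm1, by omega, Or.inl ⟨?_, ?_⟩,
            Or.inl ⟨?_, ?_⟩, ?_⟩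
          · unfold Q sf; omega
          · refine same_R (by rw [← hs]; unfold sf; omega) (fun h => ?_) (fun _ => by omega)
            rw [← hs] at h; omega
          · unfold Q sf; omega
          · refine same_R (by rw [← hs]; unfold sf; omega) (fun h => ?_) (fun _ => by omega)
            rw [← hs] at h; omega
          · intro c d hc hd n1 n2
            unfold pm at hc hd
            refine ⟨?_, by omega, by omega⟩
            unfold Q sf
            omega

lemma Q_box {S D p : ℤ} (hS : S % 2 = 0) (h0 : 0 ≤ S) (h : Q S D p) :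
    2 ≤ p - D ∧ p + D ≤ 6 * S + 8 ∧ 1 ≤ D ∧ D ≤ 3 * S + 3 := by
  unfold Q sf at h
  omega

lemma R_pos {S D p : ℤ} (h : Q S D p) : 1 ≤ R S D p := by
  unfold R
  unfold Q at h
  obtain ⟨s, hs⟩ : ∃ s, s = sf D := ⟨_, rfl⟩
  have hsD : 3 * s + 1 ≤ D ∧ D ≤ 3 * s + 3 := by rw [hs]; unfold sf; omega
  rw [← hs] at h ⊢
  have := sq_nonneg (S - s)
  split_ifs with h1
  · have : 1 ≤ p - 3 * s - 4 := by omega
    linarith
  · have : 1 ≤ 6 * S + 6 - 3 * s - p := by omega
    linarith

end H500B
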