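import Pool.Agent.H500R3.Boot.Basic
import Pool.Agent.H500R3.Boot.Snake

/-!
The snake in the grid; the lower bound.
-/

namespace H500B

/-- the snake -/
def Pt (S D p : ℤ) : Prop :=
  Q S D p ∨ (D = 0 ∧ p = 6 * S + 8) ∨ Q S (-D) p ∨ (D = -(3 * S + 4) ∧ p = 3 * S + 4)

/-- the position -/
def Rt (S D p : ℤ) : ℤ :=
  if 1 ≤ D then R S D p else if D = 0 then 3 * (S + 1) ^ 2 + 1
  else if D = -(3 * S + 4) then 6 * (S + 1) ^ 2 + 2 else 6 * (S + 1) ^ 2 + 2 - R S (-D) p

/-- move in the direction `(a, b)` -/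
def mv (v : ℤ × ℤ) (a b : ℤ) : ℤ × ℤ := (v.1 + (a + b) / 2, v.2 + (b - a) / 2)

lemma mv_nbr {v : ℤ × ℤ} {a b : ℤ} (ha : pm a) (hb : pm b) : mv v a b ∈ nbr v := by
  rw [mem_nbr]
  obtain ⟨x, y⟩ := v
  unfold mv
  simp only [Prod.mk.injEq]
  unfold pm at ha hb
  omega

lemma mv_D {v : ℤ × ℤ} {a b : ℤ} (ha : pm a) (hb : pm b) :
    (mv v a b).1 - (mv v a b).2 = v.1 - v.2 + a := by
  unfold mv; unfold pm at ha hb; simp only; omega

lemma mv_p {v : ℤ × ℤ} {a b : ℤ} (ha : pm a) (hb : pm b) :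
    (mv v a b).1 + (mv v a b).2 - 2 = v.1 + v.2 - 2 + b := by
  unfold mv; unfold pm at ha hb; simp only; omega

lemma nbr_mv {u v : ℤ × ℤ} (h : u ∈ nbr v) : ∃ c d, pm c ∧ pm d ∧ u = mv v c d := by
  rw [mem_nbr] at h
  obtain ⟨x, y⟩ := v
  simp only at h
  rcases h with rfl | rfl | rfl | rfl
  · exact ⟨1, 1, pm1, pm1, by unfold mv; simp⟩
  · exact ⟨-1, -1, pm2, pm2, by unfold mv; simp; omega⟩
  · exact ⟨-1, 1, pm2, pm1, by unfold mv; simp⟩
  · exact ⟨1, -1, pm1, pm2, by unfold mv; simp; omega⟩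

lemma mv_inj {v : ℤ × ℤ} {a b c d : ℤ} (ha : pm a) (hb : pm b) (hc : pm c) (hd : pm d)
    (h : mv v a b = mv v c d) : a = c ∧ b = d := by
  have h1 := mv_D (v := v) ha hb
  have h2 := mv_D (v := v) hc hd
  have h3 := mv_p (v := v) ha hb
  have h4 := mv_p (v := v) hc hd
  rw [h] at h1 h3
  omega

open scoped Classical in
/-- the snake in the grid -/
noncomputable def Pn (n : ℕ) (S : ℤ) : Finset (ℤ × ℤ) :=
  (box n).filter (fun v => Pt S (v.1 - v.2) (v.1 + v.2 - 2))

/-- the rank of a vertex -/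
def rk (S : ℤ) (v : ℤ × ℤ) : ℤ := Rt S (v.1 - v.2) (v.1 + v.2 - 2)

lemma Rt_pos {S D p : ℤ} (h : 1 ≤ D) : Rt S D p = R S D p := by
  unfold Rt; rw [if_pos h]

lemma Rt_zero {S p : ℤ} : Rt S 0 p = 3 * (S + 1) ^ 2 + 1 := by
  unfold Rt; rw [if_neg (by omega), if_pos rfl]

lemma Rt_fin {S p : ℤ} (h0 : 0 ≤ S) : Rt S (-(3 * S + 4)) p = 6 * (S + 1) ^ 2 + 2 := by
  unfold Rt; rw [if_neg (by omega), if_neg (by omega), if_pos rfl]

lemma Rt_neg {S D p : ℤ} (h : 1 ≤ -D) (h' : -D ≤ 3 * S + 3) :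
    Rt S D p = 6 * (S + 1) ^ 2 + 2 - R S (-D) p := by
  unfold Rt; rw [if_neg (by omega), if_neg (by omega), if_neg (by omega)]

lemma R_le {S D p : ℤ} (h0 : 0 ≤ S) (h : Q S D p) : R S D p ≤ 3 * (S + 1) ^ 2 := by
  unfold R
  unfold Q at h
  obtain ⟨s, hs⟩ : ∃ s, s = sf D := ⟨_, rfl⟩
  have hsD : 3 * s + 1 ≤ D ∧ D ≤ 3 * s + 3 := by rw [hs]; unfold sf; omega
  rw [← hs] at h ⊢
  have hs0 : 0 ≤ s := by omega
  have hsS : s ≤ S := h.2.1
  have key : 3 * (S - s) ^ 2 + (6 * (S - s) + 3) ≤ 3 * (S + 1) ^ 2 := by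
    have e : 3 * (S - s) ^ 2 + (6 * (S - s) + 3) = 3 * (S - s + 1) ^ 2 := by ring
    rw [e]
    have : (S - s + 1) ^ 2 ≤ (S + 1) ^ 2 := pow_le_pow_left₀ (by omega) (by omega) 2
    omega
  split_ifs with h1
  · have : p - 3 * s - 4 ≤ 6 * (S - s) + 3 := by omega
    linarith
  · have : 6 * S + 6 - 3 * s - p ≤ 6 * (S - s) + 3 := by omega
    linarith

theorem snake_time {n : ℕ} {S : ℤ} (hS : S % 2 = 0) (h0 : 0 ≤ S) (hn : 3 * S + 6 ≤ n) :
    (∃ s, inf n (box n \ Pn n S) s = box n) ∧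
      ∀ t : ℕ, (t : ℤ) < 6 * (S + 1) ^ 2 + 2 → inf n (box n \ Pn n S) t ≠ box n := by
  classical
  have hmem : ∀ v, v ∈ Pn n S ↔ v ∈ box n ∧ Pt S (v.1 - v.2) (v.1 + v.2 - 2) := by
    intro v; unfold Pn; rw [Finset.mem_filter]
  have T : ∃ T, T = (S + 1) ^ 2 := ⟨_, rfl⟩
  obtain ⟨T, hT⟩ := T
  have hT1 : 1 ≤ T := by rw [hT]; nlinarith
  -- the four kinds of vertices
  have main := of_rank (n := n) (P := Pn n S) (Finset.filter_subset _ _) (rk S) ?_ ?_ ?_
  · refine ⟨main.1, fun t ht heq => ?_⟩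
    have hv : ((1 : ℤ), 3 * S + 5) ∈ Pn n S := by
      rw [hmem, mem_box]
      refine ⟨by simp only; omega, ?_⟩
      unfold Pt
      simp only
      omega
    refine main.2 _ hv t ?_ (by rw [heq]; exact (Finset.filter_subset _ _ hv))
    unfold rk
    simp only
    have e1 : (1 : ℤ) - (3 * S + 5) = -(3 * S + 4) := by ring
    rw [e1, Rt_fin h0]
    exact ht
  · -- positivity
    intro v hv
    rw [hmem] at hv
    obtain ⟨-, hv⟩ := hv
    unfold rk
    rcases hv with h | ⟨h, -⟩ | h | ⟨h, -⟩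
    · rw [Rt_pos h.1]; exact R_pos h
    · rw [h, Rt_zero, ← hT]; omega
    · have hb := Q_box hS h0 h
      rw [Rt_neg hb.2.2.1 hb.2.2.2, ← hT]
      have := R_le h0 h
      rw [← hT] at this
      omega
    · rw [h, Rt_fin h0, ← hT]; omega
  · -- fast
    intro v hv
    rw [hmem] at hv
    obtain ⟨hvb, hv⟩ := hv
    rw [mem_box] at hvb
    unfold rk
    obtain ⟨D, hD⟩ : ∃ D, D = v.1 - v.2 := ⟨_, rfl⟩
    obtain ⟨p, hp⟩ : ∃ p, p = v.1 + v.2 - 2 := ⟨_, rfl⟩
    rw [← hD, ← hp] at hv ⊢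
    rcases hv with h | ⟨h, h'⟩ | h | ⟨h, h'⟩
    · obtain ⟨a, b, a', b', ha, hb, ha', hb', hne, hsucc, hpred, hoth⟩ := loc hS h0 h
      have hbd := Q_box hS h0 h
      refine card3 v _ (mv v a b) fun u hu hue => ?_
      obtain ⟨c, d, hc, hd, rfl⟩ := nbr_mv hu
      have e1 := mv_D (v := v) hc hd
      have e2 := mv_p (v := v) hc hd
      rw [← hD] at e1
      rw [← hp] at e2
      have hcd : ¬ (c = a ∧ d = b) := by rintro ⟨rfl, rfl⟩; exact hue rfl
      have hc' := hc
      have hd' := hd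
      unfold pm at hc' hd'
      refine ⟨by rw [mem_box]; omega, fun huP => ?_⟩
      rw [hmem, e1, e2] at huP
      rw [e1, e2, Rt_pos (D := D) h.1]
      by_cases h2 : c = a' ∧ d = b'
      · rw [← h2.1, ← h2.2] at hpred
        rcases hpred with ⟨q1, q2⟩ | ⟨q1, q2, q3⟩
        · rw [Rt_pos q1.1]; omega
        · exfalso
          have := huP.2
          unfold Pt at this
          rw [q1, q2] at this
          unfold Q sf at this
          omega
      · exfalso
        obtain ⟨o1, o2, o3⟩ := hoth c d hc hd hcd h2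
        rcases huP.2 with g | g | g | g
        · exact o1 g
        · exact o2 g
        · have := g.1; omega
        · omega
    · -- corner
      subst h h'
      refine card3 v _ (mv v (-1) (-1)) fun u hu hue => ?_
      obtain ⟨c, d, hc, hd, rfl⟩ := nbr_mv hu
      have e1 := mv_D (v := v) hc hd
      have e2 := mv_p (v := v) hc hd
      rw [← hD] at e1
      rw [← hp] at e2
      have hcd : ¬ (c = -1 ∧ d = -1) := by rintro ⟨rfl, rfl⟩; exact hue rfl
      have hc' := hc
      have hd' := hd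
      unfold pm at hc' hd'
      refine ⟨by rw [mem_box]; omega, fun huP => ?_⟩
      rw [hmem, e1, e2] at huP
      rw [e1, e2, Rt_zero]
      have h3 := huP.2
      by_cases h2 : c = 1 ∧ d = -1
      · obtain ⟨rfl, rfl⟩ := h2
        have h4 : Q S (0 + 1) (6 * S + 8 + -1) := by
          unfold Q sf; omega
        rw [Rt_pos h4.1]
        have := R_le h0 h4
        omega
      · exfalso
        unfold Pt Q sf at h3
        omega
    · obtain ⟨a, b, a', b', ha, hb, ha', hb', hne, hsucc, hpred, hoth⟩ := loc hS h0 h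
      have hbd := Q_box hS h0 h
      have na' : pm (-a') := by unfold pm at *; omega
      refine card3 v _ (mv v (-a') b') fun u hu hue => ?_
      obtain ⟨c, d, hc, hd, rfl⟩ := nbr_mv hu
      have e1 := mv_D (v := v) hc hd
      have e2 := mv_p (v := v) hc hd
      rw [← hD] at e1
      rw [← hp] at e2
      have hcd : ¬ (-c = a' ∧ d = b') := by
        rintro ⟨g1, rfl⟩
        apply hue
        rw [← g1, neg_neg]
      have hc' := hc
      have hd' := hd
      unfold pm at hc' hd'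
      have nc : pm (-c) := by unfold pm; omega
      refine ⟨by rw [mem_box]; omega, fun huP => ?_⟩
      rw [hmem, e1, e2] at huP
      rw [e1, e2, Rt_neg (D := D) hbd.2.2.1 hbd.2.2.2]
      have e3 : -D + -c = -(D + c) := by ring
      by_cases h2 : -c = a ∧ d = b
      · rw [← h2.1, ← h2.2, e3] at hsucc
        rcases hsucc with ⟨q1, q2⟩ | ⟨q1, q2, q3⟩
        · have hb2 := Q_box hS h0 q1
          rw [Rt_neg hb2.2.2.1 hb2.2.2.2]; omega
        · have q4 : D + c = 0 := by omega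
          rw [q4, Rt_zero, q3, ← hT]; omega
      · exfalso
        obtain ⟨o1, o2, o3⟩ := hoth (-c) d nc hd h2 hcd
        rw [e3] at o1 o2 o3
        rcases huP.2 with g | g | g | g
        · have := g.1; omega
        · omega
        · exact o1 g
        · omega
    · -- final vertex
      refine card3 v _ (mv v (-1) (-1)) fun u hu hue => ?_
      obtain ⟨c, d, hc, hd, rfl⟩ := nbr_mv hu
      have e1 := mv_D (v := v) hc hd
      have e2 := mv_p (v := v) hc hd
      rw [← hD] at e1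
      rw [← hp] at e2
      have hcd : ¬ (c = -1 ∧ d = -1) := by rintro ⟨rfl, rfl⟩; exact hue rfl
      have hc' := hc
      have hd' := hd
      unfold pm at hc' hd'
      refine ⟨by rw [mem_box]; omega, fun huP => ?_⟩
      rw [hmem, e1, e2] at huP
      rw [e1, e2, h, Rt_fin h0]
      have h3 := huP.2
      by_cases h2 : c = 1 ∧ d = 1
      · obtain ⟨rfl, rfl⟩ := h2
        have h4 : Q S (-(-(3 * S + 4) + 1)) (p + 1) := by
          unfold Q sf; omega
        have hb2 := Q_box hS h0 h4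
        rw [Rt_neg hb2.2.2.1 hb2.2.2.2]
        have := R_pos h4
        omega
      · exfalso
        unfold Pt Q sf at h3
        omega
  · -- slow
    intro v hv hrk
    rw [hmem] at hv
    obtain ⟨hvb, hv⟩ := hv
    rw [mem_box] at hvb
    unfold rk at hrk ⊢
    obtain ⟨D, hD⟩ : ∃ D, D = v.1 - v.2 := ⟨_, rfl⟩
    obtain ⟨p, hp⟩ : ∃ p, p = v.1 + v.2 - 2 := ⟨_, rfl⟩
    rw [← hD, ← hp] at hv hrk ⊢
    rcases hv with h | ⟨h, h'⟩ | h | ⟨h, h'⟩
    · obtain ⟨a, b, a', b', ha, hb, ha', hb', hne, hsucc, hpred, hoth⟩ := loc hS h0 h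
      have hbd := Q_box hS h0 h
      rw [Rt_pos h.1] at hrk
      refine card2 v _ (mv_nbr ha hb) (mv_nbr ha' hb')
        (fun g => hne (mv_inj ha hb ha' hb' g)) ?_ ?_
      · have e1 := mv_D (v := v) ha hb
        have e2 := mv_p (v := v) ha hb
        rw [← hD] at e1
        rw [← hp] at e2
        rintro ⟨g1, g2⟩
        have g3 : mv v a b ∈ Pn n S := by
          rw [hmem, e1, e2]
          refine ⟨g1, ?_⟩
          rcases hsucc with ⟨q1, q2⟩ | ⟨q1, q2, q3⟩
          · exact Or.inl q1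
          · exact Or.inr (Or.inl ⟨q1, q2⟩)
        have g4 := g2 g3
        rw [e1, e2, Rt_pos (D := D) h.1] at g4
        rcases hsucc with ⟨q1, q2⟩ | ⟨q1, q2, q3⟩
        · rw [Rt_pos q1.1] at g4; omega
        · rw [q1, Rt_zero] at g4; omega
      · have e1 := mv_D (v := v) ha' hb'
        have e2 := mv_p (v := v) ha' hb'
        rw [← hD] at e1
        rw [← hp] at e2
        rintro ⟨g1, g2⟩
        rcases hpred with ⟨q1, q2⟩ | ⟨q1, q2, q3⟩
        · have g4 := g2 (by rw [hmem, e1, e2]; exact ⟨g1, Or.inl q1⟩)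
          rw [e1, e2, Rt_pos (D := D) h.1, Rt_pos q1.1] at g4
          omega
        · omega
    · -- corner
      subst h h'
      refine card2 v _ (mv_nbr pm1 pm2) (mv_nbr pm2 pm2)
        (fun g => by have := mv_inj pm1 pm2 pm2 pm2 g; omega) ?_ ?_
      · have e1 := mv_D (v := v) pm1 pm2
        have e2 := mv_p (v := v) pm1 pm2
        rw [← hD] at e1
        rw [← hp] at e2
        have h4 : Q S (0 + 1) (6 * S + 8 + -1) := by
          unfold Q sf; omega
        rintro ⟨g1, g2⟩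
        have g4 := g2 (by rw [hmem, e1, e2]; exact ⟨g1, Or.inl h4⟩)
        rw [e1, e2, Rt_zero, Rt_pos h4.1] at g4
        have h5 : R S (0 + 1) (6 * S + 8 + -1) = 3 * (S + 1) ^ 2 := by
          unfold R sf; simp; ring
        omega
      · have e1 := mv_D (v := v) pm2 pm2
        have e2 := mv_p (v := v) pm2 pm2
        rw [← hD] at e1
        rw [← hp] at e2
        have h4 : Q S (-(0 + -1)) (6 * S + 8 + -1) := by
          unfold Q sf; omega
        have hb2 := Q_box hS h0 h4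
        rintro ⟨g1, g2⟩
        have g4 := g2 (by rw [hmem, e1, e2]; exact ⟨g1, Or.inr (Or.inr (Or.inl h4))⟩)
        rw [e1, e2, Rt_zero, Rt_neg hb2.2.2.1 hb2.2.2.2] at g4
        have h5 := R_le h0 h4
        rw [← hT] at h5 g4
        omega
    · obtain ⟨a, b, a', b', ha, hb, ha', hb', hne, hsucc, hpred, hoth⟩ := loc hS h0 h
      have hbd := Q_box hS h0 h
      have na : pm (-a) := by unfold pm at *; omega
      have na' : pm (-a') := by unfold pm at *; omega
      have e3 : -D + a = -(D + -a) := by ring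
      have e3' : -D + a' = -(D + -a') := by ring
      rw [e3] at hsucc
      rw [e3'] at hpred
      refine card2 v _ (mv_nbr na hb) (mv_nbr na' hb')
        (fun g => hne (by have := mv_inj na hb na' hb' g; omega)) ?_ ?_
      · have e1 := mv_D (v := v) na hb
        have e2 := mv_p (v := v) na hb
        rw [← hD] at e1
        rw [← hp] at e2
        rintro ⟨g1, g2⟩
        rcases hsucc with ⟨q1, q2⟩ | ⟨q1, q2, q3⟩
        · have g4 := g2 (by rw [hmem, e1, e2]; exact ⟨g1, Or.inr (Or.inr (Or.inl q1))⟩)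
          have hb2 := Q_box hS h0 q1
          rw [e1, e2, Rt_neg (D := D) hbd.2.2.1 hbd.2.2.2, Rt_neg hb2.2.2.1 hb2.2.2.2] at g4
          omega
        · have q4 : D + -a = 0 := by omega
          have g4 := g2 (by rw [hmem, e1, e2]; exact ⟨g1, Or.inr (Or.inl ⟨q4, q2⟩)⟩)
          rw [e1, e2, Rt_neg (D := D) hbd.2.2.1 hbd.2.2.2, q4, Rt_zero, q3, ← hT] at g4
          omega
      · have e1 := mv_D (v := v) na' hb'
        have e2 := mv_p (v := v) na' hb'
        rw [← hD] at e1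
        rw [← hp] at e2
        rintro ⟨g1, g2⟩
        rcases hpred with ⟨q1, q2⟩ | ⟨q1, q2, q3⟩
        · have g4 := g2 (by rw [hmem, e1, e2]; exact ⟨g1, Or.inr (Or.inr (Or.inl q1))⟩)
          have hb2 := Q_box hS h0 q1
          rw [e1, e2, Rt_neg (D := D) hbd.2.2.1 hbd.2.2.2, Rt_neg hb2.2.2.1 hb2.2.2.2] at g4
          omega
        · have q4 : D + -a' = -(3 * S + 4) := by omega
          have g4 := g2 (by
            rw [hmem, e1, e2]; exact ⟨g1, Or.inr (Or.inr (Or.inr ⟨q4, q2⟩))⟩)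
          rw [e1, e2, Rt_neg (D := D) hbd.2.2.1 hbd.2.2.2, q4, Rt_fin h0, q3, ← hT] at g4
          omega
    · -- final vertex
      refine card2 v _ (mv_nbr pm1 pm1) (mv_nbr pm2 pm2)
        (fun g => by have := mv_inj pm1 pm1 pm2 pm2 g; omega) ?_ ?_
      · have e1 := mv_D (v := v) pm1 pm1
        have e2 := mv_p (v := v) pm1 pm1
        rw [← hD] at e1
        rw [← hp] at e2
        have h4 : Q S (-(D + 1)) (p + 1) := by
          rw [h]; unfold Q sf; omega
        have hb2 := Q_box hS h0 h4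
        rintro ⟨g1, g2⟩
        have g4 := g2 (by rw [hmem, e1, e2]; exact ⟨g1, Or.inr (Or.inr (Or.inl h4))⟩)
        rw [e1, e2, Rt_neg hb2.2.2.1 hb2.2.2.2, h, Rt_fin h0] at g4
        have h5 : R S (-(-(3 * S + 4) + 1)) (p + 1) = 1 := by
          have e5 : -(-(3 * S + 4) + 1) = 3 * S + 3 := by ring
          have e6 : sf (3 * S + 3) = S := by unfold sf; omega
          rw [e5]
          unfold R
          rw [e6, if_pos hS]
          simp; omega
        omega
      · rintro ⟨g1, -⟩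
        rw [mem_box] at g1
        unfold mv at g1
        simp only at g1
        omega

end H500B
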