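import Pool.Agent.H500R3.Boot.Stack

/-!
The slow process on a sheet between two infected walls.
-/

namespace H500G

variable {d : ℕ}

lemma cntR {n : ℕ} {Q : (Fin d → ℤ) → Prop} {w a b : Fin d → ℤ}
    (ψ : (Fin d → ℤ) → Prop) [DecidablePred ψ]
    (hψ : ∀ u, adj u w → u ∈ box d n → ¬ Q u → ψ u) (ha : adj a w) (hb : adj b w)
    (hne : a ≠ b) (hab : ∀ u, adj u w → (u ∉ box d n ∨ Q u) → u = a ∨ u = b) :
    ((nbr w).filter ψ).card + ((if ψ a then 0 else 1) + (if ψ b then 0 else 1)) = 2 * d := by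
  classical
  rw [← card_bad w ψ]
  congr 1
  have e : (nbr w).filter (fun u => ¬ ψ u) = ({a, b} : Finset (Fin d → ℤ)).filter
      (fun u => ¬ ψ u) := by
    ext u
    rw [Finset.mem_filter, Finset.mem_filter, mem_nbr, Finset.mem_insert, Finset.mem_singleton]
    constructor
    · rintro ⟨h1, h2⟩
      refine ⟨hab u h1 ?_, h2⟩
      by_contra hcon
      push Not at hcon
      exact h2 (hψ u h1 hcon.1 hcon.2)
    · rintro ⟨rfl | rfl, h2⟩
      · exact ⟨ha, h2⟩
      · exact ⟨hb, h2⟩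
  rw [e, Finset.filter_insert, Finset.filter_singleton]
  split_ifs <;> simp_all

section
variable {n : ℕ} {J L : ℤ} {Q : (Fin d → ℤ) → Prop} {q : (Fin d → ℤ) → ℤ} {hh : ℤ → ℤ}

/-- active set of the plane process; `hh` is the row index -/
def PW (J : ℤ) (Q : (Fin d → ℤ) → Prop) (hh : ℤ → ℤ) (v : Fin (d + 1) → ℤ) : Prop :=
  Q (Fin.init v) ∧ 1 ≤ hh (v (Fin.last d)) ∧ hh (v (Fin.last d)) ≤ 2 * J

/-- infection times of the plane process -/
def Pf (L : ℤ) (q : (Fin d → ℤ) → ℤ) (hh : ℤ → ℤ) (v : Fin (d + 1) → ℤ) : ℤ :=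
  ((hh (v (Fin.last d)) + 1) / 2 - 1) * (L + 1) +
    sg L q ((hh (v (Fin.last d)) + 1) / 2) (Fin.init v) +
    (if hh (v (Fin.last d)) % 2 = 1 then 0 else 1)

/-- special vertices of the plane process -/
def PS (J L : ℤ) (q : (Fin d → ℤ) → ℤ) (hh : ℤ → ℤ) (v : Fin (d + 1) → ℤ) : Prop :=
  sg L q ((hh (v (Fin.last d)) + 1) / 2) (Fin.init v) = 1 ∧ hh (v (Fin.last d)) ≠ 2 * J

theorem plane (hL : 2 ≤ L) (H : Rd d n L Q q) (hJ : 1 ≤ J) {ε c : ℤ} (hε : ε = 1 ∨ ε = -1)
    (hh' : ∀ y, hh y = ε * y + c)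
    (hwall : ∀ y, 0 ≤ hh y → hh y ≤ 2 * J + 1 → 1 ≤ y ∧ y ≤ n)
    (hsur : ∃ y, hh y = 2 * J) :
    St (d + 1) n (2 * d) (J * (L + 1)) (PW J Q hh) (Pf L q hh) (PS J L q hh) := by
  classical
  have hlt : ∀ (c : Fin d → ℤ) (x : ℤ),
      (Fin.snoc (α := fun _ => ℤ) c x : Fin (d + 1) → ℤ) (Fin.last d) = x :=
    fun c x => by rw [Fin.snoc_last]
  have hit : ∀ (c : Fin d → ℤ) (x : ℤ),
      Fin.init (Fin.snoc (α := fun _ => ℤ) c x : Fin (d + 1) → ℤ) = c :=
    fun c x => by rw [Fin.init_snoc]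
  have hup : ∀ y, hh (y + ε) = hh y + 1 := by
    intro y; rw [hh', hh']
    rcases hε with rfl | rfl <;> ring
  have hdn : ∀ y, hh (y - ε) = hh y - 1 := by
    intro y; rw [hh', hh']
    rcases hε with rfl | rfl <;> ring
  have FA : ∀ (w : Fin d → ℤ) (y j : ℤ), hh y = 2 * j - 1 →
      Pf L q hh (Fin.snoc (α := fun _ => ℤ) w y) = (j - 1) * (L + 1) + sg L q j w := by
    intro w y j h
    unfold Pf
    rw [hlt, hit, h, if_pos (by omega)]
    have : (2 * j - 1 + 1) / 2 = j := by omega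
    rw [this]; ring
  have FB : ∀ (w : Fin d → ℤ) (y j : ℤ), hh y = 2 * j →
      Pf L q hh (Fin.snoc (α := fun _ => ℤ) w y) = (j - 1) * (L + 1) + sg L q j w + 1 := by
    intro w y j h
    unfold Pf
    rw [hlt, hit, h, if_neg (by omega)]
    have : (2 * j + 1) / 2 = j := by omega
    rw [this]
  have GA : ∀ (w : Fin d → ℤ) (y j : ℤ), hh y = 2 * j - 1 →
      (PS J L q hh (Fin.snoc (α := fun _ => ℤ) w y) ↔ sg L q j w = 1) := by
    intro w y j h
    unfold PS
    rw [hlt, hit, h]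
    have : (2 * j - 1 + 1) / 2 = j := by omega
    rw [this]
    exact ⟨fun h => h.1, fun h => ⟨h, by omega⟩⟩
  have GB : ∀ (w : Fin d → ℤ) (y j : ℤ), hh y = 2 * j →
      (PS J L q hh (Fin.snoc (α := fun _ => ℤ) w y) ↔ sg L q j w = 1 ∧ j ≠ J) := by
    intro w y j h
    unfold PS
    rw [hlt, hit, h]
    have : (2 * j + 1) / 2 = j := by omega
    rw [this]
    exact ⟨fun h => ⟨h.1, by omega⟩, fun h => ⟨h.1, by omega⟩⟩
  have GW : ∀ (w : Fin d → ℤ) (y : ℤ), PW J Q hh (Fin.snoc (α := fun _ => ℤ) w y) ↔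
      Q w ∧ 1 ≤ hh y ∧ hh y ≤ 2 * J := by
    intro w y; unfold PW; rw [hlt, hit]
  have hbox : ∀ (w : Fin d → ℤ) (y : ℤ), (Fin.snoc (α := fun _ => ℤ) w y : Fin (d + 1) → ℤ) ∈
      box (d + 1) n ↔ w ∈ box d n ∧ 1 ≤ y ∧ y ≤ n := by
    intro w y; rw [box_split, hlt, hit]
  have hrep : ∀ v : Fin (d + 1) → ℤ, ∃ w y, v = Fin.snoc (α := fun _ => ℤ) w y := by
    intro v
    exact ⟨Fin.init v, v (Fin.last d), ext_split (by rw [hit]) (by rw [hlt])⟩
  have cs : ∀ (w : Fin d → ℤ) (y : ℤ) (φ : (Fin (d + 1) → ℤ) → Prop) [DecidablePred φ],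
      ((nbr (Fin.snoc (α := fun _ => ℤ) w y : Fin (d + 1) → ℤ)).filter φ).card =
      ((nbr w).filter (fun w => φ (Fin.snoc (α := fun _ => ℤ) w y))).card +
      ((if φ (Fin.snoc (α := fun _ => ℤ) w (y + ε)) then 1 else 0) +
      (if φ (Fin.snoc (α := fun _ => ℤ) w (y - ε)) then 1 else 0)) := by
    intro w y φ _
    rw [cnt_split, hlt, hit]
    rcases hε with rfl | rfl
    · rfl
    · have e1 : y + -1 = y - 1 := by ring
      have e2 : y - -1 = y + 1 := by ring
      rw [e1, e2]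
      omega
  have hk : ∀ j : ℤ, (j - 2) * (L + 1) + (L + 1) = (j - 1) * (L + 1) := by intro k; ring
  have hk' : ∀ j : ℤ, (j - 1) * (L + 1) + (L + 1) = j * (L + 1) := by intro k; ring
  have hj : ∀ h : ℤ, 1 ≤ h → h ≤ 2 * J → ∃ j, 1 ≤ j ∧ j ≤ J ∧ (h = 2 * j - 1 ∨ h = 2 * j) := by
    intro h h1 h2
    exact ⟨(h + 1) / 2, by omega, by omega, by omega⟩
  have hmono : ∀ j : ℤ, j ≤ J → j * (L + 1) ≤ J * (L + 1) := fun j h =>
    mul_le_mul_of_nonneg_right h (by omega)
  have hpos : ∀ j : ℤ, 1 ≤ j → 0 ≤ (j - 1) * (L + 1) := fun j h =>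
    mul_nonneg (by omega) (by omega)
  -- counts of the neighbours
  have low : ∀ (w : Fin d → ℤ) (y : ℤ), PW J Q hh (Fin.snoc (α := fun _ => ℤ) w y) →
      (2 * d ≤ ((nbr (Fin.snoc (α := fun _ => ℤ) w y : Fin (d + 1) → ℤ)).filter
        (fun u => u ∈ box (d + 1) n ∧ (PW J Q hh u →
          Pf L q hh u < Pf L q hh (Fin.snoc (α := fun _ => ℤ) w y)))).card + 1) ∧
      (¬ PS J L q hh (Fin.snoc (α := fun _ => ℤ) w y) → 2 * d ≤
        ((nbr (Fin.snoc (α := fun _ => ℤ) w y : Fin (d + 1) → ℤ)).filter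
        (fun u => u ∈ box (d + 1) n ∧ (PW J Q hh u →
          Pf L q hh u < Pf L q hh (Fin.snoc (α := fun _ => ℤ) w y)))).card) := by
    intro w y hW
    obtain ⟨hQ, y1, y2⟩ := (GW w y).mp hW
    obtain ⟨j, j1, j2, j3⟩ := hj _ y1 y2
    obtain ⟨a, b, ⟨ha1, ha⟩, ⟨hb1, hb⟩, hne, hab⟩ := H.sgk j _ hQ
    have hX := H.sgr j hQ
    have hwy := hwall y (by omega) (by omega)
    have hwd := hwall (y - ε) (by rw [hdn]; omega) (by rw [hdn]; omega)
    have hwu := hwall (y + ε) (by rw [hup]; omega) (by rw [hup]; omega)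
    rw [cs]
    have c1 := cntR (n := n) (Q := Q) (w := w) (a := a) (b := b)
      (fun w' => Fin.snoc (α := fun _ => ℤ) w' y ∈ box (d + 1) n ∧
        (PW J Q hh (Fin.snoc (α := fun _ => ℤ) w' y) →
        Pf L q hh (Fin.snoc (α := fun _ => ℤ) w' y) <
          Pf L q hh (Fin.snoc (α := fun _ => ℤ) w y)))
      (fun u hu hu' hQu => ⟨(hbox u y).mpr ⟨hu', hwy.1, hwy.2⟩,
        fun h => absurd ((GW u y).mp h).1 hQu⟩) ha1 hb1 hne hab
    have hdown : (if (Fin.snoc (α := fun _ => ℤ) w (y - ε) ∈ box (d + 1) n ∧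
        (PW J Q hh (Fin.snoc (α := fun _ => ℤ) w (y - ε)) →
        Pf L q hh (Fin.snoc (α := fun _ => ℤ) w (y - ε)) <
          Pf L q hh (Fin.snoc (α := fun _ => ℤ) w y))) then 1 else 0) = 1 := by
      rw [if_pos]
      refine ⟨(hbox _ _).mpr ⟨H.bx _ hQ, hwd.1, hwd.2⟩, fun h => ?_⟩
      have h3 := ((GW _ _).mp h).2.1
      rw [hdn] at h3
      rcases j3 with j3 | j3
      · rw [FA w y j j3, FB w (y - ε) (j - 1) (by rw [hdn]; omega), sg_pred]
        have := hk j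
        have e9 : j - 1 - 1 = j - 2 := by ring
        rw [e9]
        omega
      · rw [FB w y j j3, FA w (y - ε) j (by rw [hdn]; omega)]
        omega
    rw [hdown]
    refine ⟨?_, fun hS => ?_⟩
    · split_ifs at c1 ⊢ <;> omega
    · by_cases hX2 : sg L q j w = 1
      · have hJB : hh y = 2 * j ∧ j = J := by
          rcases j3 with j3 | j3
          · exact absurd ((GA w y j j3).mpr hX2) hS
          · refine ⟨j3, ?_⟩
            by_contra hne
            exact hS ((GB w y j j3).mpr ⟨hX2, hne⟩)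
        have hupp : (if (Fin.snoc (α := fun _ => ℤ) w (y + ε) ∈ box (d + 1) n ∧
            (PW J Q hh (Fin.snoc (α := fun _ => ℤ) w (y + ε)) →
            Pf L q hh (Fin.snoc (α := fun _ => ℤ) w (y + ε)) <
              Pf L q hh (Fin.snoc (α := fun _ => ℤ) w y))) then 1 else 0) = 1 := by
          rw [if_pos]
          refine ⟨(hbox _ _).mpr ⟨H.bx _ hQ, hwu.1, hwu.2⟩, fun h => ?_⟩
          have h3 := ((GW _ _).mp h).2.2
          rw [hup] at h3
          omega
        rw [hupp]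
        split_ifs at c1 <;> omega
      · rcases hb with ⟨b1, b2⟩ | ⟨b1, b2, b3⟩
        · exact absurd b1 hX2
        · have hbt : (if (Fin.snoc (α := fun _ => ℤ) b y ∈ box (d + 1) n ∧
              (PW J Q hh (Fin.snoc (α := fun _ => ℤ) b y) →
              Pf L q hh (Fin.snoc (α := fun _ => ℤ) b y) <
              Pf L q hh (Fin.snoc (α := fun _ => ℤ) w y))) then 0 else 1) = 0 := by
            rw [if_pos]
            refine ⟨(hbox _ _).mpr ⟨H.bx _ b2, hwy.1, hwy.2⟩, fun _ => ?_⟩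
            rcases j3 with j3 | j3
            · rw [FA w y j j3, FA b y j j3]; omega
            · rw [FB w y j j3, FB b y j j3]; omega
          rw [hbt] at c1
          split_ifs at c1 ⊢ <;> omega
  have high : ∀ (w : Fin d → ℤ) (y : ℤ), PW J Q hh (Fin.snoc (α := fun _ => ℤ) w y) →
      (((nbr (Fin.snoc (α := fun _ => ℤ) w y : Fin (d + 1) → ℤ)).filter
        (fun u => u ∈ box (d + 1) n ∧ (PW J Q hh u →
          Pf L q hh u + 1 < Pf L q hh (Fin.snoc (α := fun _ => ℤ) w y)))).card + 1 ≤ 2 * d) ∧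
      (PS J L q hh (Fin.snoc (α := fun _ => ℤ) w y) →
        2 ≤ Pf L q hh (Fin.snoc (α := fun _ => ℤ) w y) →
        ((nbr (Fin.snoc (α := fun _ => ℤ) w y : Fin (d + 1) → ℤ)).filter
        (fun u => u ∈ box (d + 1) n ∧ (PW J Q hh u →
          Pf L q hh u + 1 < Pf L q hh (Fin.snoc (α := fun _ => ℤ) w y)))).card + 2 ≤ 2 * d) := by
    intro w y hW
    obtain ⟨hQ, y1, y2⟩ := (GW w y).mp hW
    obtain ⟨j, j1, j2, j3⟩ := hj _ y1 y2
    obtain ⟨a, b, ⟨ha1, ha⟩, ⟨hb1, hb⟩, hne, hab⟩ := H.sgk j _ hQ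
    have hX := H.sgr j hQ
    have hwy := hwall y (by omega) (by omega)
    rw [cs]
    have c1 := cntR (n := n) (Q := Q) (w := w) (a := a) (b := b)
      (fun w' => Fin.snoc (α := fun _ => ℤ) w' y ∈ box (d + 1) n ∧
        (PW J Q hh (Fin.snoc (α := fun _ => ℤ) w' y) →
        Pf L q hh (Fin.snoc (α := fun _ => ℤ) w' y) + 1 <
          Pf L q hh (Fin.snoc (α := fun _ => ℤ) w y)))
      (fun u hu hu' hQu => ⟨(hbox u y).mpr ⟨hu', hwy.1, hwy.2⟩,
        fun h => absurd ((GW u y).mp h).1 hQu⟩) ha1 hb1 hne hab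
    rw [if_neg (by
      rintro ⟨h1, h2⟩
      rcases ha with ⟨a1, a2⟩ | ⟨a1, a2, a3⟩
      · exact a2 ((hbox _ _).mp h1).1
      · have h3 := h2 ((GW _ _).mpr ⟨a2, y1, y2⟩)
        rcases j3 with j3 | j3
        · rw [FA w y j j3, FA a y j j3] at h3; omega
        · rw [FB w y j j3, FB a y j j3] at h3; omega), if_neg (by
      rintro ⟨h1, h2⟩
      rcases hb with ⟨a1, a2⟩ | ⟨a1, a2, a3⟩
      · exact a2 ((hbox _ _).mp h1).1
      · have h3 := h2 ((GW _ _).mpr ⟨a2, y1, y2⟩)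
        rcases j3 with j3 | j3
        · rw [FA w y j j3, FA b y j j3] at h3; omega
        · rw [FB w y j j3, FB b y j j3] at h3; omega)] at c1
    have hupF : (hh y = 2 * j - 1 ∨ j < J) →
        ¬ (Fin.snoc (α := fun _ => ℤ) w (y + ε) ∈ box (d + 1) n ∧
        (PW J Q hh (Fin.snoc (α := fun _ => ℤ) w (y + ε)) →
        Pf L q hh (Fin.snoc (α := fun _ => ℤ) w (y + ε)) + 1 <
          Pf L q hh (Fin.snoc (α := fun _ => ℤ) w y))) := by
      rintro h0 ⟨h1, h2⟩
      have h3 := h2 ((GW _ _).mpr ⟨hQ, by rw [hup]; omega, by rw [hup]; omega⟩)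
      rcases j3 with j3 | j3
      · rw [FA w y j j3, FB w (y + ε) j (by rw [hup]; omega)] at h3
        omega
      · rw [FB w y j j3, FA w (y + ε) (j + 1) (by rw [hup]; omega), sg_succ] at h3
        have := hk' j
        have e9 : j + 1 - 1 = j := by ring
        rw [e9] at h3
        omega
    have hdnF : (hh y = 2 * j ∨ (sg L q j w = 1 ∧ 2 ≤ j)) →
        ¬ (Fin.snoc (α := fun _ => ℤ) w (y - ε) ∈ box (d + 1) n ∧
        (PW J Q hh (Fin.snoc (α := fun _ => ℤ) w (y - ε)) →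
        Pf L q hh (Fin.snoc (α := fun _ => ℤ) w (y - ε)) + 1 <
          Pf L q hh (Fin.snoc (α := fun _ => ℤ) w y))) := by
      rintro h0 ⟨h1, h2⟩
      have h3 := h2 ((GW _ _).mpr ⟨hQ, by rw [hdn]; omega, by rw [hdn]; omega⟩)
      rcases j3 with j3 | j3
      · rw [FA w y j j3, FB w (y - ε) (j - 1) (by rw [hdn]; omega), sg_pred] at h3
        have := hk j
        have e9 : j - 1 - 1 = j - 2 := by ring
        rw [e9] at h3
        omega
      · rw [FB w y j j3, FA w (y - ε) j (by rw [hdn]; omega)] at h3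
        omega
    refine ⟨?_, fun hS h2 => ?_⟩
    · rcases j3 with j3 | j3
      · rw [if_neg (hupF (Or.inl j3))]
        split_ifs <;> omega
      · rw [if_neg (hdnF (Or.inl j3))]
        split_ifs <;> omega
    · rcases j3 with j3 | j3
      · have hX1 := (GA w y j j3).mp hS
        have hj2 : 2 ≤ j := by
          by_contra hcon
          have : j = 1 := by omega
          subst this
          rw [FA w y 1 j3, hX1] at h2
          norm_num at h2
        rw [if_neg (hupF (Or.inl j3)), if_neg (hdnF (Or.inr ⟨hX1, hj2⟩))]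
        omega
      · have hX1 := (GB w y j j3).mp hS
        rw [if_neg (hupF (Or.inr (by omega))), if_neg (hdnF (Or.inl j3))]
        omega
  refine ⟨?_, ?_, ?_, ?_, ?_, ?_, ?_, ?_, ?_, ?_, ?_⟩
  · intro v hv
    obtain ⟨w, y, rfl⟩ := hrep v
    obtain ⟨hQ, y1, y2⟩ := (GW w y).mp hv
    have hwy := hwall y (by omega) (by omega)
    exact (hbox w y).mpr ⟨H.bx _ hQ, hwy.1, hwy.2⟩
  · intro v hv
    obtain ⟨w, y, rfl⟩ := hrep v
    obtain ⟨hQ, y1, y2⟩ := (GW w y).mp hv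
    obtain ⟨j, j1, j2, j3⟩ := hj _ y1 y2
    have hX := H.sgr j hQ
    have p1 := hpos j j1
    have p2 := hmono j j2
    have p3 := hk' j
    rcases j3 with j3 | j3
    · rw [FA w y j j3]; omega
    · rw [FB w y j j3]; omega
  · obtain ⟨y, hy⟩ := hsur
    obtain ⟨w, hw1, hw2⟩ := H.sgl J
    refine ⟨Fin.snoc (α := fun _ => ℤ) w y, (GW w y).mpr ⟨hw1, by omega, by omega⟩, ?_⟩
    rw [FB w y J hy, hw2]
    have := hk' J
    omega
  · intro v hv hf hS
    obtain ⟨w, y, rfl⟩ := hrep v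
    obtain ⟨hQ, y1, y2⟩ := (GW w y).mp hv
    obtain ⟨j, j1, j2, j3⟩ := hj _ y1 y2
    have p2 := hmono j j2
    have p3 := hk' j
    rcases j3 with j3 | j3
    · rw [FA w y j j3, (GA w y j j3).mp hS] at hf; omega
    · have := (GB w y j j3).mp hS
      rw [FB w y j j3, this.1] at hf; omega
  · intro v hv hf
    obtain ⟨w, y, rfl⟩ := hrep v
    obtain ⟨hQ, y1, y2⟩ := (GW w y).mp hv
    obtain ⟨j, j1, j2, j3⟩ := hj _ y1 y2
    have hX := H.sgr j hQ
    have p1 := hpos j j1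
    rcases j3 with j3 | j3
    · rw [GA w y j j3]
      rw [FA w y j j3] at hf; omega
    · rw [FB w y j j3] at hf; omega
  · intro v hv hS
    obtain ⟨w, y, rfl⟩ := hrep v
    convert (low w y hv).2 hS
  · intro v hv hS
    obtain ⟨w, y, rfl⟩ := hrep v
    convert (low w y hv).1
  · intro v hv hS
    obtain ⟨w, y, rfl⟩ := hrep v
    convert (high w y hv).1
  · intro v hv hS h2
    obtain ⟨w, y, rfl⟩ := hrep v
    convert (high w y hv).2 hS h2
  · intro v hv hS
    obtain ⟨w, y, rfl⟩ := hrep v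
    convert (high w y hv).1
  · intro v hv hS
    obtain ⟨w, y, rfl⟩ := hrep v
    obtain ⟨hQ, y1, y2⟩ := (GW w y).mp hv
    obtain ⟨j, j1, j2, j3⟩ := hj _ y1 y2
    obtain ⟨a, b, ⟨ha1, ha⟩, ⟨hb1, hb⟩, hne, hab⟩ := H.sgk j _ hQ
    have hX := H.sgr j hQ
    have hwy := hwall y (by omega) (by omega)
    have hgoal : ((nbr (Fin.snoc (α := fun _ => ℤ) w y : Fin (d + 1) → ℤ)).filter
        (fun u => u ∈ box (d + 1) n ∧ (PW J Q hh u → ¬ PS J L q hh u →
          Pf L q hh u + 1 < Pf L q hh (Fin.snoc (α := fun _ => ℤ) w y)))).card ≤ 2 * d := by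
      rw [cs]
      have c1 := cntR (n := n) (Q := Q) (w := w) (a := a) (b := b)
        (fun w' => Fin.snoc (α := fun _ => ℤ) w' y ∈ box (d + 1) n ∧
          (PW J Q hh (Fin.snoc (α := fun _ => ℤ) w' y) →
          ¬ PS J L q hh (Fin.snoc (α := fun _ => ℤ) w' y) →
          Pf L q hh (Fin.snoc (α := fun _ => ℤ) w' y) + 1 <
            Pf L q hh (Fin.snoc (α := fun _ => ℤ) w y)))
        (fun u hu hu' hQu => ⟨(hbox u y).mpr ⟨hu', hwy.1, hwy.2⟩,
          fun h => absurd ((GW u y).mp h).1 hQu⟩) ha1 hb1 hne hab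
      rw [if_neg (by
        rintro ⟨h1, h2⟩
        rcases ha with ⟨a1, a2⟩ | ⟨a1, a2, a3⟩
        · exact a2 ((hbox _ _).mp h1).1
        · rcases j3 with j3 | j3
          · have h3 := h2 ((GW _ _).mpr ⟨a2, y1, y2⟩) (by rw [GA a y j j3]; omega)
            rw [FA w y j j3, FA a y j j3] at h3; omega
          · have h3 := h2 ((GW _ _).mpr ⟨a2, y1, y2⟩) (by rw [GB a y j j3]; omega)
            rw [FB w y j j3, FB a y j j3] at h3; omega)] at c1
      rcases j3 with j3 | j3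
      · -- lower row of the pair
        rw [GA w y j j3] at hS
        rw [if_neg (by
          rintro ⟨h1, h2⟩
          have h3 := h2 ((GW w (y + ε)).mpr ⟨hQ, by rw [hup]; omega, by rw [hup]; omega⟩)
            (by rw [GB w (y + ε) j (by rw [hup]; omega)]; omega)
          rw [FA w y j j3, FB w (y + ε) j (by rw [hup]; omega)] at h3
          omega)]
        split_ifs at c1 ⊢ <;> omega
      · rw [GB w y j j3] at hS
        by_cases hX1 : sg L q j w = 1
        · rw [if_neg (by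
            rintro ⟨h1, h2⟩
            rcases hb with ⟨a1, a2⟩ | ⟨a1, a2, a3⟩
            · exact a2 ((hbox _ _).mp h1).1
            · omega)] at c1
          split_ifs <;> omega
        · have hd' : ¬ (Fin.snoc (α := fun _ => ℤ) w (y - ε) ∈ box (d + 1) n ∧
              (PW J Q hh (Fin.snoc (α := fun _ => ℤ) w (y - ε)) →
              ¬ PS J L q hh (Fin.snoc (α := fun _ => ℤ) w (y - ε)) →
              Pf L q hh (Fin.snoc (α := fun _ => ℤ) w (y - ε)) + 1 <
                Pf L q hh (Fin.snoc (α := fun _ => ℤ) w y))) := by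
            rintro ⟨h1, h2⟩
            have h3 := h2 ((GW w (y - ε)).mpr ⟨hQ, by rw [hdn]; omega, by rw [hdn]; omega⟩)
              (by rw [GA w (y - ε) j (by rw [hdn]; omega)]; exact hX1)
            rw [FB w y j j3, FA w (y - ε) j (by rw [hdn]; omega)] at h3
            omega
          rw [if_neg hd']
          split_ifs at c1 ⊢ <;> omega
    convert hgoal

end

end H500G
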