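import Pool.Agent.H500R3.Boot.Sheet

/-!
Induced paths between two boundary vertices of the grid, and slow percolation for `r = 2d - 2`.
-/

namespace H500G

variable {d : ℕ}

theorem step_up' {N L : ℤ} {P : (Fin d → ℤ) → Prop} {ρ : (Fin d → ℤ) → ℤ} (hL : 1 ≤ L)
    (H : Sn d N L P ρ) {K : ℤ} (hK : 0 ≤ K) (hKN : 2 * K + 2 ≤ N) (hKo : K % 2 = 1)
    {s : Fin d → ℤ} (hs1 : P s) (hs2 : ρ s = 1) :
    ∃ P' ρ', Sn (d + 1) N ((K + 1) * (L + 1) - 1) P' ρ' ∧
      P' (Fin.snoc (α := fun _ => ℤ) s 2) ∧ ρ' (Fin.snoc (α := fun _ => ℤ) s 2) = 1 ∧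
      P' (Fin.snoc (α := fun _ => ℤ) s (2 * K + 2)) ∧
      ρ' (Fin.snoc (α := fun _ => ℤ) s (2 * K + 2)) = (K + 1) * (L + 1) - 1 := by
  obtain ⟨e, he1, he2⟩ := H.sur L hL le_rfl
  set c : ℤ → (Fin d → ℤ) := fun k => if k % 2 = 0 then e else s with hc
  set σ : ℤ → (Fin d → ℤ) → ℤ := fun k w => if k % 2 = 0 then ρ w else L + 1 - ρ w with hσ
  set P' : (Fin (d + 1) → ℤ) → Prop := fun v => ∃ k, 0 ≤ k ∧
    ((k ≤ K ∧ v (Fin.last d) = 2 * k + 2 ∧ P (Fin.init v)) ∨
     (k < K ∧ v (Fin.last d) = 2 * k + 3 ∧ Fin.init v = c k)) with hP'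
  set ρ' : (Fin (d + 1) → ℤ) → ℤ := fun v =>
    if v (Fin.last d) % 2 = 0 then
      ((v (Fin.last d) - 2) / 2) * (L + 1) + σ ((v (Fin.last d) - 2) / 2) (Fin.init v)
    else ((v (Fin.last d) - 3) / 2 + 1) * (L + 1) with hρ'
  have hcP : ∀ k, P (c k) := by
    intro k; rw [hc]; simp only; split_ifs
    · exact he1
    · exact hs1
  have hσr : ∀ k w, P w → 1 ≤ σ k w ∧ σ k w ≤ L := by
    intro k w hw
    have := H.lo w hw
    rw [hσ]; simp only; split_ifs <;> omega
  have hσi : ∀ k w w', P w → P w' → σ k w = σ k w' → w = w' := by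
    intro k w w' hw hw' h
    apply H.inj w w' hw hw'
    rw [hσ] at h
    simp only at h
    split_ifs at h <;> omega
  have hσa : ∀ k w w', P w → P w' → (adj w w' ↔ |σ k w - σ k w'| = 1) := by
    intro k w w' hw hw'
    rw [H.ad w w' hw hw', hσ]
    simp only
    split_ifs
    · rfl
    · have : L + 1 - ρ w - (L + 1 - ρ w') = -(ρ w - ρ w') := by ring
      rw [this, abs_neg]
  have hσL : ∀ k w, P w → (w = c k ↔ σ k w = L) := by
    intro k w hw
    rw [hc, hσ]
    simp only
    split_ifs
    · exact ⟨fun h => by rw [h, he2], fun h => H.inj _ _ hw he1 (by omega)⟩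
    · exact ⟨fun h => by rw [h, hs2]; omega, fun h => H.inj _ _ hw hs1 (by omega)⟩
  have hσ1 : ∀ k w, P w → (w = c k ↔ σ (k + 1) w = 1) := by
    intro k w hw
    rw [hc, hσ]
    simp only
    rcases Int.emod_two_eq_zero_or_one k with h0 | h0
    · have h1 : ¬ (k + 1) % 2 = 0 := by omega
      rw [if_pos h0, if_neg h1]
      exact ⟨fun h => by rw [h, he2]; omega, fun h => H.inj _ _ hw he1 (by omega)⟩
    · have h1 : (k + 1) % 2 = 0 := by omega
      have h2 : ¬ k % 2 = 0 := by omega
      rw [if_neg h2, if_pos h1]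
      exact ⟨fun h => by rw [h, hs2], fun h => H.inj _ _ hw hs1 (by omega)⟩
  have re : ∀ v k, v (Fin.last d) = 2 * k + 2 → ρ' v = k * (L + 1) + σ k (Fin.init v) := by
    intro v k hv
    rw [hρ']
    simp only
    rw [if_pos (by omega)]
    have : (v (Fin.last d) - 2) / 2 = k := by omega
    rw [this]
  have ro : ∀ v k, v (Fin.last d) = 2 * k + 3 → ρ' v = k * (L + 1) + (L + 1) := by
    intro v k hv
    rw [hρ']
    simp only
    rw [if_neg (by omega)]
    have : (v (Fin.last d) - 3) / 2 = k := by omega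
    rw [this]
    ring
  have mul_lt : ∀ k k' : ℤ, k < k' → k * (L + 1) + (L + 1) ≤ k' * (L + 1) := by
    intro k k' h
    nlinarith
  have mul_lt2 : ∀ k k' : ℤ, k + 1 < k' → k * (L + 1) + 2 * (L + 1) ≤ k' * (L + 1) := by
    intro k k' h
    nlinarith
  have abs1 : ∀ x : ℤ, |x| = 1 ↔ x = 1 ∨ x = -1 := fun x => abs_eq (by norm_num)
  refine ⟨P', ρ', ⟨?_, ?_, ?_, ?_, ?_⟩, ?_⟩
  · -- range
    rintro v ⟨k, hk, h⟩ i
    induction i using Fin.lastCases with
    | last => rcases h with ⟨h1, h2, -⟩ | ⟨h1, h2, -⟩ <;> omega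
    | cast i =>
      rcases h with ⟨-, -, h3⟩ | ⟨-, -, h3⟩
      · exact H.rng _ h3 i
      · have := H.rng _ (hcP k) i
        rw [← h3] at this
        exact this
  · -- values
    rintro v ⟨k, hk, ⟨h1, h2, h3⟩ | ⟨h1, h2, h3⟩⟩
    · rw [re v k h2]
      have h4 := hσr k _ h3
      have h5 : 0 ≤ k * (L + 1) := by positivity
      have h6 : k * (L + 1) ≤ K * (L + 1) := mul_le_mul_of_nonneg_right h1 (by omega)
      have h7 : (K + 1) * (L + 1) = K * (L + 1) + (L + 1) := by ring
      omega
    · rw [ro v k h2]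
      have h5 : 0 ≤ k * (L + 1) := by positivity
      have h6 := mul_lt k K h1
      have h7 : (K + 1) * (L + 1) = K * (L + 1) + (L + 1) := by ring
      omega
  · -- injectivity
    rintro u v ⟨k, hk, ⟨h1, h2, h3⟩ | ⟨h1, h2, h3⟩⟩ ⟨k', hk', ⟨g1, g2, g3⟩ | ⟨g1, g2, g3⟩⟩ he
    · rw [re u k h2, re v k' g2] at he
      have a1 := hσr k _ h3
      have a2 := hσr k' _ g3
      rcases lt_trichotomy k k' with h | h | h
      · have := mul_lt k k' h; omega
      · subst h
        exact ext_split (hσi k _ _ h3 g3 (by omega)) (by omega)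
      · have := mul_lt k' k h; omega
    · rw [re u k h2, ro v k' g2] at he
      have a1 := hσr k _ h3
      rcases lt_trichotomy k k' with h | h | h
      · have := mul_lt k k' h; omega
      · subst h; omega
      · have := mul_lt k' k h; omega
    · rw [ro u k h2, re v k' g2] at he
      have a1 := hσr k' _ g3
      rcases lt_trichotomy k k' with h | h | h
      · have := mul_lt k k' h; omega
      · subst h; omega
      · have := mul_lt k' k h; omega
    · rw [ro u k h2, ro v k' g2] at he
      rcases lt_trichotomy k k' with h | h | h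
      · have := mul_lt k k' h; omega
      · subst h
        exact ext_split (by rw [h3, g3]) (by omega)
      · have := mul_lt k' k h; omega
  · -- adjacency
    have mixed : ∀ u v k k', 0 ≤ k → 0 ≤ k' → k ≤ K → u (Fin.last d) = 2 * k + 2 →
        P (Fin.init u) → v (Fin.last d) = 2 * k' + 3 → Fin.init v = c k' →
        (adj u v ↔ |ρ' u - ρ' v| = 1) := by
      intro u v k k' hk hk' h1 h2 h3 g2 g3
      rw [adj_split, re u k h2, ro v k' g2]
      have a1 := hσr k _ h3
      constructor
      · rintro (⟨-, q⟩ | ⟨q1, q2⟩)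
        · omega
        · rw [abs1] at q2 ⊢
          rw [g3] at q1
          rcases q2 with q2 | q2
          · have : k = k' + 1 := by omega
            subst this
            have := (hσ1 k' _ h3).mp q1
            rw [this]
            have e7 : (k' + 1) * (L + 1) = k' * (L + 1) + (L + 1) := by ring
            omega
          · have : k = k' := by omega
            subst this
            have := (hσL k _ h3).mp q1
            omega
      · intro q
        rw [abs1] at q
        right
        rcases lt_trichotomy k k' with h | h | h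
        · have := mul_lt k k' h; omega
        · subst h
          have q1 := (hσL k _ h3).mpr (by omega)
          exact ⟨by rw [q1, g3], by rw [abs1]; omega⟩
        · rcases lt_or_eq_of_le (show k' + 1 ≤ k by omega) with h' | h'
          · have := mul_lt2 k' k h'; omega
          · subst h'
            have e7 : (k' + 1) * (L + 1) = k' * (L + 1) + (L + 1) := by ring
            have q1 := (hσ1 k' _ h3).mpr (by omega)
            exact ⟨by rw [q1, g3], by rw [abs1]; omega⟩
    rintro u v ⟨k, hk, ⟨h1, h2, h3⟩ | ⟨h1, h2, h3⟩⟩ ⟨k', hk', ⟨g1, g2, g3⟩ | ⟨g1, g2, g3⟩⟩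
    · rw [adj_split, re u k h2, re v k' g2]
      have a1 := hσr k _ h3
      have a2 := hσr k' _ g3
      constructor
      · rintro (⟨q1, q2⟩ | ⟨q1, q2⟩)
        · have : k = k' := by omega
          subst this
          have := (hσa k _ _ h3 g3).mp q1
          have e7 : k * (L + 1) + σ k (Fin.init u) - (k * (L + 1) + σ k (Fin.init v)) =
            σ k (Fin.init u) - σ k (Fin.init v) := by ring
          rw [e7]; exact this
        · rw [abs1] at q2; omega
      · intro q
        left
        rcases lt_trichotomy k k' with h | h | h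
        · have := mul_lt k k' h
          rw [abs1] at q; omega
        · subst h
          refine ⟨(hσa k _ _ h3 g3).mpr ?_, by omega⟩
          have e7 : k * (L + 1) + σ k (Fin.init u) - (k * (L + 1) + σ k (Fin.init v)) =
            σ k (Fin.init u) - σ k (Fin.init v) := by ring
          rwa [e7] at q
        · have := mul_lt k' k h
          rw [abs1] at q; omega
    · exact mixed u v k k' hk hk' h1 h2 h3 g2 g3
    · have := mixed v u k' k hk' hk g1 g2 g3 h2 h3
      rw [abs_sub_comm, ← this]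
      exact ⟨adj_symm, adj_symm⟩
    · rw [adj_split, ro u k h2, ro v k' g2]
      constructor
      · rintro (⟨q1, q2⟩ | ⟨q1, q2⟩)
        · have : k = k' := by omega
          subst this
          rw [h3, g3] at q1
          exact absurd q1 (adj_irrefl _)
        · rw [abs1] at q2; omega
      · intro q
        rw [abs1] at q
        exfalso
        rcases lt_trichotomy k k' with h | h | h
        · have := mul_lt k k' h; omega
        · subst h; omega
        · have := mul_lt k' k h; omega
  · -- surjectivity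
    intro j hj1 hj2
    obtain ⟨k, hk⟩ : ∃ k, k = j / (L + 1) := ⟨_, rfl⟩
    obtain ⟨m, hm⟩ : ∃ m, m = j % (L + 1) := ⟨_, rfl⟩
    have hM : (0 : ℤ) < L + 1 := by omega
    have e1 : j = k * (L + 1) + m := by
      rw [hk, hm, mul_comm]; exact (Int.mul_ediv_add_emod j (L + 1)).symm
    have e2 : 0 ≤ m := by rw [hm]; exact Int.emod_nonneg _ hM.ne'
    have e3 : m < L + 1 := by rw [hm]; exact Int.emod_lt_of_pos _ hM
    have e4 : 0 ≤ k := by rw [hk]; exact Int.ediv_nonneg (by omega) hM.le
    have e5 : k ≤ K := by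
      by_contra hcon
      have := mul_lt K k (by omega)
      have h7 : (K + 1) * (L + 1) = K * (L + 1) + (L + 1) := by ring
      omega
    rcases eq_or_lt_of_le e2 with h | h
    · have hk1 : 1 ≤ k := by
        by_contra hcon
        have : k = 0 := by omega
        rw [this, ← h] at e1
        omega
      refine ⟨Fin.snoc (α := fun _ => ℤ) (c (k - 1)) (2 * (k - 1) + 3), ⟨k - 1, by omega,
        Or.inr ⟨by omega, by rw [Fin.snoc_last], by rw [Fin.init_snoc]⟩⟩, ?_⟩
      rw [ro _ (k - 1) (by rw [Fin.snoc_last]), e1, ← h]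
      ring
    · obtain ⟨w, hw1, hw2⟩ : ∃ w, P w ∧ σ k w = m := by
        rw [hσ]
        simp only
        split_ifs
        · exact H.sur m (by omega) (by omega)
        · obtain ⟨w, hw1, hw2⟩ := H.sur (L + 1 - m) (by omega) (by omega)
          exact ⟨w, hw1, by omega⟩
      refine ⟨Fin.snoc (α := fun _ => ℤ) w (2 * k + 2), ⟨k, e4,
        Or.inl ⟨e5, by rw [Fin.snoc_last], by rw [Fin.init_snoc]; exact hw1⟩⟩, ?_⟩
      rw [re _ k (by rw [Fin.snoc_last]), Fin.init_snoc, hw2, e1]
  · refine ⟨⟨0, le_rfl,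
      Or.inl ⟨hK, by rw [Fin.snoc_last]; norm_num, by rw [Fin.init_snoc]; exact hs1⟩⟩, ?_,
      ⟨K, hK, Or.inl ⟨le_rfl, by rw [Fin.snoc_last], by rw [Fin.init_snoc]; exact hs1⟩⟩, ?_⟩
    · rw [re _ 0 (by rw [Fin.snoc_last]; norm_num), Fin.init_snoc, hσ]
      simp [hs2]
    · rw [re _ K (by rw [Fin.snoc_last]), Fin.init_snoc, hσ]
      simp only
      rw [if_neg (by omega), hs2]
      ring


lemma const_snoc (d : ℕ) : (Fin.snoc (α := fun _ => ℤ) (fun _ => 2) 2 : Fin (d + 1) → ℤ) =
    fun _ => 2 := by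
  funext i
  induction i using Fin.lastCases with
  | last => rw [Fin.snoc_last]
  | cast i => rw [Fin.snoc_castSucc]

theorem snakes' {N K : ℤ} (hK : 0 ≤ K) (hKN : 2 * K + 2 ≤ N) (hKo : K % 2 = 1) : ∀ d : ℕ,
    ∃ P ρ, Sn d N (2 * (K + 1) ^ d - 1) P ρ ∧ P (fun _ => 2) ∧ ρ (fun _ => 2) = 1 := by
  intro d
  induction d with
  | zero =>
    refine ⟨fun _ => True, fun _ => 1, ?_, trivial, rfl⟩
    have e : (2 * (K + 1) ^ 0 - 1 : ℤ) = 1 := by norm_num
    rw [e]
    exact base N
  | succ d ih =>
    obtain ⟨P, ρ, H, h2, h3⟩ := ih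
    have h1 : (1 : ℤ) ≤ (K + 1) ^ d := one_le_pow₀ (by omega)
    obtain ⟨P', ρ', H', g1, g2, -⟩ := step_up' (by omega) H hK hKN hKo h2 h3
    refine ⟨P', ρ', ?_, ?_, ?_⟩
    · have e : (K + 1) * (2 * (K + 1) ^ d - 1 + 1) - 1 = 2 * (K + 1) ^ (d + 1) - 1 := by ring
      rwa [e] at H'
    · rw [const_snoc] at g1; exact g1
    · rw [const_snoc] at g2; exact g2

lemma bd1 {p : Fin d → ℤ} {i : Fin d} (hp : p i = 2) {u : Fin d → ℤ} (hu : ∀ j, 2 ≤ u j) :
    adj (Function.update p i 1) u ↔ u = p := by
  constructor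
  · rintro ⟨j, h1, h2⟩
    have hji : j = i := by
      by_contra hne
      have h3 := h2 i (Ne.symm hne)
      rw [Function.update_self] at h3
      have := hu i
      omega
    subst hji
    rw [Function.update_self, abs_eq (by norm_num)] at h1
    funext l
    by_cases hl : l = j
    · subst hl
      have := hu l
      omega
    · have := h2 l hl
      rw [Function.update_of_ne hl] at this
      exact this.symm
  · rintro rfl
    refine ⟨i, ?_, fun j hj => by rw [Function.update_of_ne hj]⟩
    rw [Function.update_self, hp]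
    norm_num

lemma bd2 {n : ℕ} {N : ℤ} (hN : N + 1 ≤ n) {p : Fin d → ℤ} (hp : ∀ j, 2 ≤ p j ∧ p j ≤ N)
    {i : Fin d} (hpi : p i = 2) {u : Fin d → ℤ} (h : adj u (Function.update p i 1))
    (hu : u ∉ box d n) : u = Function.update p i 0 := by
  obtain ⟨j, h1, h2⟩ := h
  have hj : j = i := by
    by_contra hne
    apply hu
    rw [mem_box]
    intro l
    have h3 := hp l
    have h6 := hp i
    by_cases hl : l = j
    · subst hl
      rw [Function.update_of_ne hne, abs_eq (by norm_num)] at h1
      omega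
    · rw [h2 l hl]
      by_cases hli : l = i
      · subst hli; rw [Function.update_self]; omega
      · rw [Function.update_of_ne hli]; omega
  subst hj
  rw [Function.update_self, abs_eq (by norm_num)] at h1
  rcases h1 with h1 | h1
  · exfalso
    apply hu
    rw [mem_box]
    intro l
    have h3 := hp l
    have h6 := hp j
    by_cases hl : l = j
    · subst hl; omega
    · rw [h2 l hl, Function.update_of_ne hl]; omega
  · funext l
    by_cases hl : l = j
    · subst hl; rw [Function.update_self]; omega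
    · rw [h2 l hl, Function.update_of_ne hl, Function.update_of_ne hl]

lemma bd3 {n : ℕ} (p : Fin d → ℤ) (i : Fin d) :
    adj (Function.update p i 0) (Function.update p i 1) ∧ Function.update p i 0 ∉ box d n := by
  refine ⟨⟨i, by rw [Function.update_self, Function.update_self]; norm_num, fun j hj => by
    rw [Function.update_of_ne hj, Function.update_of_ne hj]⟩, fun h => ?_⟩
  rw [mem_box] at h
  have := h i
  rw [Function.update_self] at this
  omega

lemma bd4 {n : ℕ} {N : ℤ} (hN : N + 1 ≤ n) {p : Fin d → ℤ} (hp : ∀ j, 2 ≤ p j ∧ p j ≤ N)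
    (i : Fin d) : Function.update p i 1 ∈ box d n := by
  rw [mem_box]
  intro j
  have h3 := hp j
  have h6 := hp i
  by_cases hj : j = i
  · subst hj; rw [Function.update_self]; omega
  · rw [Function.update_of_ne hj]; omega

/-- add the two boundary vertices -/
theorem road {n : ℕ} {N L : ℤ} {P : (Fin d → ℤ) → Prop} {ρ : (Fin d → ℤ) → ℤ} (hL : 2 ≤ L)
    (hN : N + 1 ≤ n) (H : Sn d N L P ρ) {s e : Fin d → ℤ} (hs : P s) (hs1 : ρ s = 1) (he : P e)
    (he1 : ρ e = L) {i j : Fin d} (hij : i ≠ j) (hsi : s i = 2) (hej : e j = 2)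
    (hnadj : ¬ adj (Function.update s i 1) (Function.update e j 1)) :
    ∃ Q q, Rd d n (L + 2) Q q := by
  classical
  set b1 := Function.update s i 1 with hb1
  set b2 := Function.update e j 1 with hb2
  have hin : ∀ v, P v → v ∈ box d n := by
    intro v hv
    rw [mem_box]
    intro l
    have := H.rng v hv l
    omega
  have n1 : ∀ v, P v → v ≠ b1 := by
    rintro v hv rfl
    have := (H.rng _ hv i).1
    rw [hb1, Function.update_self] at this
    omega
  have n2 : ∀ v, P v → v ≠ b2 := by
    rintro v hv rfl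
    have := (H.rng _ hv j).1
    rw [hb2, Function.update_self] at this
    omega
  have n12 : b1 ≠ b2 := by
    intro h
    have h3 := congrFun h i
    rw [hb1, hb2, Function.update_self, Function.update_of_ne hij] at h3
    have := (H.rng _ he i).1
    omega
  have a1 : ∀ v, P v → (adj b1 v ↔ v = s) := fun v hv => bd1 hsi fun l => (H.rng v hv l).1
  have a2 : ∀ v, P v → (adj b2 v ↔ v = e) := fun v hv => bd1 hej fun l => (H.rng v hv l).1
  set Q : (Fin d → ℤ) → Prop := fun v => P v ∨ v = b1 ∨ v = b2 with hQ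
  set q : (Fin d → ℤ) → ℤ := fun v => if v = b1 then 1 else if v = b2 then L + 2 else ρ v + 1
    with hq
  have q1 : q b1 = 1 := by rw [hq]; simp
  have q2 : q b2 = L + 2 := by rw [hq]; simp [n12.symm]
  have q3 : ∀ v, P v → q v = ρ v + 1 := by
    intro v hv; rw [hq]; simp [n1 v hv, n2 v hv]
  refine ⟨Q, q, ⟨?_, ?_, ⟨b1, Or.inr (Or.inl rfl), q1⟩, ⟨b2, Or.inr (Or.inr rfl), q2⟩, ?_⟩⟩
  · rintro v (hv | rfl | rfl)
    · exact hin v hv
    · exact bd4 hN (H.rng s hs) i
    · exact bd4 hN (H.rng e he) j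
  · rintro v (hv | rfl | rfl)
    · rw [q3 v hv]; have := H.lo v hv; omega
    · rw [q1]; omega
    · rw [q2]; omega
  · rintro w (hw | rfl | rfl)
    · -- an inner vertex
      have hl := H.lo w hw
      obtain ⟨a, ha1, ha2⟩ : ∃ a, adj a w ∧ Q a ∧ q a = q w + 1 := by
        by_cases h : ρ w = L
        · refine ⟨b2, ?_, Or.inr (Or.inr rfl), by rw [q2, q3 w hw]; omega⟩
          rw [a2 w hw]
          exact H.inj w e hw he (by omega)
        · obtain ⟨a, h1, h2⟩ := H.sur (ρ w + 1) (by omega) (by omega)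
          refine ⟨a, ?_, Or.inl h1, by rw [q3 a h1, q3 w hw]; omega⟩
          rw [H.ad a w h1 hw, h2]
          simp
      obtain ⟨b, hb1', hb2'⟩ : ∃ b, adj b w ∧ Q b ∧ q b = q w - 1 := by
        by_cases h : ρ w = 1
        · refine ⟨b1, ?_, Or.inr (Or.inl rfl), by rw [q1, q3 w hw]; omega⟩
          rw [a1 w hw]
          exact H.inj w s hw hs (by omega)
        · obtain ⟨a, h1, h2⟩ := H.sur (ρ w - 1) (by omega) (by omega)
          refine ⟨a, ?_, Or.inl h1, by rw [q3 a h1, q3 w hw]; omega⟩
          rw [H.ad a w h1 hw, h2]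
          simp
      have huniq : ∀ u u', Q u → Q u' → q u = q u' → u = u' := by
        rintro u u' (hu | rfl | rfl) (hu' | rfl | rfl) h
        · rw [q3 u hu, q3 u' hu'] at h; exact H.inj u u' hu hu' (by omega)
        · rw [q3 u hu, q1] at h; have := H.lo u hu; omega
        · rw [q3 u hu, q2] at h; have := H.lo u hu; omega
        · rw [q3 u' hu', q1] at h; have := H.lo u' hu'; omega
        · rfl
        · rw [q1, q2] at h; omega
        · rw [q3 u' hu', q2] at h; have := H.lo u' hu'; omega
        · rw [q1, q2] at h; omega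
        · rfl
      refine ⟨a, b, ⟨ha1, Or.inr ⟨by rw [q3 w hw]; omega, ha2.1, ha2.2⟩⟩,
        ⟨hb1', Or.inr ⟨by rw [q3 w hw]; omega, hb2'.1, hb2'.2⟩⟩, ?_, ?_⟩
      · rintro rfl
        have h5 := ha2.2
        have h6 := hb2'.2
        omega
      · intro u hu hu'
        have hub : u ∈ box d n := nbr_box hN (H.rng w hw) hu
        have hQu : Q u := by
          rcases hu' with h | h
          · exact absurd hub h
          · exact h
        have key : q u = q w + 1 ∨ q u = q w - 1 := by
          rcases hQu with h | rfl | rfl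
          · have h5 := (H.ad u w h hw).mp hu
            rw [abs_eq (by norm_num)] at h5
            rw [q3 u h, q3 w hw]
            omega
          · have h5 := (a1 w hw).mp hu
            right
            rw [q1, q3 w hw, h5, hs1]; norm_num
          · have h5 := (a2 w hw).mp hu
            left
            rw [q2, q3 w hw, h5, he1]; ring
        rcases key with h | h
        · left; exact huniq u a hQu ha2.1 (by rw [h, ha2.2])
        · right; exact huniq u b hQu hb2'.1 (by rw [h, hb2'.2])
    · -- the first vertex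
      obtain ⟨c1, c2⟩ := bd3 (n := n) s i
      refine ⟨s, Function.update s i 0, ⟨adj_symm ((a1 s hs).mpr rfl),
        Or.inr ⟨by rw [q1]; omega, Or.inl hs, by rw [q3 s hs, q1, hs1]⟩⟩,
        ⟨c1, Or.inl ⟨q1, c2⟩⟩, ?_, ?_⟩
      · intro h
        apply c2
        rw [← h]
        exact hin s hs
      · intro u hu hu'
        by_cases hub : u ∈ box d n
        · left
          rcases hu' with h | h | rfl | rfl
          · exact absurd hub h
          · exact (a1 u h).mp (adj_symm hu)
          · exact absurd hu (adj_irrefl _)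
          · exact absurd (adj_symm hu) hnadj
        · right
          exact bd2 hN (H.rng s hs) hsi hu hub
    · -- the last vertex
      obtain ⟨c1, c2⟩ := bd3 (n := n) e j
      refine ⟨Function.update e j 0, e, ⟨c1, Or.inl ⟨q2, c2⟩⟩, ⟨adj_symm ((a2 e he).mpr rfl),
        Or.inr ⟨by rw [q2]; omega, Or.inl he, by rw [q3 e he, q2, he1]; ring⟩⟩, ?_, ?_⟩
      · intro h
        apply c2
        rw [h]
        exact hin e he
      · intro u hu hu'
        by_cases hub : u ∈ box d n
        · right
          rcases hu' with h | h | rfl | rfl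
          · exact absurd hub h
          · exact (a2 u h).mp (adj_symm hu)
          · exact absurd hu hnadj
          · exact absurd hu (adj_irrefl _)
        · left
          exact bd2 hN (H.rng e he) hej hu hub

/-- the lower bound for `r = 2 (d + 1)` in dimension `d + 2` -/
theorem lower2 {n : ℕ} (hn : 5 ≤ n) (d : ℕ) : ∃ t ∈ times (d + 2 + 1) (2 * (d + 2)) n,
    ((n - 1) / 2) * (2 * (2 * ((n - 1) / 4)) ^ (d + 2) + 2) ≤ t := by
  obtain ⟨K, hK⟩ : ∃ K : ℤ, K = 2 * (((n - 1) / 4 : ℕ) : ℤ) - 1 := ⟨_, rfl⟩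
  have hK0 : 0 ≤ K := by omega
  have hKo : K % 2 = 1 := by omega
  have hKN : 2 * K + 2 ≤ (n : ℤ) - 1 := by omega
  obtain ⟨P, ρ, H, h2, h3⟩ := snakes' hK0 hKN hKo (d + 1)
  have h1 : (1 : ℤ) ≤ (K + 1) ^ (d + 1) := one_le_pow₀ (by omega)
  obtain ⟨P', ρ', H', g1, g2, g3, g4⟩ := step_up' (by omega) H hK0 hKN hKo h2 h3
  have e : (K + 1) * (2 * (K + 1) ^ (d + 1) - 1 + 1) - 1 = 2 * (K + 1) ^ (d + 2) - 1 := by ring
  rw [e] at H' g4
  have h4 : (2 : ℤ) ≤ (K + 1) ^ (d + 2) := by
    calc (2 : ℤ) ≤ K + 1 := by omega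
      _ = (K + 1) ^ 1 := (pow_one _).symm
      _ ≤ (K + 1) ^ (d + 2) := pow_le_pow_right₀ (by omega) (by omega)
  obtain ⟨Q, q, R⟩ := road (n := n) (i := Fin.last (d + 1)) (j := (0 : Fin (d + 1)).castSucc)
    (by omega) (by omega) H' g1 g2 g3 g4 (Fin.castSucc_lt_last _).ne' (by rw [Fin.snoc_last])
    (by rw [Fin.snoc_castSucc]) (by
      rintro ⟨l, -, hl⟩
      by_cases h : l = Fin.last (d + 1)
      · have h5 := hl (0 : Fin (d + 1)).castSucc (by rw [h]; exact (Fin.castSucc_lt_last _).ne)
        rw [Function.update_of_ne (Fin.castSucc_lt_last _).ne, Function.update_self,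
          Fin.snoc_castSucc] at h5
        omega
      · have h5 := hl (Fin.last (d + 1)) (Ne.symm h)
        rw [Function.update_self, Function.update_of_ne (Fin.castSucc_lt_last _).ne',
          Fin.snoc_last] at h5
        omega)
  obtain ⟨m, hm⟩ : ∃ m : ℤ, m = (((n - 1) / 2 : ℕ) : ℤ) := ⟨_, rfl⟩
  obtain ⟨t, ht, h5⟩ := sheet (n := n) (z0 := (n : ℤ) - 2 * m) (m := m) (by omega) R (by omega)
    (by omega) (by ring)
  refine ⟨t, ht, ?_⟩
  have h6 : K + 1 = 2 * (((n - 1) / 4 : ℕ) : ℤ) := by omega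
  have h7 : 2 * (K + 1) ^ (d + 2) - 1 + 2 + 1 = 2 * (K + 1) ^ (d + 2) + 2 := by ring
  rw [h7, h6, hm] at h5
  have h8 : (((((n - 1) / 2) * (2 * (2 * ((n - 1) / 4)) ^ (d + 2) + 2) : ℕ)) : ℤ) ≤ t := by
    refine le_trans (le_of_eq ?_) h5
    push_cast
    ring
  exact_mod_cast h8

end H500G
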