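import Pool.Agent.H500R3.Boot.GenLow

/-!
Sheets over induced paths: slow percolation with threshold `2d` in `[n]^(d+1)`.
-/

namespace H500G

variable {d : ℕ}

/-- an induced path in `[n]^d` whose two end vertices have one neighbour outside the grid and whose
other vertices have none -/
structure Rd (d n : ℕ) (L : ℤ) (Q : (Fin d → ℤ) → Prop) (q : (Fin d → ℤ) → ℤ) : Prop where
  bx : ∀ v, Q v → v ∈ box d n
  lo : ∀ v, Q v → 1 ≤ q v ∧ q v ≤ L
  fst : ∃ v, Q v ∧ q v = 1
  lst : ∃ v, Q v ∧ q v = L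
  key : ∀ w, Q w → ∃ a b,
    (adj a w ∧ ((q w = L ∧ a ∉ box d n) ∨ (q w < L ∧ Q a ∧ q a = q w + 1))) ∧
    (adj b w ∧ ((q w = 1 ∧ b ∉ box d n) ∨ (1 < q w ∧ Q b ∧ q b = q w - 1))) ∧ a ≠ b ∧
    ∀ u, adj u w → (u ∉ box d n ∨ Q u) → u = a ∨ u = b

/-- direction of the path in the pair number `k` -/
def sg (L : ℤ) (q : (Fin d → ℤ) → ℤ) (k : ℤ) (w : Fin d → ℤ) : ℤ :=
  if k % 2 = 1 then q w else L + 1 - q w

lemma sg_succ (L : ℤ) (q : (Fin d → ℤ) → ℤ) (k : ℤ) (w) :
    sg L q (k + 1) w = L + 1 - sg L q k w := by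
  unfold sg
  split_ifs <;> omega

lemma sg_pred (L : ℤ) (q : (Fin d → ℤ) → ℤ) (k : ℤ) (w) :
    sg L q (k - 1) w = L + 1 - sg L q k w := by
  unfold sg
  split_ifs <;> omega

lemma Rd.sgr {n : ℕ} {L : ℤ} {Q : (Fin d → ℤ) → Prop} {q : (Fin d → ℤ) → ℤ} (H : Rd d n L Q q)
    (k : ℤ) {w} (hw : Q w) : 1 ≤ sg L q k w ∧ sg L q k w ≤ L := by
  have := H.lo w hw
  unfold sg
  split_ifs <;> omega

lemma Rd.sgl {n : ℕ} {L : ℤ} {Q : (Fin d → ℤ) → Prop} {q : (Fin d → ℤ) → ℤ} (H : Rd d n L Q q)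
    (k : ℤ) : ∃ w, Q w ∧ sg L q k w = L := by
  by_cases h : k % 2 = 1
  · obtain ⟨w, h1, h2⟩ := H.lst
    refine ⟨w, h1, ?_⟩
    unfold sg; rw [if_pos h, h2]
  · obtain ⟨w, h1, h2⟩ := H.fst
    refine ⟨w, h1, ?_⟩
    unfold sg; rw [if_neg h, h2]; ring

lemma Rd.sgk {n : ℕ} {L : ℤ} {Q : (Fin d → ℤ) → Prop} {q : (Fin d → ℤ) → ℤ} (H : Rd d n L Q q)
    (k : ℤ) : ∀ w, Q w → ∃ a b,
    (adj a w ∧ ((sg L q k w = L ∧ a ∉ box d n) ∨ (sg L q k w < L ∧ Q a ∧
      sg L q k a = sg L q k w + 1))) ∧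
    (adj b w ∧ ((sg L q k w = 1 ∧ b ∉ box d n) ∨ (1 < sg L q k w ∧ Q b ∧
      sg L q k b = sg L q k w - 1))) ∧ a ≠ b ∧
    ∀ u, adj u w → (u ∉ box d n ∨ Q u) → u = a ∨ u = b := by
  intro w hw
  obtain ⟨a, b, ⟨h1, h2⟩, ⟨h3, h4⟩, h5, h6⟩ := H.key w hw
  by_cases h : k % 2 = 1
  · refine ⟨a, b, ⟨h1, ?_⟩, ⟨h3, ?_⟩, h5, h6⟩
    · unfold sg; simp only [if_pos h]; exact h2
    · unfold sg; simp only [if_pos h]; exact h4
  · refine ⟨b, a, ⟨h3, ?_⟩, ⟨h1, ?_⟩, h5.symm, fun u hu hu' => (h6 u hu hu').symm⟩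
    · unfold sg; simp only [if_neg h]
      rcases h4 with ⟨g1, g2⟩ | ⟨g1, g2, g3⟩
      · exact Or.inl ⟨by omega, g2⟩
      · exact Or.inr ⟨by omega, g2, by omega⟩
    · unfold sg; simp only [if_neg h]
      rcases h2 with ⟨g1, g2⟩ | ⟨g1, g2, g3⟩
      · exact Or.inl ⟨by omega, g2⟩
      · exact Or.inr ⟨by omega, g2, by omega⟩

lemma box_split {n : ℕ} {u : Fin (d + 1) → ℤ} : u ∈ box (d + 1) n ↔
    Fin.init u ∈ box d n ∧ 1 ≤ u (Fin.last d) ∧ u (Fin.last d) ≤ n := by
  simp only [mem_box]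
  constructor
  · intro h
    exact ⟨fun i => h i.castSucc, h (Fin.last d)⟩
  · rintro ⟨h1, h2⟩ i
    induction i using Fin.lastCases with
    | last => exact h2
    | cast i => exact h1 i

/-- the sheet -/
def ShP (z0 m L : ℤ) (Q : (Fin d → ℤ) → Prop) (q : (Fin d → ℤ) → ℤ) (v : Fin (d + 1) → ℤ) :
    Prop :=
  Q (Fin.init v) ∧ ∃ k, 1 ≤ k ∧ k ≤ m ∧ (v (Fin.last d) = z0 + 2 * k - 1 ∨
    (v (Fin.last d) = z0 + 2 * k ∧ 2 ≤ sg L q k (Fin.init v)))

/-- the infection time in the sheet -/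
def Shr (z0 L : ℤ) (q : (Fin d → ℤ) → ℤ) (v : Fin (d + 1) → ℤ) : ℤ :=
  if (v (Fin.last d) - z0) % 2 = 1 then
    ((v (Fin.last d) - z0 + 1) / 2 - 1) * (L + 1) +
      sg L q ((v (Fin.last d) - z0 + 1) / 2) (Fin.init v)
  else
    ((v (Fin.last d) - z0) / 2 - 1) * (L + 1) +
      sg L q ((v (Fin.last d) - z0) / 2) (Fin.init v) + 1

section
variable {n : ℕ} {z0 m L : ℤ} {Q : (Fin d → ℤ) → Prop} {q : (Fin d → ℤ) → ℤ}

lemma rowA {v : Fin (d + 1) → ℤ} {k : ℤ} (h : v (Fin.last d) = z0 + 2 * k - 1) :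
    Shr z0 L q v = (k - 1) * (L + 1) + sg L q k (Fin.init v) := by
  unfold Shr
  rw [if_pos (by omega)]
  have : (v (Fin.last d) - z0 + 1) / 2 = k := by omega
  rw [this]

lemma rowB {v : Fin (d + 1) → ℤ} {k : ℤ} (h : v (Fin.last d) = z0 + 2 * k) :
    Shr z0 L q v = (k - 1) * (L + 1) + sg L q k (Fin.init v) + 1 := by
  unfold Shr
  rw [if_neg (by omega)]
  have : (v (Fin.last d) - z0) / 2 = k := by omega
  rw [this]

lemma inA {v : Fin (d + 1) → ℤ} {k : ℤ} (h : v (Fin.last d) = z0 + 2 * k - 1) (h1 : 1 ≤ k)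
    (h2 : k ≤ m) : ShP z0 m L Q q v ↔ Q (Fin.init v) := by
  unfold ShP
  exact ⟨fun h => h.1, fun h' => ⟨h', k, h1, h2, Or.inl h⟩⟩

lemma inB {v : Fin (d + 1) → ℤ} {k : ℤ} (h : v (Fin.last d) = z0 + 2 * k) (h1 : 1 ≤ k)
    (h2 : k ≤ m) : ShP z0 m L Q q v ↔ Q (Fin.init v) ∧ 2 ≤ sg L q k (Fin.init v) := by
  unfold ShP
  constructor
  · rintro ⟨g, k', g1, g2, g3 | ⟨g3, g4⟩⟩
    · omega
    · have : k' = k := by omega
      subst this
      exact ⟨g, g4⟩
  · rintro ⟨g1, g2⟩
    exact ⟨g1, k, h1, h2, Or.inr ⟨h, g2⟩⟩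

lemma notin {v : Fin (d + 1) → ℤ} (h : v (Fin.last d) = z0) : ¬ ShP z0 m L Q q v := by
  rintro ⟨-, k, g1, g2, g3 | ⟨g3, -⟩⟩ <;> omega

theorem sheet (hL : 2 ≤ L) (H : Rd d n L Q q) (hz : 1 ≤ z0) (hm : 1 ≤ m)
    (hn : z0 + 2 * m = n) : ∃ t ∈ times (d + 1) (2 * d) n, m * (L + 1) ≤ (t : ℤ) := by
  classical
  set Pf := (box (d + 1) n).filter (fun v => ShP z0 m L Q q v) with hPf
  set ρ := Shr (d := d) z0 L q with hρ
  have hzr : ∀ v, ShP z0 m L Q q v → z0 + 1 ≤ v (Fin.last d) ∧ v (Fin.last d) ≤ n := by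
    rintro v ⟨-, k, g1, g2, g3 | ⟨g3, -⟩⟩ <;> omega
  have hmem : ∀ v, v ∈ Pf ↔ ShP z0 m L Q q v := by
    intro v
    rw [hPf, Finset.mem_filter]
    refine ⟨fun h => h.2, fun h => ⟨?_, h⟩⟩
    rw [box_split]
    have := hzr v h
    exact ⟨H.bx _ h.1, by omega, by omega⟩
  have hk : ∀ k : ℤ, (k - 2) * (L + 1) + (L + 1) = (k - 1) * (L + 1) := by intro k; ring
  have hk' : ∀ k : ℤ, (k - 1) * (L + 1) + (L + 1) = k * (L + 1) := by intro k; ring
  have main := of_rank (r := 2 * d) (n := n) (P := Pf) (Finset.filter_subset _ _) ρ ?_ ?_ ?_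
  · obtain ⟨h1, h2⟩ := main
    refine ⟨Nat.find h1, ⟨_, Finset.sdiff_subset, Nat.find_spec h1,
      fun s hs => Nat.find_min h1 hs⟩, ?_⟩
    by_contra hcon
    push Not at hcon
    obtain ⟨w, hw1, hw2⟩ := H.sgl m
    have e1 : (Fin.snoc (α := fun _ => ℤ) w (n : ℤ) : Fin (d + 1) → ℤ) (Fin.last d) =
        z0 + 2 * m := by rw [Fin.snoc_last, hn]
    have e2 : Fin.init (Fin.snoc (α := fun _ => ℤ) w (n : ℤ) : Fin (d + 1) → ℤ) = w := by
      rw [Fin.init_snoc]
    have hin : Fin.snoc (α := fun _ => ℤ) w (n : ℤ) ∈ Pf := by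
      rw [hmem, inB e1 hm le_rfl, e2]
      exact ⟨hw1, by omega⟩
    have hr : ρ (Fin.snoc (α := fun _ => ℤ) w (n : ℤ)) = m * (L + 1) := by
      rw [hρ, rowB e1, e2, hw2]
      have := hk' m
      omega
    refine h2 _ hin (Nat.find h1) (by rw [hr]; exact hcon) ?_
    rw [Nat.find_spec h1]
    exact (Finset.mem_filter.mp hin).1
  · intro v hv
    rw [hmem] at hv
    obtain ⟨hQ, k, g1, g2, g3 | ⟨g3, g4⟩⟩ := hv
    · rw [hρ, rowA g3]
      have := H.sgr k hQ
      have : 0 ≤ (k - 1) * (L + 1) := mul_nonneg (by omega) (by omega)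
      omega
    · rw [hρ, rowB g3]
      have : 0 ≤ (k - 1) * (L + 1) := mul_nonneg (by omega) (by omega)
      omega
  · intro v hv
    rw [hmem] at hv
    have hc := card_bad v (fun u => u ∈ box (d + 1) n ∧ (u ∈ Pf → ρ u < ρ v))
    suffices hs : ((nbr v).filter
        (fun u => ¬ (u ∈ box (d + 1) n ∧ (u ∈ Pf → ρ u < ρ v)))).card ≤ 2 by omega
    have hvz := hzr v hv
    obtain ⟨hQ, k, g1, g2, g3 | ⟨g3, g4⟩⟩ := hv
    · obtain ⟨a, b, ⟨-, -⟩, ⟨-, hb⟩, -, hab⟩ := H.sgk k _ hQ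
      have hr := H.sgr k hQ
      obtain ⟨y, hy⟩ : ∃ y : Fin (d + 1) → ℤ, y = if sg L q k (Fin.init v) = 1 then
        Fin.snoc (α := fun _ => ℤ) b (v (Fin.last d)) else
        Fin.snoc (α := fun _ => ℤ) (Fin.init v) (v (Fin.last d) + 1) := ⟨_, rfl⟩
      refine (Finset.card_le_card (t := {Fin.snoc (α := fun _ => ℤ) a (v (Fin.last d)), y})
        ?_).trans Finset.card_le_two
      intro u hu
      rw [Finset.mem_filter, mem_nbr, adj_split] at hu
      obtain ⟨hu1, hu2⟩ := hu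
      rw [Finset.mem_insert, Finset.mem_singleton]
      rcases hu1 with ⟨q1, q2⟩ | ⟨q1, q2⟩
      · by_cases hbq : Fin.init u ∉ box d n ∨ Q (Fin.init u)
        · rcases hab _ q1 hbq with h | h
          · left
            exact ext_split (by rw [Fin.init_snoc, h]) (by rw [Fin.snoc_last, q2])
          · right
            rcases hb with ⟨c1, c2⟩ | ⟨c1, c2, c3⟩
            · rw [hy, if_pos c1]
              exact ext_split (by rw [Fin.init_snoc, h]) (by rw [Fin.snoc_last, q2])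
            · exfalso
              apply hu2
              refine ⟨?_, fun _ => ?_⟩
              · rw [box_split, h]
                exact ⟨H.bx _ c2, by omega, by omega⟩
              · rw [hρ, rowA (k := k) (by omega), rowA g3, h, c3]
                omega
        · push Not at hbq
          exfalso
          apply hu2
          refine ⟨?_, fun hP => ?_⟩
          · rw [box_split]
            exact ⟨hbq.1, by omega, by omega⟩
          · rw [hmem] at hP
            exact absurd hP.1 hbq.2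
      · rw [abs_eq (by norm_num)] at q2
        rcases q2 with q2 | q2
        · right
          rw [hy]
          split_ifs with h1
          · exfalso
            apply hu2
            refine ⟨?_, fun hP => ?_⟩
            · rw [box_split, q1]
              exact ⟨H.bx _ hQ, by omega, by omega⟩
            · rw [hmem, inB (k := k) (by omega) g1 g2, q1] at hP
              omega
          · exact ext_split (by rw [Fin.init_snoc, q1]) (by rw [Fin.snoc_last]; omega)
        · exfalso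
          apply hu2
          refine ⟨?_, fun hP => ?_⟩
          · rw [box_split, q1]
            exact ⟨H.bx _ hQ, by omega, by omega⟩
          · rw [hmem] at hP
            by_cases h1 : k = 1
            · exact absurd hP (notin (by omega))
            · rw [hρ, rowB (k := k - 1) (by omega), rowA g3, q1, sg_pred]
              have h7 := hk k
              have e9 : k - 1 - 1 = k - 2 := by ring
              rw [e9]
              omega
    · obtain ⟨a, b, ⟨-, -⟩, ⟨-, hb⟩, -, hab⟩ := H.sgk k _ hQ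
      have hr := H.sgr k hQ
      refine (Finset.card_le_card (t := {Fin.snoc (α := fun _ => ℤ) a (v (Fin.last d)),
        Fin.snoc (α := fun _ => ℤ) (Fin.init v) (v (Fin.last d) + 1)})
        ?_).trans Finset.card_le_two
      intro u hu
      rw [Finset.mem_filter, mem_nbr, adj_split] at hu
      obtain ⟨hu1, hu2⟩ := hu
      rw [Finset.mem_insert, Finset.mem_singleton]
      rcases hu1 with ⟨q1, q2⟩ | ⟨q1, q2⟩
      · by_cases hbq : Fin.init u ∉ box d n ∨ Q (Fin.init u)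
        · rcases hab _ q1 hbq with h | h
          · left
            exact ext_split (by rw [Fin.init_snoc, h]) (by rw [Fin.snoc_last, q2])
          · rcases hb with ⟨c1, c2⟩ | ⟨c1, c2, c3⟩
            · omega
            · exfalso
              apply hu2
              refine ⟨?_, fun _ => ?_⟩
              · rw [box_split, h]
                exact ⟨H.bx _ c2, by omega, by omega⟩
              · rw [hρ, rowB (k := k) (by omega), rowB g3, h, c3]
                omega
        · push Not at hbq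
          exfalso
          apply hu2
          refine ⟨?_, fun hP => ?_⟩
          · rw [box_split]
            exact ⟨hbq.1, by omega, by omega⟩
          · rw [hmem] at hP
            exact absurd hP.1 hbq.2
      · rw [abs_eq (by norm_num)] at q2
        rcases q2 with q2 | q2
        · right
          exact ext_split (by rw [Fin.init_snoc, q1]) (by rw [Fin.snoc_last]; omega)
        · exfalso
          apply hu2
          refine ⟨?_, fun hP => ?_⟩
          · rw [box_split, q1]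
            exact ⟨H.bx _ hQ, by omega, by omega⟩
          · rw [hρ, rowA (k := k) (by omega), rowB g3, q1]
            omega
  · intro v hv hrk
    rw [hmem] at hv
    have hc := card_bad v (fun u => u ∈ box (d + 1) n ∧ (u ∈ Pf → ρ u + 1 < ρ v))
    suffices hs : 2 < ((nbr v).filter
        (fun u => ¬ (u ∈ box (d + 1) n ∧ (u ∈ Pf → ρ u + 1 < ρ v)))).card by omega
    have hvz := hzr v hv
    have hlt : ∀ (c : Fin d → ℤ) (x : ℤ),
        (Fin.snoc (α := fun _ => ℤ) c x : Fin (d + 1) → ℤ) (Fin.last d) = x :=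
      fun c x => by rw [Fin.snoc_last]
    have hit : ∀ (c : Fin d → ℤ) (x : ℤ),
        Fin.init (Fin.snoc (α := fun _ => ℤ) c x : Fin (d + 1) → ℤ) = c :=
      fun c x => by rw [Fin.init_snoc]
    have hnbr1 : ∀ c : Fin d → ℤ, adj c (Fin.init v) →
        adj (Fin.snoc (α := fun _ => ℤ) c (v (Fin.last d))) v := by
      intro c hc
      rw [adj_split, hlt, hit]
      exact Or.inl ⟨hc, rfl⟩
    have hnbr2 : ∀ x : ℤ, |x - v (Fin.last d)| = 1 →
        adj (Fin.snoc (α := fun _ => ℤ) (Fin.init v) x) v := by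
      intro x hx
      rw [adj_split, hlt, hit]
      exact Or.inr ⟨rfl, hx⟩
    have hne1 : ∀ (c c' : Fin d → ℤ) (x x' : ℤ), x ≠ x' →
        (Fin.snoc (α := fun _ => ℤ) c x : Fin (d + 1) → ℤ) ≠ Fin.snoc (α := fun _ => ℤ) c' x' := by
      intro c c' x x' hx h
      apply hx
      rw [← hlt c x, h, hlt]
    have hne2 : ∀ (c c' : Fin d → ℤ) (x x' : ℤ), c ≠ c' →
        (Fin.snoc (α := fun _ => ℤ) c x : Fin (d + 1) → ℤ) ≠ Fin.snoc (α := fun _ => ℤ) c' x' := by
      intro c c' x x' hx h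
      apply hx
      rw [← hit c x, h, hit]
    obtain ⟨hQ, k, g1, g2, g3 | ⟨g3, g4⟩⟩ := hv
    · obtain ⟨a, b, ⟨ha1, ha⟩, ⟨hb1, hb⟩, hne, hab⟩ := H.sgk k _ hQ
      have hr := H.sgr k hQ
      have ma : Fin.snoc (α := fun _ => ℤ) a (v (Fin.last d)) ∈ (nbr v).filter
          (fun u => ¬ (u ∈ box (d + 1) n ∧ (u ∈ Pf → ρ u + 1 < ρ v))) := by
        rw [Finset.mem_filter, mem_nbr]
        refine ⟨hnbr1 a ha1, fun h => ?_⟩
        rcases ha with ⟨c1, c2⟩ | ⟨c1, c2, c3⟩
        · rw [box_split, hit] at h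
          exact c2 h.1.1
        · have h2 := h.2 (by rw [hmem, inA (k := k) (by rw [hlt, g3]) g1 g2, hit]; exact c2)
          rw [hρ, rowA (k := k) (by rw [hlt, g3]), rowA g3, hit] at h2
          omega
      have mb : Fin.snoc (α := fun _ => ℤ) b (v (Fin.last d)) ∈ (nbr v).filter
          (fun u => ¬ (u ∈ box (d + 1) n ∧ (u ∈ Pf → ρ u + 1 < ρ v))) := by
        rw [Finset.mem_filter, mem_nbr]
        refine ⟨hnbr1 b hb1, fun h => ?_⟩
        rcases hb with ⟨c1, c2⟩ | ⟨c1, c2, c3⟩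
        · rw [box_split, hit] at h
          exact c2 h.1.1
        · have h2 := h.2 (by rw [hmem, inA (k := k) (by rw [hlt, g3]) g1 g2, hit]; exact c2)
          rw [hρ, rowA (k := k) (by rw [hlt, g3]), rowA g3, hit] at h2
          omega
      rw [Finset.two_lt_card]
      by_cases h1 : sg L q k (Fin.init v) = 1
      · refine ⟨_, ma, _, mb, Fin.snoc (α := fun _ => ℤ) (Fin.init v) (v (Fin.last d) - 1), ?_,
          hne2 _ _ _ _ hne, hne1 _ _ _ _ (by omega), hne1 _ _ _ _ (by omega)⟩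
        rw [Finset.mem_filter, mem_nbr]
        refine ⟨hnbr2 _ (by rw [abs_eq (by norm_num)]; right; ring), fun h => ?_⟩
        by_cases hk1 : k = 1
        · rw [hρ, rowA g3, h1, hk1] at hrk
          norm_num at hrk
        · have h2 := h.2 (by
            rw [hmem, inB (k := k - 1) (by rw [hlt, g3]; ring) (by omega) (by omega), hit,
              sg_pred]
            exact ⟨hQ, by omega⟩)
          rw [hρ, rowB (k := k - 1) (by rw [hlt, g3]; ring), rowA g3, hit, sg_pred] at h2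
          have h7 := hk k
          have e9 : k - 1 - 1 = k - 2 := by ring
          rw [e9] at h2
          omega
      · refine ⟨_, ma, _, mb, Fin.snoc (α := fun _ => ℤ) (Fin.init v) (v (Fin.last d) + 1), ?_,
          hne2 _ _ _ _ hne, hne1 _ _ _ _ (by omega), hne1 _ _ _ _ (by omega)⟩
        rw [Finset.mem_filter, mem_nbr]
        refine ⟨hnbr2 _ (by rw [abs_eq (by norm_num)]; left; ring), fun h => ?_⟩
        have h2 := h.2 (by
          rw [hmem, inB (k := k) (by rw [hlt, g3]; ring) g1 g2, hit]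
          exact ⟨hQ, by omega⟩)
        rw [hρ, rowB (k := k) (by rw [hlt, g3]; ring), rowA g3, hit] at h2
        omega
    · obtain ⟨a, b, ⟨ha1, ha⟩, ⟨hb1, hb⟩, hne, hab⟩ := H.sgk k _ hQ
      have hr := H.sgr k hQ
      rw [Finset.two_lt_card]
      refine ⟨Fin.snoc (α := fun _ => ℤ) a (v (Fin.last d)), ?_,
        Fin.snoc (α := fun _ => ℤ) (Fin.init v) (v (Fin.last d) - 1), ?_,
        Fin.snoc (α := fun _ => ℤ) (Fin.init v) (v (Fin.last d) + 1), ?_,
        hne1 _ _ _ _ (by omega), hne1 _ _ _ _ (by omega), hne1 _ _ _ _ (by omega)⟩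
      · rw [Finset.mem_filter, mem_nbr]
        refine ⟨hnbr1 a ha1, fun h => ?_⟩
        rcases ha with ⟨c1, c2⟩ | ⟨c1, c2, c3⟩
        · rw [box_split, hit] at h
          exact c2 h.1.1
        · have h2 := h.2 (by
            rw [hmem, inB (k := k) (by rw [hlt, g3]) g1 g2, hit]; exact ⟨c2, by omega⟩)
          rw [hρ, rowB (k := k) (by rw [hlt, g3]), rowB g3, hit] at h2
          omega
      · rw [Finset.mem_filter, mem_nbr]
        refine ⟨hnbr2 _ (by rw [abs_eq (by norm_num)]; right; ring), fun h => ?_⟩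
        have h2 := h.2 (by
          rw [hmem, inA (k := k) (by rw [hlt, g3]) g1 g2, hit]
          exact hQ)
        rw [hρ, rowA (k := k) (by rw [hlt, g3]), rowB g3, hit] at h2
        omega
      · rw [Finset.mem_filter, mem_nbr]
        refine ⟨hnbr2 _ (by rw [abs_eq (by norm_num)]; left; ring), fun h => ?_⟩
        rw [box_split, hit, hlt] at h
        have hkm : k + 1 ≤ m := by omega
        have h2 := h.2 (by
          rw [hmem, inA (k := k + 1) (by rw [hlt, g3]; ring) (by omega) hkm, hit]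
          exact hQ)
        rw [hρ, rowA (k := k + 1) (by rw [hlt, g3]; ring), rowB g3, hit, sg_succ] at h2
        have h7 := hk (k + 1)
        have e9 : k + 1 - 2 = k - 1 := by ring
        have e10 : k + 1 - 1 = k := by ring
        rw [e9, e10] at h7
        rw [e10] at h2
        omega

end

end H500G
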