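import Pool.Agent.H500R3.Boot.Edge

/-!
Stacking slow processes: from dimension `D`, threshold `r`, to dimension `D + 1`, threshold `r + 1`.
-/

namespace H500G

variable {d : ℕ}

lemma cnt_eq (v : Fin d → ℤ) (φ : (Fin d → ℤ) → Prop) [DecidablePred φ] :
    ((nbr v).filter φ).card =
      ∑ i : Fin d, ∑ b : Bool, if φ (Function.update v i (v i + (if b then 1 else -1))) then 1
        else 0 := by
  unfold nbr
  rw [Finset.filter_image, Finset.card_image_of_injective, Finset.card_filter,
    Fintype.sum_prod_type]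
  rintro ⟨i, b⟩ ⟨j, c⟩ h
  have hij : i = j := by
    by_contra hne
    have h1 := congrFun h i
    simp only [Function.update_self, Function.update_of_ne hne] at h1
    cases b <;> simp at h1
  subst hij
  have h1 := congrFun h i
  simp only [Function.update_self] at h1
  cases b <;> cases c <;> simp at h1 ⊢

lemma upd_cast (v : Fin (d + 1) → ℤ) (i : Fin d) (x : ℤ) :
    Function.update v i.castSucc x =
      Fin.snoc (α := fun _ => ℤ) (Function.update (Fin.init v) i x) (v (Fin.last d)) := by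
  refine ext_split ?_ ?_
  · rw [Fin.init_snoc]
    funext j
    by_cases hj : j = i
    · subst hj
      rw [Function.update_self]
      change Function.update v j.castSucc x j.castSucc = x
      rw [Function.update_self]
    · rw [Function.update_of_ne hj]
      change Function.update v i.castSucc x j.castSucc = v j.castSucc
      rw [Function.update_of_ne (fun h => hj (Fin.castSucc_injective d h))]
  · rw [Fin.snoc_last, Function.update_of_ne (Fin.castSucc_lt_last i).ne']

lemma upd_last (v : Fin (d + 1) → ℤ) (x : ℤ) :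
    Function.update v (Fin.last d) x = Fin.snoc (α := fun _ => ℤ) (Fin.init v) x := by
  refine ext_split ?_ ?_
  · rw [Fin.init_snoc]
    funext j
    change Function.update v (Fin.last d) x j.castSucc = v j.castSucc
    rw [Function.update_of_ne (Fin.castSucc_lt_last j).ne]
  · rw [Fin.snoc_last, Function.update_self]

lemma cnt_split (v : Fin (d + 1) → ℤ) (φ : (Fin (d + 1) → ℤ) → Prop) [DecidablePred φ] :
    ((nbr v).filter φ).card =
      ((nbr (Fin.init v)).filter
        (fun w => φ (Fin.snoc (α := fun _ => ℤ) w (v (Fin.last d))))).card +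
      ((if φ (Fin.snoc (α := fun _ => ℤ) (Fin.init v) (v (Fin.last d) + 1)) then 1 else 0) +
      (if φ (Fin.snoc (α := fun _ => ℤ) (Fin.init v) (v (Fin.last d) - 1)) then 1 else 0)) := by
  rw [cnt_eq, cnt_eq, Fin.sum_univ_castSucc]
  congr 1
  · refine Finset.sum_congr rfl fun i _ => Finset.sum_congr rfl fun b _ => ?_
    rw [upd_cast]
    rfl
  · rw [Fintype.sum_bool, upd_last, upd_last]
    simp only [if_true, Bool.false_eq_true, if_false]
    rfl

open Classical in
/-- a slow process with threshold `r` on the active set `W` of `[n]^D`, infection times `f`,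
special vertices `S` -/
structure St (D n r : ℕ) (T : ℤ) (W : (Fin D → ℤ) → Prop) (f : (Fin D → ℤ) → ℤ)
    (S : (Fin D → ℤ) → Prop) : Prop where
  bx : ∀ v, W v → v ∈ box D n
  lo : ∀ v, W v → 1 ≤ f v ∧ f v ≤ T
  lst : ∃ v, W v ∧ f v = T
  sT : ∀ v, W v → f v = T → ¬ S v
  s1 : ∀ v, W v → f v = 1 → S v
  a1 : ∀ v, W v → ¬ S v →
    r ≤ ((nbr v).filter (fun u => u ∈ box D n ∧ (W u → f u < f v))).card
  a1' : ∀ v, W v → S v →
    r ≤ ((nbr v).filter (fun u => u ∈ box D n ∧ (W u → f u < f v))).card + 1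
  a2 : ∀ v, W v → ¬ S v →
    ((nbr v).filter (fun u => u ∈ box D n ∧ (W u → f u + 1 < f v))).card + 1 ≤ r
  a2' : ∀ v, W v → S v → 2 ≤ f v →
    ((nbr v).filter (fun u => u ∈ box D n ∧ (W u → f u + 1 < f v))).card + 2 ≤ r
  a2'' : ∀ v, W v → f v = 1 →
    ((nbr v).filter (fun u => u ∈ box D n ∧ (W u → f u + 1 < f v))).card + 1 ≤ r
  b2 : ∀ v, W v → ¬ S v →
    ((nbr v).filter (fun u => u ∈ box D n ∧ (W u → ¬ S u → f u + 1 < f v))).card ≤ r

/-- process in the pair number `k` -/
def fk (T : ℤ) (f : (Fin d → ℤ) → ℤ) (k : ℤ) (w : Fin d → ℤ) : ℤ :=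
  if k % 2 = 1 then f w else T + 1 - f w

def Sk (S S' : (Fin d → ℤ) → Prop) (k : ℤ) (w : Fin d → ℤ) : Prop :=
  if k % 2 = 1 then S w else S' w

/-- the stacked active set -/
def StP (z0 m : ℤ) (W S S' : (Fin d → ℤ) → Prop) (v : Fin (d + 1) → ℤ) : Prop :=
  W (Fin.init v) ∧ ∃ k, 1 ≤ k ∧ k ≤ m ∧ (v (Fin.last d) = z0 + 2 * k - 1 ∨
    (v (Fin.last d) = z0 + 2 * k ∧ ¬ Sk S S' k (Fin.init v)))

def Str (z0 T : ℤ) (f : (Fin d → ℤ) → ℤ) (v : Fin (d + 1) → ℤ) : ℤ :=
  if (v (Fin.last d) - z0) % 2 = 1 then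
    ((v (Fin.last d) - z0 + 1) / 2 - 1) * (T + 1) +
      fk T f ((v (Fin.last d) - z0 + 1) / 2) (Fin.init v)
  else
    ((v (Fin.last d) - z0) / 2 - 1) * (T + 1) +
      fk T f ((v (Fin.last d) - z0) / 2) (Fin.init v) + 1

section
variable {n : ℕ} {z0 m T : ℤ} {W S S' : (Fin d → ℤ) → Prop} {f : (Fin d → ℤ) → ℤ}

lemma fk_pred (k : ℤ) (w : Fin d → ℤ) : fk T f (k - 1) w = T + 1 - fk T f k w := by
  unfold fk; split_ifs <;> omega

lemma fk_succ (k : ℤ) (w : Fin d → ℤ) : fk T f (k + 1) w = T + 1 - fk T f k w := by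
  unfold fk; split_ifs <;> omega

lemma srowA {v : Fin (d + 1) → ℤ} {k : ℤ} (h : v (Fin.last d) = z0 + 2 * k - 1) :
    Str z0 T f v = (k - 1) * (T + 1) + fk T f k (Fin.init v) := by
  unfold Str
  rw [if_pos (by omega)]
  have : (v (Fin.last d) - z0 + 1) / 2 = k := by omega
  rw [this]

lemma srowB {v : Fin (d + 1) → ℤ} {k : ℤ} (h : v (Fin.last d) = z0 + 2 * k) :
    Str z0 T f v = (k - 1) * (T + 1) + fk T f k (Fin.init v) + 1 := by
  unfold Str
  rw [if_neg (by omega)]
  have : (v (Fin.last d) - z0) / 2 = k := by omega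
  rw [this]

lemma sinA {v : Fin (d + 1) → ℤ} {k : ℤ} (h : v (Fin.last d) = z0 + 2 * k - 1) (h1 : 1 ≤ k)
    (h2 : k ≤ m) : StP z0 m W S S' v ↔ W (Fin.init v) := by
  unfold StP
  exact ⟨fun h => h.1, fun h' => ⟨h', k, h1, h2, Or.inl h⟩⟩

lemma sinB {v : Fin (d + 1) → ℤ} {k : ℤ} (h : v (Fin.last d) = z0 + 2 * k) (h1 : 1 ≤ k)
    (h2 : k ≤ m) : StP z0 m W S S' v ↔ W (Fin.init v) ∧ ¬ Sk S S' k (Fin.init v) := by
  unfold StP
  constructor
  · rintro ⟨g, k', g1, g2, g3 | ⟨g3, g4⟩⟩
    · omega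
    · have : k' = k := by omega
      subst this
      exact ⟨g, g4⟩
  · rintro ⟨g1, g2⟩
    exact ⟨g1, k, h1, h2, Or.inr ⟨h, g2⟩⟩

lemma snotin {v : Fin (d + 1) → ℤ} (h : v (Fin.last d) = z0) : ¬ StP z0 m W S S' v := by
  rintro ⟨-, k, g1, g2, g3 | ⟨g3, -⟩⟩ <;> omega

theorem stack {r : ℕ} (hT : 2 ≤ T) (H : St d n r T W f S)
    (H' : St d n r T W (fun w => T + 1 - f w) S') (hz : 1 ≤ z0) (hm : 1 ≤ m)
    (hn : z0 + 2 * m = n) : ∃ t ∈ times (d + 1) (r + 1) n, m * (T + 1) ≤ (t : ℤ) := by
  classical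
  have HK : ∀ k : ℤ, St d n r T W (fk T f k) (Sk S S' k) := by
    intro k
    by_cases h : k % 2 = 1
    · have e1 : fk T f k = f := by funext w; unfold fk; rw [if_pos h]
      have e2 : Sk S S' k = S := by funext w; unfold Sk; rw [if_pos h]
      rw [e1, e2]; exact H
    · have e1 : fk T f k = fun w => T + 1 - f w := by funext w; unfold fk; rw [if_neg h]
      have e2 : Sk S S' k = S' := by funext w; unfold Sk; rw [if_neg h]
      rw [e1, e2]; exact H'
  set Pf := (box (d + 1) n).filter (fun v => StP z0 m W S S' v) with hPf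
  set ρ := Str (d := d) z0 T f with hρ
  have hzr : ∀ v, StP z0 m W S S' v → z0 + 1 ≤ v (Fin.last d) ∧ v (Fin.last d) ≤ n := by
    rintro v ⟨-, k, g1, g2, g3 | ⟨g3, -⟩⟩ <;> omega
  have hmem : ∀ v, v ∈ Pf ↔ StP z0 m W S S' v := by
    intro v
    rw [hPf, Finset.mem_filter]
    refine ⟨fun h => h.2, fun h => ⟨?_, h⟩⟩
    rw [box_split]
    have := hzr v h
    exact ⟨H.bx _ h.1, by omega, by omega⟩
  have hk : ∀ k : ℤ, (k - 2) * (T + 1) + (T + 1) = (k - 1) * (T + 1) := by intro k; ring
  have hk' : ∀ k : ℤ, (k - 1) * (T + 1) + (T + 1) = k * (T + 1) := by intro k; ring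
  have hlt : ∀ (c : Fin d → ℤ) (x : ℤ),
      (Fin.snoc (α := fun _ => ℤ) c x : Fin (d + 1) → ℤ) (Fin.last d) = x :=
    fun c x => by rw [Fin.snoc_last]
  have hit : ∀ (c : Fin d → ℤ) (x : ℤ),
      Fin.init (Fin.snoc (α := fun _ => ℤ) c x : Fin (d + 1) → ℤ) = c :=
    fun c x => by rw [Fin.init_snoc]
  have main := of_rank (r := r + 1) (n := n) (P := Pf) (Finset.filter_subset _ _) ρ ?_ ?_ ?_
  · obtain ⟨h1, h2⟩ := main
    refine ⟨Nat.find h1, ⟨_, Finset.sdiff_subset, Nat.find_spec h1,
      fun s hs => Nat.find_min h1 hs⟩, ?_⟩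
    by_contra hcon
    push Not at hcon
    obtain ⟨w, hw1, hw2⟩ := (HK m).lst
    have e1 : (Fin.snoc (α := fun _ => ℤ) w (n : ℤ) : Fin (d + 1) → ℤ) (Fin.last d) =
        z0 + 2 * m := by rw [Fin.snoc_last, hn]
    have hin : Fin.snoc (α := fun _ => ℤ) w (n : ℤ) ∈ Pf := by
      rw [hmem, sinB e1 hm le_rfl, hit]
      exact ⟨hw1, (HK m).sT w hw1 hw2⟩
    have hr : ρ (Fin.snoc (α := fun _ => ℤ) w (n : ℤ)) = m * (T + 1) := by
      rw [hρ, srowB e1, hit, hw2]
      have := hk' m
      omega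
    refine h2 _ hin (Nat.find h1) (by rw [hr]; exact hcon) ?_
    rw [Nat.find_spec h1]
    exact (Finset.mem_filter.mp hin).1
  · intro v hv
    rw [hmem] at hv
    obtain ⟨hQ, k, g1, g2, g3 | ⟨g3, g4⟩⟩ := hv
    · rw [hρ, srowA g3]
      have := (HK k).lo _ hQ
      have : 0 ≤ (k - 1) * (T + 1) := mul_nonneg (by omega) (by omega)
      omega
    · rw [hρ, srowB g3]
      have := (HK k).lo _ hQ
      have : 0 ≤ (k - 1) * (T + 1) := mul_nonneg (by omega) (by omega)
      omega
  · intro v hv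
    rw [hmem] at hv
    have hvz := hzr v hv
    obtain ⟨hQ, k, g1, g2, g3⟩ := hv
    have hf := (HK k).lo _ hQ
    rw [cnt_split]
    have hin : ((nbr (Fin.init v)).filter (fun u => u ∈ box d n ∧
        (W u → fk T f k u < fk T f k (Fin.init v)))).card ≤
        ((nbr (Fin.init v)).filter (fun w => Fin.snoc (α := fun _ => ℤ) w (v (Fin.last d)) ∈
          box (d + 1) n ∧ (Fin.snoc (α := fun _ => ℤ) w (v (Fin.last d)) ∈ Pf →
            ρ (Fin.snoc (α := fun _ => ℤ) w (v (Fin.last d))) < ρ v))).card := by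
      refine Finset.card_le_card (Finset.monotone_filter_right _ ?_)
      rintro w - ⟨h1, h2⟩
      refine ⟨?_, fun h3 => ?_⟩
      · rw [box_split, hlt, hit]; exact ⟨h1, by omega, by omega⟩
      · rw [hmem] at h3
        have h4 := h3.1
        rw [hit] at h4
        have h5 := h2 h4
        rcases g3 with g3 | ⟨g3, -⟩
        · rw [hρ, srowA (k := k) (by rw [hlt, g3]), srowA g3, hit]; omega
        · rw [hρ, srowB (k := k) (by rw [hlt, g3]), srowB g3, hit]; omega
    have hdn : (if (Fin.snoc (α := fun _ => ℤ) (Fin.init v) (v (Fin.last d) - 1) ∈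
          box (d + 1) n ∧ (Fin.snoc (α := fun _ => ℤ) (Fin.init v) (v (Fin.last d) - 1) ∈ Pf →
            ρ (Fin.snoc (α := fun _ => ℤ) (Fin.init v) (v (Fin.last d) - 1)) < ρ v)) then 1
            else 0) = 1 := by
      rw [if_pos]
      refine ⟨?_, fun h3 => ?_⟩
      · rw [box_split, hlt, hit]; exact ⟨H.bx _ hQ, by omega, by omega⟩
      · rw [hmem] at h3
        rcases g3 with g3 | ⟨g3, -⟩
        · by_cases h1 : k = 1
          · exact absurd h3 (snotin (by rw [hlt]; omega))
          · rw [hρ, srowB (k := k - 1) (by rw [hlt, g3]; ring), srowA g3, hit, fk_pred]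
            have h7 := hk k
            have e9 : k - 1 - 1 = k - 2 := by ring
            rw [e9]
            omega
        · rw [hρ, srowA (k := k) (by rw [hlt, g3]), srowB g3, hit]; omega
    rw [hdn]
    by_cases hS : Sk S S' k (Fin.init v)
    · rcases g3 with g3 | ⟨g3, g4⟩
      · have hup : (if (Fin.snoc (α := fun _ => ℤ) (Fin.init v) (v (Fin.last d) + 1) ∈
            box (d + 1) n ∧ (Fin.snoc (α := fun _ => ℤ) (Fin.init v) (v (Fin.last d) + 1) ∈ Pf →
              ρ (Fin.snoc (α := fun _ => ℤ) (Fin.init v) (v (Fin.last d) + 1)) < ρ v)) then 1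
              else 0) = 1 := by
          rw [if_pos]
          refine ⟨?_, fun h3 => ?_⟩
          · rw [box_split, hlt, hit]; exact ⟨H.bx _ hQ, by omega, by omega⟩
          · rw [hmem, sinB (k := k) (by rw [hlt, g3]; ring) g1 g2, hit] at h3
            exact absurd hS h3.2
        rw [hup]
        have := (HK k).a1' _ hQ hS
        omega
      · exact absurd hS g4
    · have := (HK k).a1 _ hQ hS
      omega
  · intro v hv hrk
    rw [hmem] at hv
    have hvz := hzr v hv
    obtain ⟨hQ, k, g1, g2, g3⟩ := hv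
    have hf := (HK k).lo _ hQ
    rw [cnt_split]
    rcases g3 with g3 | ⟨g3, g4⟩
    · have hin : ((nbr (Fin.init v)).filter (fun w => Fin.snoc (α := fun _ => ℤ) w
          (v (Fin.last d)) ∈
          box (d + 1) n ∧ (Fin.snoc (α := fun _ => ℤ) w (v (Fin.last d)) ∈ Pf →
            ρ (Fin.snoc (α := fun _ => ℤ) w (v (Fin.last d))) + 1 < ρ v))).card ≤
          ((nbr (Fin.init v)).filter (fun u => u ∈ box d n ∧
          (W u → fk T f k u + 1 < fk T f k (Fin.init v)))).card := by
        refine Finset.card_le_card (Finset.monotone_filter_right _ ?_)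
        rintro w - ⟨h1, h2⟩
        rw [box_split, hit] at h1
        refine ⟨h1.1, fun h3 => ?_⟩
        have h4 := h2 (by rw [hmem, sinA (k := k) (by rw [hlt, g3]) g1 g2, hit]; exact h3)
        rw [hρ, srowA (k := k) (by rw [hlt, g3]), srowA g3, hit] at h4
        omega
      by_cases hS : Sk S S' k (Fin.init v)
      · by_cases h1 : fk T f k (Fin.init v) = 1
        · have hdn : ¬ (Fin.snoc (α := fun _ => ℤ) (Fin.init v) (v (Fin.last d) - 1) ∈
              box (d + 1) n ∧ (Fin.snoc (α := fun _ => ℤ) (Fin.init v) (v (Fin.last d) - 1) ∈ Pf →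
              ρ (Fin.snoc (α := fun _ => ℤ) (Fin.init v) (v (Fin.last d) - 1)) + 1 < ρ v)) := by
            rintro ⟨-, h⟩
            by_cases hk1 : k = 1
            · rw [hρ, srowA g3, h1, hk1] at hrk
              norm_num at hrk
            · have h5 : fk T f (k - 1) (Fin.init v) = T := by rw [fk_pred, h1]; ring
              have h2 := h (by
                rw [hmem, sinB (k := k - 1) (by rw [hlt, g3]; ring) (by omega) (by omega), hit]
                exact ⟨hQ, (HK (k - 1)).sT _ hQ h5⟩)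
              rw [hρ, srowB (k := k - 1) (by rw [hlt, g3]; ring), srowA g3, hit, h5, h1] at h2
              have h7 := hk k
              have e9 : k - 1 - 1 = k - 2 := by ring
              rw [e9] at h2
              omega
          rw [if_neg hdn]
          have := (HK k).a2'' _ hQ h1
          split_ifs <;> omega
        · have := (HK k).a2' _ hQ hS (by omega)
          split_ifs <;> omega
      · have hup : ¬ (Fin.snoc (α := fun _ => ℤ) (Fin.init v) (v (Fin.last d) + 1) ∈
            box (d + 1) n ∧ (Fin.snoc (α := fun _ => ℤ) (Fin.init v) (v (Fin.last d) + 1) ∈ Pf →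
            ρ (Fin.snoc (α := fun _ => ℤ) (Fin.init v) (v (Fin.last d) + 1)) + 1 < ρ v)) := by
          rintro ⟨-, h⟩
          have h2 := h (by
            rw [hmem, sinB (k := k) (by rw [hlt, g3]; ring) g1 g2, hit]
            exact ⟨hQ, hS⟩)
          rw [hρ, srowB (k := k) (by rw [hlt, g3]; ring), srowA g3, hit] at h2
          omega
        rw [if_neg hup]
        have := (HK k).a2 _ hQ hS
        split_ifs <;> omega
    · have hin : ((nbr (Fin.init v)).filter (fun w => Fin.snoc (α := fun _ => ℤ) w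
          (v (Fin.last d)) ∈
          box (d + 1) n ∧ (Fin.snoc (α := fun _ => ℤ) w (v (Fin.last d)) ∈ Pf →
            ρ (Fin.snoc (α := fun _ => ℤ) w (v (Fin.last d))) + 1 < ρ v))).card ≤
          ((nbr (Fin.init v)).filter (fun u => u ∈ box d n ∧
          (W u → ¬ Sk S S' k u → fk T f k u + 1 < fk T f k (Fin.init v)))).card := by
        refine Finset.card_le_card (Finset.monotone_filter_right _ ?_)
        rintro w - ⟨h1, h2⟩
        rw [box_split, hit] at h1
        refine ⟨h1.1, fun h3 h3' => ?_⟩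
        have h4 := h2 (by rw [hmem, sinB (k := k) (by rw [hlt, g3]) g1 g2, hit]; exact ⟨h3, h3'⟩)
        rw [hρ, srowB (k := k) (by rw [hlt, g3]), srowB g3, hit] at h4
        omega
      have hdn : ¬ (Fin.snoc (α := fun _ => ℤ) (Fin.init v) (v (Fin.last d) - 1) ∈
          box (d + 1) n ∧ (Fin.snoc (α := fun _ => ℤ) (Fin.init v) (v (Fin.last d) - 1) ∈ Pf →
          ρ (Fin.snoc (α := fun _ => ℤ) (Fin.init v) (v (Fin.last d) - 1)) + 1 < ρ v)) := by
        rintro ⟨-, h⟩
        have h2 := h (by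
          rw [hmem, sinA (k := k) (by rw [hlt, g3]) g1 g2, hit]
          exact hQ)
        rw [hρ, srowA (k := k) (by rw [hlt, g3]), srowB g3, hit] at h2
        omega
      have hup : ¬ (Fin.snoc (α := fun _ => ℤ) (Fin.init v) (v (Fin.last d) + 1) ∈
          box (d + 1) n ∧ (Fin.snoc (α := fun _ => ℤ) (Fin.init v) (v (Fin.last d) + 1) ∈ Pf →
          ρ (Fin.snoc (α := fun _ => ℤ) (Fin.init v) (v (Fin.last d) + 1)) + 1 < ρ v)) := by
        rintro ⟨hb, h⟩
        rw [box_split, hit, hlt] at hb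
        have hkm : k + 1 ≤ m := by omega
        have h2 := h (by
          rw [hmem, sinA (k := k + 1) (by rw [hlt, g3]; ring) (by omega) hkm, hit]
          exact hQ)
        rw [hρ, srowA (k := k + 1) (by rw [hlt, g3]; ring), srowB g3, hit, fk_succ] at h2
        have h7 := hk (k + 1)
        have e9 : k + 1 - 2 = k - 1 := by ring
        have e10 : k + 1 - 1 = k := by ring
        rw [e9, e10] at h7
        rw [e10] at h2
        omega
      rw [if_neg hdn, if_neg hup]
      have := (HK k).b2 _ hQ g4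
      omega

end

end H500G
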